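import Pool.Agent.Lib.H24W.BAS
import Pool.Agent.Lib.H59C.MER0

/-!
# H24W, CSB: size of `cS`
-/

open Finset

namespace Pool.Agent.H24W

open Pool.Agent.H16U
open Pool.Agent.HUK (GG Bdd)
open Pool.Agent.H44W (ee)
open Pool.Agent.Lib.H68T (lp PC p0 Reg Good Exc sw)
open Pool.Agent.Lib.Sieve (poly cT cE cA)

/-- `1 ≤ cS`: all factors are `≥ 1`. Upper bound: `H59C.mertens` (file H59C/MER0; `PR u v` = primes in `[u, v)`) gives `∑_{p ≤ w} 1/p ≤ loglog (w + 1) + C`, and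
`(1 - 1/p)⁻¹ ≤ exp (1/p + 2/p²)`, `∑ 2/p² ≤ 4`: `cS ≤ C' log (w + 1) ≤ C'' L^(2/5) ≤ L`. -/
theorem cS_le : ∃ X0 : ℕ, ∀ X : ℕ, X0 ≤ X → 1 ≤ cS X ∧ cS X ≤ Real.log X := by
  obtain ⟨C, hC, hM⟩ := Pool.Agent.Lib.H59C.mertens
  set K : ℝ := Real.exp (-Real.log (Real.log 2) + C / Real.log 2 + 2) with hK
  have hK0 : 0 < K := Real.exp_pos _
  obtain ⟨X1, h1⟩ := big_pow (a := 2 / 5) (b := 1) (by norm_num) (2 * K)
  obtain ⟨X2, h2⟩ := big_L 1
  refine ⟨max X1 X2, fun X hX => ?_⟩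
  have hL1 : 1 ≤ Real.log X := h2 X ((le_max_right _ _).trans hX)
  have hLK : 2 * K * (Real.log X) ^ (2 / 5 : ℝ) ≤ Real.log X := by
    have := h1 X ((le_max_left _ _).trans hX)
    rwa [Real.rpow_one] at this
  have hp2 : ∀ p ∈ PS X, (2 : ℝ) ≤ p := by
    intro p hp
    exact_mod_cast (mem_PS.1 hp).1.two_le
  have hfac : ∀ p ∈ PS X, (1 : ℝ) ≤ (1 - 1 / (p : ℝ))⁻¹ := by
    intro p hp
    have h3 := hp2 p hp
    have h4 : 1 / (p : ℝ) ≤ 1 / 2 := one_div_le_one_div_of_le (by norm_num) h3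
    have h5 : 0 < 1 / (p : ℝ) := by positivity
    rw [one_le_inv₀ (by linarith)]
    linarith
  refine ⟨?_, ?_⟩
  · unfold cS
    calc (1 : ℝ) = ∏ p ∈ PS X, (1 : ℝ) := by simp
      _ ≤ ∏ p ∈ PS X, (1 - 1 / (p : ℝ))⁻¹ :=
        Finset.prod_le_prod (fun _ _ => zero_le_one) hfac
  · have hexp : ∀ p ∈ PS X, (1 - 1 / (p : ℝ))⁻¹ ≤
        Real.exp (1 / (p : ℝ) + 2 * ((p : ℝ) ^ 2)⁻¹) := by
      intro p hp
      have h3 := hp2 p hp
      set t : ℝ := 1 / (p : ℝ) with ht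
      have h4 : t ≤ 1 / 2 := one_div_le_one_div_of_le (by norm_num) h3
      have h5 : 0 < t := by rw [ht]; positivity
      have h6 : ((p : ℝ) ^ 2)⁻¹ = t ^ 2 := by
        rw [ht, one_div, inv_pow]
      rw [h6, inv_le_comm₀ (by linarith) (Real.exp_pos _), ← Real.exp_neg]
      have h7 := Real.add_one_le_exp (t + 2 * t ^ 2)
      have h8 : 1 ≤ (1 - t) * Real.exp (t + 2 * t ^ 2) := by
        have h9 : (1 - t) * (t + 2 * t ^ 2 + 1) ≤ (1 - t) * Real.exp (t + 2 * t ^ 2) :=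
          mul_le_mul_of_nonneg_left h7 (by linarith)
        have h10 : (1 - t) * (t + 2 * t ^ 2 + 1) = 1 + t ^ 2 * (1 - 2 * t) := by ring
        have h11 : 0 ≤ t ^ 2 * (1 - 2 * t) := mul_nonneg (sq_nonneg t) (by linarith)
        linarith
      rw [Real.exp_neg, inv_le_iff_one_le_mul₀ (Real.exp_pos _)]
      exact h8
    have hw1 : 1 ≤ wS X := by
      apply le_wS
      have : 0 ≤ (Real.log X) ^ (2 / 5 : ℝ) := Real.rpow_nonneg (by linarith) _
      simpa using Real.one_le_exp this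
    have hw1' : (1 : ℝ) ≤ wS X := by exact_mod_cast hw1
    have hM1 := hM 2 ((wS X : ℝ) + 1) le_rfl (by linarith)
    have hsub : PS X ⊆ Pool.Agent.Lib.H59C.PR 2 ((wS X : ℝ) + 1) := by
      intro p hp
      rw [Pool.Agent.Lib.H59C.mem_PR]
      have h3 := mem_PS.1 hp
      refine ⟨h3.1, hp2 p hp, ?_⟩
      have : (p : ℝ) ≤ wS X := by exact_mod_cast h3.2
      linarith
    have hs1 : ∑ p ∈ PS X, 1 / (p : ℝ) ≤
        Real.log (Real.log ((wS X : ℝ) + 1)) - Real.log (Real.log 2) + C / Real.log 2 := by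
      have h3 := Finset.sum_le_sum_of_subset_of_nonneg (f := fun q : ℕ => 1 / (q : ℝ)) hsub
        fun _ _ _ => by positivity
      have h4 := (abs_le.1 hM1).2
      linarith
    have hs2 : ∑ p ∈ PS X, ((p : ℝ) ^ 2)⁻¹ ≤ 1 := by
      have hsub2 : PS X ⊆ Ioc 1 (wS X) := by
        intro p hp
        have h3 := mem_PS.1 hp
        rw [mem_Ioc]
        exact ⟨h3.1.one_lt, h3.2⟩
      have h3 := Finset.sum_le_sum_of_subset_of_nonneg (f := fun q : ℕ => ((q : ℝ) ^ 2)⁻¹) hsub2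
        fun _ _ _ => by positivity
      have h4 := sum_Ioc_inv_sq_le_sub (α := ℝ) one_ne_zero hw1
      have h5 : 0 ≤ ((wS X : ℕ) : ℝ)⁻¹ := by positivity
      have h6 : (((1 : ℕ) : ℝ))⁻¹ = 1 := by norm_num
      rw [h6] at h4
      linarith
    have hlw0 : 0 < Real.log ((wS X : ℝ) + 1) := Real.log_pos (by linarith)
    have hlw : Real.log ((wS X : ℝ) + 1) ≤ (Real.log X) ^ (2 / 5 : ℝ) + 1 := by
      rw [Real.log_le_iff_le_exp (by linarith)]
      have h3 := wS_le X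
      have h4 : 1 ≤ Real.exp ((Real.log X) ^ (2 / 5 : ℝ)) :=
        Real.one_le_exp (Real.rpow_nonneg (by linarith) _)
      rw [Real.exp_add]
      have h5 : (2 : ℝ) ≤ Real.exp 1 := by
        have := Real.add_one_le_exp (1 : ℝ)
        linarith
      nlinarith
    have hA : 1 ≤ (Real.log X) ^ (2 / 5 : ℝ) := Real.one_le_rpow hL1 (by norm_num)
    have hc : cS X ≤ Real.exp (∑ p ∈ PS X, (1 / (p : ℝ) + 2 * ((p : ℝ) ^ 2)⁻¹)) := by
      rw [Real.exp_sum]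
      unfold cS
      exact Finset.prod_le_prod (fun p hp => zero_le_one.trans (hfac p hp)) hexp
    have hsum : ∑ p ∈ PS X, (1 / (p : ℝ) + 2 * ((p : ℝ) ^ 2)⁻¹) ≤
        Real.log (Real.log ((wS X : ℝ) + 1)) + (-Real.log (Real.log 2) + C / Real.log 2 + 2) := by
      rw [Finset.sum_add_distrib, ← Finset.mul_sum]
      linarith
    calc cS X ≤ Real.exp (∑ p ∈ PS X, (1 / (p : ℝ) + 2 * ((p : ℝ) ^ 2)⁻¹)) := hc
      _ ≤ Real.exp (Real.log (Real.log ((wS X : ℝ) + 1)) +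
          (-Real.log (Real.log 2) + C / Real.log 2 + 2)) := Real.exp_le_exp.2 hsum
      _ = Real.log ((wS X : ℝ) + 1) * K := by rw [Real.exp_add, Real.exp_log hlw0]
      _ ≤ ((Real.log X) ^ (2 / 5 : ℝ) + 1) * K := mul_le_mul_of_nonneg_right hlw hK0.le
      _ ≤ 2 * K * (Real.log X) ^ (2 / 5 : ℝ) := by nlinarith
      _ ≤ Real.log X := hLK

end Pool.Agent.H24W
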