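import Pool.Agent.Lib.H24W.BAS

/-!
# H24W, EOKC: the exceptional data satisfy `EOk`
-/

open Finset

namespace Pool.Agent.H24W

open Pool.Agent.H16U
open Pool.Agent.HUK (GG Bdd)
open Pool.Agent.H44W (ee)
open Pool.Agent.Lib.H68T (lp PC p0 Reg Good Exc sw)
open Pool.Agent.Lib.Sieve (poly cT cE cA)

/-- `rle`: `Alt.q_le`. `per`: the cast of `n + q` to `ZMod q`. `bd`: `e.x ∈ {0, 1}`, `re_abs_le`. `lb`: if `e.x = 0` trivial (the right side is 1). Otherwise for
`n ≥ X^(1/2)`: `|χ n| n^(β-1) ≤ exp (-y)`, `y = (1 - β) L/2 ≥ c0 exp (-2 L^(1/5)) L/2` (`Ok.low`, `Alt.q_le`), `1 - exp (-y) ≥ min (1/2) (y/2)`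
and `c0 L ≥ 4`, `exp (-2 L^(1/5)) ≤ 1/2`. -/
theorem e_ok (c0 : ℝ) (hc : 0 < c0) : ∃ X0 : ℕ, ∀ X : ℕ, X0 ≤ X → ∀ (e : EX) (s : ℝ), e.Ok c0 → Alt X e s → EOk X e.toE := by
  obtain ⟨X0, hX0⟩ := big_L (max 1 (4 / c0))
  refine ⟨X0, fun X hX e s he hs => ?_⟩
  have hL := hX0 X hX
  have hL1 : 1 ≤ Real.log X := (le_max_left _ _).trans hL
  have hL4 : 4 ≤ c0 * Real.log X := by
    have h1 := (le_max_right (1 : ℝ) (4 / c0)).trans hL
    rw [div_le_iff₀ hc] at h1
    linarith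
  have hXpos : (0 : ℝ) < X := by
    rcases Nat.eq_zero_or_pos X with h | h
    · rw [h, Nat.cast_zero, Real.log_zero] at hL1
      linarith
    · exact_mod_cast h
  have hq := hs.q_le he
  have hq1 : (1 : ℝ) ≤ (e.q : ℝ) := by exact_mod_cast he.q_pos
  have hl1 : 1 ≤ (Real.log X) ^ (1 / 5 : ℝ) := Real.one_le_rpow hL1 (by norm_num)
  have hbd : ∀ n : ℤ, |e.x * (e.ψ (n : ZMod e.q)).re| ≤ 1 := by
    intro n
    rw [abs_mul]
    have h1 := re_abs_le e.ψ (n : ZMod e.q)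
    have h2 : |e.x| ≤ 1 := by
      rcases he.x01 with h | h <;> rw [h] <;> simp
    calc |e.x| * |(e.ψ (n : ZMod e.q)).re| ≤ 1 * 1 := mul_le_mul h2 h1 (abs_nonneg _) zero_le_one
      _ = 1 := one_mul 1
  refine ⟨he.q_pos, hq, ?_, hbd, he.half, he.lt.le, ?_⟩
  · intro n
    show e.x * (e.ψ ((n + (e.q : ℤ) : ℤ) : ZMod e.q)).re = e.x * (e.ψ (n : ZMod e.q)).re
    have h1 : ((n + (e.q : ℤ) : ℤ) : ZMod e.q) = (n : ZMod e.q) := by
      push_cast
      rw [ZMod.natCast_self, add_zero]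
    rw [h1]
  · intro n hn
    show Real.exp (-(2 * (Real.log X) ^ (1 / 5 : ℝ))) ≤ 1 - e.x * (e.ψ (n : ZMod e.q)).re * (n : ℝ) ^ (e.β - 1)
    rcases he.x01 with hx | hx
    · rw [hx, zero_mul, zero_mul, sub_zero]
      have h1 : Real.exp (-(2 * (Real.log X) ^ (1 / 5 : ℝ))) ≤ Real.exp 0 := Real.exp_le_exp.mpr (by linarith)
      rwa [Real.exp_zero] at h1
    · set l : ℝ := (Real.log X) ^ (1 / 5 : ℝ) with hl
      have hX2 : 0 < (X : ℝ) ^ (1 / 2 : ℝ) := Real.rpow_pos_of_pos hXpos _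
      have hn0 : 0 < (n : ℝ) := hX2.trans_le hn
      have h1 : (n : ℝ) ^ (e.β - 1) ≤ ((X : ℝ) ^ (1 / 2 : ℝ)) ^ (e.β - 1) :=
        Real.rpow_le_rpow_of_nonpos hX2 hn (by linarith [he.lt])
      have h2 : ((X : ℝ) ^ (1 / 2 : ℝ)) ^ (e.β - 1) = Real.exp (-((1 - e.β) * Real.log X / 2)) := by
        rw [← Real.rpow_mul hXpos.le, Real.rpow_def_of_pos hXpos]
        congr 1
        ring
      rw [h2] at h1
      have h3 : e.x * (e.ψ (n : ZMod e.q)).re * (n : ℝ) ^ (e.β - 1) ≤ (n : ℝ) ^ (e.β - 1) := by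
        have h4 := (le_abs_self _).trans (hbd n)
        have h5 : 0 ≤ (n : ℝ) ^ (e.β - 1) := Real.rpow_nonneg hn0.le _
        calc e.x * (e.ψ (n : ZMod e.q)).re * (n : ℝ) ^ (e.β - 1) ≤ 1 * (n : ℝ) ^ (e.β - 1) :=
              mul_le_mul_of_nonneg_right h4 h5
          _ = (n : ℝ) ^ (e.β - 1) := one_mul _
      have h6 : c0 * Real.exp (-(2 * l)) ≤ 1 - e.β := by
        refine le_trans ?_ he.low
        rw [le_div_iff₀ (by positivity)]
        have h7 : (e.q : ℝ) ^ 2 ≤ Real.exp (2 * l) := by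
          have h8 : (e.q : ℝ) ^ 2 ≤ (Real.exp l) ^ 2 := pow_le_pow_left₀ (by linarith) hq 2
          have h9 : (Real.exp l) ^ 2 = Real.exp (2 * l) := by
            rw [← Real.exp_nat_mul]
            norm_num
          rwa [h9] at h8
        have h10 : Real.exp (-(2 * l)) * Real.exp (2 * l) = 1 := by
          rw [← Real.exp_add]
          simp
        calc c0 * Real.exp (-(2 * l)) * (e.q : ℝ) ^ 2 ≤ c0 * Real.exp (-(2 * l)) * Real.exp (2 * l) :=
              mul_le_mul_of_nonneg_left h7 (by positivity)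
          _ = c0 * (Real.exp (-(2 * l)) * Real.exp (2 * l)) := by ring
          _ = c0 := by rw [h10, mul_one]
      have h11 : 2 * Real.exp (-(2 * l)) ≤ (1 - e.β) * Real.log X / 2 := by
        have h12 : c0 * Real.exp (-(2 * l)) * Real.log X ≤ (1 - e.β) * Real.log X :=
          mul_le_mul_of_nonneg_right h6 (by linarith)
        have h13 : 0 < Real.exp (-(2 * l)) := Real.exp_pos _
        nlinarith
      have h14 : Real.exp (-((1 - e.β) * Real.log X / 2)) ≤ Real.exp (-(2 * Real.exp (-(2 * l)))) :=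
        Real.exp_le_exp.mpr (by linarith)
      have h15 : 2 * Real.exp (-(2 * l)) ≤ 1 := by
        have h16 : Real.exp (-(2 * l)) ≤ Real.exp (-1) := Real.exp_le_exp.mpr (by linarith)
        have h17 := Real.exp_neg_one_lt_half
        linarith
      set y : ℝ := 2 * Real.exp (-(2 * l)) with hy
      have hy0 : 0 < y := by positivity
      have h18 : Real.exp (-y) ≤ 1 / (1 + y) := by
        rw [Real.exp_neg, one_div]
        exact inv_anti₀ (by linarith) (by linarith [Real.add_one_le_exp y])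
      have h19 : 1 / (1 + y) ≤ 1 - y / 2 := by
        rw [div_le_iff₀ (by linarith)]
        nlinarith
      have h20 : Real.exp (-(2 * l)) = y / 2 := by rw [hy]; ring
      rw [h20]
      linarith

end Pool.Agent.H24W
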