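import Pool.Agent.Lib.H24W.BAS
import Pool.Agent.Lib.HUK.P1

/-!
# H24W, GGT: the `U^2` norm and exponential sums
-/

open Finset

namespace Pool.Agent.H24W

open Pool.Agent.H16U
open Pool.Agent.HUK (GG Bdd)
open Pool.Agent.H44W (ee)
open Pool.Agent.Lib.H68T (lp PC p0 Reg Good Exc sw)
open Pool.Agent.Lib.Sieve (poly cT cE cA)

theorem ggt_parseval (M : ℕ) (hM : 0 < M) (S : Finset ℤ) (hS : ∀ h ∈ S, ∀ h' ∈ S, (M : ℤ) ∣ h - h' → h = h') (a : ℤ → ℂ) :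
    ∑ j ∈ range M, ‖∑ h ∈ S, a h * ee ((j : ℝ) * h / M)‖ ^ 2 = M * ∑ h ∈ S, ‖a h‖ ^ 2 := by
  have h1 : ∀ z : ℂ, ((‖z‖ ^ 2 : ℝ) : ℂ) = z * (starRingEnd ℂ) z := by
    intro z
    rw [Complex.mul_conj, Complex.normSq_eq_norm_sq]
  have h2 : ((∑ j ∈ range M, ‖∑ h ∈ S, a h * ee ((j : ℝ) * h / M)‖ ^ 2 : ℝ) : ℂ) =
      ((M * ∑ h ∈ S, ‖a h‖ ^ 2 : ℝ) : ℂ) := by
    have h3 : ∀ j ∈ range M, ((‖∑ h ∈ S, a h * ee ((j : ℝ) * h / M)‖ ^ 2 : ℝ) : ℂ) =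
        ∑ h ∈ S, ∑ h' ∈ S, a h * (starRingEnd ℂ) (a h') * ee ((j : ℝ) * ((h - h' : ℤ) : ℝ) / M) := by
      intro j _
      rw [h1, map_sum, Finset.sum_mul_sum]
      refine Finset.sum_congr rfl fun h _ => Finset.sum_congr rfl fun h' _ => ?_
      rw [map_mul, ← Pool.Agent.H44W.ee_neg]
      have h4 : (j : ℝ) * ((h - h' : ℤ) : ℝ) / M = (j : ℝ) * h / M + -((j : ℝ) * h' / M) := by
        push_cast
        ring
      rw [h4, Pool.Agent.H44W.ee_add]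
      ring
    rw [Complex.ofReal_sum, Finset.sum_congr rfl h3, Finset.sum_comm]
    have h5 : ∀ h ∈ S, ∑ j ∈ range M, ∑ h' ∈ S, a h * (starRingEnd ℂ) (a h') *
        ee ((j : ℝ) * ((h - h' : ℤ) : ℝ) / M) = ((M * ‖a h‖ ^ 2 : ℝ) : ℂ) := by
      intro h hh
      rw [Finset.sum_comm]
      have h6 : ∀ h' ∈ S, ∑ j ∈ range M, a h * (starRingEnd ℂ) (a h') *
          ee ((j : ℝ) * ((h - h' : ℤ) : ℝ) / M) = if h' = h then ((M * ‖a h‖ ^ 2 : ℝ) : ℂ) else 0 := by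
        intro h' hh'
        rw [← Finset.mul_sum, Pool.Agent.H44W.ee_orth M hM (h - h')]
        by_cases he : h' = h
        · rw [if_pos he, if_pos (by rw [he]; simp), he]
          push_cast
          have h7 := h1 (a h)
          push_cast at h7
          rw [h7]
          ring
        · rw [if_neg he, if_neg, mul_zero]
          intro hd
          exact he (hS h hh h' hh' hd).symm
      rw [Finset.sum_congr rfl h6, Finset.sum_ite_eq' S h, if_pos hh]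
    rw [Finset.sum_congr rfl h5, ← Complex.ofReal_sum, ← Finset.mul_sum]
  exact_mod_cast h2

theorem ggt_auto (X : ℕ) (F : ℤ → ℂ) (hF : ∀ y, y ∉ Ico (-(X : ℤ)) X → F y = 0) (t : ℝ) :
    ((‖∑ y ∈ Ico (-(X : ℤ)) X, F y * ee (-t * y)‖ ^ 2 : ℝ) : ℂ) =
      ∑ k ∈ Ioo (-(2 * X : ℤ)) (2 * X), (∑ y ∈ Ico (-(X : ℤ)) X, Pool.Agent.HUK.DD k F y) * ee (t * k) := by
  have h1 : ((‖∑ y ∈ Ico (-(X : ℤ)) X, F y * ee (-t * y)‖ ^ 2 : ℝ) : ℂ) =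
      (∑ y ∈ Ico (-(X : ℤ)) X, F y * ee (-t * y)) *
        (starRingEnd ℂ) (∑ y ∈ Ico (-(X : ℤ)) X, F y * ee (-t * y)) := by
    rw [Complex.mul_conj, Complex.normSq_eq_norm_sq]
  rw [h1, Finset.sum_mul]
  simp_rw [Finset.sum_mul (s := Ico (-(X : ℤ)) X)]
  rw [Finset.sum_comm]
  refine Finset.sum_congr rfl fun y hy => ?_
  have h2 := Pool.Agent.HUK.p1_inner X (fun z => F z * ee (-t * z)) (fun z hz => by
    show F z * ee (-t * z) = 0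
    rw [hF z hz, zero_mul]) y hy
  rw [← h2, Finset.mul_sum]
  refine Finset.sum_congr rfl fun k _ => ?_
  unfold Pool.Agent.HUK.DD
  rw [map_mul, ← Pool.Agent.H44W.ee_neg]
  have h3 : t * (k : ℝ) = -t * y + -(-t * ((y + k : ℤ) : ℝ)) := by
    push_cast
    ring
  rw [h3, Pool.Agent.H44W.ee_add]
  ring

/-- `GG X 2 F = ∑_{|h| < 2X} GG X 1 (DD h F) = ∑_{|h| < 2X} ‖A h‖²`, `A h = ∑_y F(y) conj F(y + h)` (`GG_succ`, `GG_one` in HUK/P1; `DD h F` is supported in `[-X, X)`).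
With `M = 8 X` and `F^(j) = ∑_y F(y) ee(j y/M)`: `‖F^(j)‖² = ∑_{|h| < 2X} A(h) ee(-(j h)/M)`, so by orthogonality (`ee_orth`, `|h - h'| < 4X < M`)
`∑_{j < M} ‖F^(j)‖⁴ = M ∑_h ‖A h‖²` and `∑_{j < M} ‖F^(j)‖² = M A(0) = M ∑ ‖F y‖²`; `‖F^(j)‖⁴ ≤ T² ‖F^(j)‖²`. -/
theorem gg_two (X : ℕ) (F : ℤ → ℂ) (hF : ∀ y, y ∉ Ico (-(X : ℤ)) X → F y = 0) (T : ℝ)
    (hT : ∀ θ : ℝ, ‖∑ y ∈ Ico (-(X : ℤ)) X, F y * ee (θ * y)‖ ≤ T) :
    GG X 2 F ≤ T ^ 2 * ∑ y ∈ Ico (-(X : ℤ)) X, ‖F y‖ ^ 2 := by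
  have hM : 0 < 8 * X + 1 := by omega
  have hA : ∀ k, ∀ y, y ∉ Ico (-(X : ℤ)) X → Pool.Agent.HUK.DD k F y = 0 := fun k => Pool.Agent.HUK.p1_DD_supp hF k
  have h1 : GG X 2 F = ∑ k ∈ Ioo (-(2 * X : ℤ)) (2 * X), ‖∑ y ∈ Ico (-(X : ℤ)) X, Pool.Agent.HUK.DD k F y‖ ^ 2 := by
    rw [show (2 : ℕ) = 1 + 1 from rfl, Pool.Agent.HUK.GG_succ]
    refine Finset.sum_congr rfl fun k _ => ?_
    exact Pool.Agent.HUK.GG_one X _ (hA k)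
  have h2 := ggt_parseval (8 * X + 1) hM (Ioo (-(2 * X : ℤ)) (2 * X)) (by
    intro h hh h' hh' hd
    rw [mem_Ioo] at hh hh'
    by_contra hne
    have h3 : h - h' ≠ 0 := sub_ne_zero.mpr hne
    have h4 := Int.le_of_dvd (abs_pos.mpr h3) ((dvd_abs _ _).mpr hd)
    have h5 : |h - h'| ≤ 4 * X := abs_le.mpr ⟨by omega, by omega⟩
    push_cast at h4
    omega) (fun k => ∑ y ∈ Ico (-(X : ℤ)) X, Pool.Agent.HUK.DD k F y)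
  have h3 := ggt_parseval (8 * X + 1) hM (Ico (-(X : ℤ)) X) (by
    intro h hh h' hh' hd
    rw [mem_Ico] at hh hh'
    by_contra hne
    have h3 : h - h' ≠ 0 := sub_ne_zero.mpr hne
    have h4 := Int.le_of_dvd (abs_pos.mpr h3) ((dvd_abs _ _).mpr hd)
    have h5 : |h - h'| ≤ 4 * X := abs_le.mpr ⟨by omega, by omega⟩
    push_cast at h4
    omega) (fun y => (starRingEnd ℂ) (F y))
  -- the transform
  set G : ℕ → ℂ := fun j => ∑ y ∈ Ico (-(X : ℤ)) X, F y * ee (-((j : ℝ) / ((8 * X + 1 : ℕ) : ℝ)) * y) with hG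
  have h4 : ∀ j : ℕ, ‖∑ k ∈ Ioo (-(2 * X : ℤ)) (2 * X), (∑ y ∈ Ico (-(X : ℤ)) X, Pool.Agent.HUK.DD k F y) *
      ee ((j : ℝ) * k / ((8 * X + 1 : ℕ) : ℝ))‖ ^ 2 = ‖G j‖ ^ 2 * ‖G j‖ ^ 2 := by
    intro j
    have h5 := ggt_auto X F hF ((j : ℝ) / ((8 * X + 1 : ℕ) : ℝ))
    have h6 : ∑ k ∈ Ioo (-(2 * X : ℤ)) (2 * X), (∑ y ∈ Ico (-(X : ℤ)) X, Pool.Agent.HUK.DD k F y) *
      ee ((j : ℝ) * k / ((8 * X + 1 : ℕ) : ℝ)) = ((‖G j‖ ^ 2 : ℝ) : ℂ) := by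
      rw [hG]
      simp only
      rw [h5]
      refine Finset.sum_congr rfl fun k _ => ?_
      congr 2
      ring
    rw [h6, Complex.norm_real, Real.norm_of_nonneg (by positivity)]
    ring
  have h5 : ∀ j : ℕ, ‖∑ y ∈ Ico (-(X : ℤ)) X, (starRingEnd ℂ) (F y) * ee ((j : ℝ) * y / ((8 * X + 1 : ℕ) : ℝ))‖ ^ 2 =
      ‖G j‖ ^ 2 := by
    intro j
    have h6 : ∑ y ∈ Ico (-(X : ℤ)) X, (starRingEnd ℂ) (F y) * ee ((j : ℝ) * y / ((8 * X + 1 : ℕ) : ℝ)) =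
        (starRingEnd ℂ) (G j) := by
      rw [hG]
      simp only
      rw [map_sum]
      refine Finset.sum_congr rfl fun y _ => ?_
      rw [map_mul, ← Pool.Agent.H44W.ee_neg]
      congr 2
      ring
    rw [h6, RCLike.norm_conj]
  have h6 : ∀ j : ℕ, ‖G j‖ ≤ T := fun j => hT _
  simp only [h4] at h2
  simp only [h5] at h3
  have h7 : ∑ y ∈ Ico (-(X : ℤ)) X, ‖(starRingEnd ℂ) (F y)‖ ^ 2 = ∑ y ∈ Ico (-(X : ℤ)) X, ‖F y‖ ^ 2 := by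
    refine Finset.sum_congr rfl fun y _ => ?_
    rw [RCLike.norm_conj]
  rw [h7] at h3
  have h8 : ∑ j ∈ range (8 * X + 1), ‖G j‖ ^ 2 * ‖G j‖ ^ 2 ≤ ∑ j ∈ range (8 * X + 1), T ^ 2 * ‖G j‖ ^ 2 := by
    refine Finset.sum_le_sum fun j _ => ?_
    have h9 : ‖G j‖ ^ 2 ≤ T ^ 2 := pow_le_pow_left₀ (norm_nonneg _) (h6 j) 2
    exact mul_le_mul_of_nonneg_right h9 (by positivity)
  rw [h2, ← Finset.mul_sum, h3] at h8
  rw [h1]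
  have hM' : (0 : ℝ) < ((8 * X + 1 : ℕ) : ℝ) := by exact_mod_cast hM
  have h9 : ((8 * X + 1 : ℕ) : ℝ) * ∑ k ∈ Ioo (-(2 * X : ℤ)) (2 * X), ‖∑ y ∈ Ico (-(X : ℤ)) X, Pool.Agent.HUK.DD k F y‖ ^ 2 ≤
      ((8 * X + 1 : ℕ) : ℝ) * (T ^ 2 * ∑ y ∈ Ico (-(X : ℤ)) X, ‖F y‖ ^ 2) := by
    calc _ ≤ _ := h8
      _ = _ := by ring
  exact le_of_mul_le_mul_left h9 hM'

end Pool.Agent.H24W
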