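import Pool.Agent.Lib.H24W.BAS

/-!
# H24W, ZCV: sums over integers and natural numbers
-/

open Finset

namespace Pool.Agent.H24W

open Pool.Agent.H16U
open Pool.Agent.HUK (GG Bdd)
open Pool.Agent.H44W (ee)
open Pool.Agent.Lib.H68T (lp PC p0 Reg Good Exc sw)
open Pool.Agent.Lib.Sieve (poly cT cE cA)

/-- `Ico u v` in `ℤ` is the image of `Ico u.toNat v.toNat`; the term `n = 0` vanishes. -/
theorem sum_int (F : ℤ → ℂ) (h0 : F 0 = 0) (u v : ℤ) (hu : 0 ≤ u) :
    ∑ n ∈ Ico u v, F n = ∑ n ∈ Ico (max 1 u.toNat) v.toNat, F (n : ℤ) := by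
  rcases lt_or_ge v 0 with hv | hv
  · have h1 : Ico u v = ∅ := Finset.Ico_eq_empty (by omega)
    have h2 : Ico (max 1 u.toNat) v.toNat = ∅ := Finset.Ico_eq_empty (by omega)
    rw [h1, h2]
    simp
  have key : ∑ n ∈ Ico u v, F n = ∑ n ∈ Ico u.toNat v.toNat, F (n : ℤ) := by
    refine Finset.sum_nbij' (fun n => n.toNat) (fun n => (n : ℤ)) ?_ ?_ ?_ ?_ ?_
    · intro n hn
      rw [Finset.mem_Ico] at hn ⊢
      omega
    · intro n hn
      rw [Finset.mem_Ico] at hn ⊢
      omega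
    · intro n hn
      rw [Finset.mem_Ico] at hn
      show ((n.toNat : ℕ) : ℤ) = n
      omega
    · intro n _
      show ((n : ℤ)).toNat = n
      omega
    · intro n hn
      rw [Finset.mem_Ico] at hn
      have e : ((n.toNat : ℕ) : ℤ) = n := by omega
      show F n = F ((n.toNat : ℕ) : ℤ)
      rw [e]
  rw [key]
  symm
  refine Finset.sum_subset ?_ ?_
  · intro n hn
    rw [Finset.mem_Ico] at hn ⊢
    omega
  · intro n hn hn2
    rw [Finset.mem_Ico] at hn hn2
    have e : n = 0 := by omega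
    rw [e, Nat.cast_zero, h0]

theorem EE_zero (X : ℕ) (e : EData) : EE X e 0 = 0 := by
  unfold EE
  have h1 : Pool.Agent.Lib.H68T.lp 0 = 0 := by
    unfold Pool.Agent.Lib.H68T.lp
    rw [if_neg]
    intro h
    have h2 : (0 : ℤ).toNat = 0 := rfl
    rw [h2] at h
    exact Nat.not_prime_zero h
  have h2 : mdl X e 0 = 0 := by
    unfold mdl
    rw [if_neg]
    rintro ⟨h, _⟩
    omega
  rw [h1, h2]
  simp

/-- `|lp n| ≤ log X`, `|mdl X e n| ≤ 2 cS X`. -/
theorem EE_norm (X : ℕ) (c : ℝ) (e : EX) (he : e.Ok c) (hc : 1 ≤ cS X) (n : ℤ) (hn : n ≤ X) (hX : 1 ≤ X) :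
    ‖EE X e.toE n‖ ≤ Real.log X + 2 * cS X := by
  have hX' : (1 : ℝ) ≤ X := by exact_mod_cast hX
  have hlogX : 0 ≤ Real.log X := Real.log_nonneg hX'
  have h1 : |Pool.Agent.Lib.H68T.lp n| ≤ Real.log X := by
    unfold Pool.Agent.Lib.H68T.lp
    split_ifs with hp
    · have h2 : 1 ≤ n := by
        have := hp.one_lt
        omega
      have h3 : (1 : ℝ) ≤ (n : ℝ) := by exact_mod_cast h2
      have h4 : (n : ℝ) ≤ (X : ℝ) := by exact_mod_cast hn
      rw [abs_of_nonneg (Real.log_nonneg h3)]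
      exact Real.log_le_log (by linarith) h4
    · rw [abs_zero]
      exact hlogX
  have h2 : |mdl X e.toE n| ≤ 2 * cS X := by
    unfold mdl
    split_ifs with h
    · have h3 : (1 : ℝ) ≤ (n : ℝ) := by exact_mod_cast h.1
      have h4 : |e.toE.χ n| ≤ 1 := by
        show |e.x * (e.ψ (n : ZMod e.q)).re| ≤ 1
        rw [abs_mul]
        have h5 : |e.x| ≤ 1 := by
          rcases he.x01 with h6 | h6 <;> rw [h6] <;> norm_num
        have h6 := re_abs_le e.ψ (n : ZMod e.q)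
        calc |e.x| * |(e.ψ (n : ZMod e.q)).re| ≤ 1 * 1 :=
              mul_le_mul h5 h6 (abs_nonneg _) (by norm_num)
          _ = 1 := by norm_num
      have h7 : |(n : ℝ) ^ (e.toE.β - 1)| ≤ 1 := by
        rw [abs_of_nonneg (Real.rpow_nonneg (by linarith) _)]
        refine Real.rpow_le_one_of_one_le_of_nonpos h3 ?_
        show e.β - 1 ≤ 0
        linarith [he.lt]
      rw [abs_mul, abs_of_nonneg (by linarith : (0 : ℝ) ≤ cS X)]
      have h8 : |1 - e.toE.χ n * (n : ℝ) ^ (e.toE.β - 1)| ≤ 2 := by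
        have h9 : |e.toE.χ n * (n : ℝ) ^ (e.toE.β - 1)| ≤ 1 := by
          rw [abs_mul]
          calc |e.toE.χ n| * |(n : ℝ) ^ (e.toE.β - 1)| ≤ 1 * 1 :=
                mul_le_mul h4 h7 (abs_nonneg _) (by norm_num)
            _ = 1 := by norm_num
        rw [abs_le] at h9 ⊢
        constructor <;> linarith [h9.1, h9.2]
      calc cS X * |1 - e.toE.χ n * (n : ℝ) ^ (e.toE.β - 1)| ≤ cS X * 2 :=
            mul_le_mul_of_nonneg_left h8 (by linarith)
        _ = 2 * cS X := by ring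
    · rw [abs_zero]
      linarith
  unfold EE
  rw [Complex.norm_real, Real.norm_eq_abs]
  have h3 := abs_sub (Pool.Agent.Lib.H68T.lp n) (mdl X e.toE n)
  linarith

end Pool.Agent.H24W
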