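import Pool.Agent.Lib.H24W.SUP
import Pool.Agent.Lib.H24W.GGT
import Pool.Agent.Lib.H24W.EOKC
import Pool.Agent.Lib.H24W.ZCV

/-!
# H24W, FIN: module P2
-/

open Finset

namespace Pool.Agent.H24W

open Pool.Agent.H16U
open Pool.Agent.HUK (GG Bdd)
open Pool.Agent.H44W (ee)
open Pool.Agent.Lib.H68T (lp PC p0 Reg Good Exc sw)
open Pool.Agent.Lib.Sieve (poly cT cE cA)

/-- `sup_main`, `e_ok`; `Alt` gives the alternative (`e.x = 0`: `e.q = 1`, `χ = 0`). For a window `0 ≤ u`, `v ≤ X`: `F = cut u v (EE X e.toE)`: `∑_{y ∈ Ico (-X) X} F y ee(θ y) =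
∑_{n ∈ Ico u v} EE n ee(θ n)`, by `sum_int` a sum as in `sup_main` (`v.toNat ≤ X`), `T = X exp (-s)`; `gg_two`; `∑ ‖F y‖² ≤ X (3 L)²` (`EE_norm`, `cS_le`), and `9 L² exp (-(2 s)) ≤ exp (-s)`. -/
theorem p2u : P2u := by
  obtain ⟨c0, hc0, X1, h1⟩ := sup_main
  obtain ⟨X2, h2⟩ := e_ok c0 hc0
  obtain ⟨X3, h3⟩ := cS_le
  obtain ⟨X4, h4⟩ := big_absorb (b := 19 / 100) (by norm_num) 9 2
  obtain ⟨X5, h5⟩ := big_L 1
  refine ⟨X1 + X2 + X3 + X4 + X5 + 1, fun X hX => ?_⟩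
  obtain ⟨e, s, he, ha, hsup⟩ := h1 X (by omega)
  have hE := h2 X (by omega) e s he ha
  obtain ⟨hc1, hc2⟩ := h3 X (by omega)
  have hab := h4 X (by omega)
  have hL1 := h5 X (by omega)
  have hX1 : 1 ≤ X := by omega
  have hXr : (1 : ℝ) ≤ X := by exact_mod_cast hX1
  refine ⟨e.toE, s, hE, ?_, ?_⟩
  · intro u v hu hv
    have hF : ∀ y, y ∉ Ico (-(X : ℤ)) X → cut u v (EE X e.toE) y = 0 := by
      intro y hy
      unfold cut
      rw [if_neg]
      rintro ⟨g1, g2⟩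
      rw [mem_Ico] at hy
      omega
    have hsub : Ico u v ⊆ Ico (-(X : ℤ)) X := by
      intro y hy
      rw [mem_Ico] at hy ⊢
      omega
    have hsum : ∀ {A : Type} [AddCommMonoid A] (G : ℤ → A), (∀ y, cut u v (EE X e.toE) y = 0 → G y = 0) →
        ∑ y ∈ Ico (-(X : ℤ)) X, G y = ∑ y ∈ Ico u v, G y := by
      intro A _ G hG
      symm
      refine Finset.sum_subset hsub fun y _ hy => hG y ?_
      unfold cut
      rw [if_neg]
      rw [mem_Ico] at hy
      exact hy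
    have hcut : ∀ y ∈ Ico u v, cut u v (EE X e.toE) y = EE X e.toE y := by
      intro y hy
      rw [mem_Ico] at hy
      unfold cut
      rw [if_pos hy]
    have hT : ∀ θ : ℝ, ‖∑ y ∈ Ico (-(X : ℤ)) X, cut u v (EE X e.toE) y * ee (θ * y)‖ ≤ X * Real.exp (-s) := by
      intro θ
      rw [hsum (fun y => cut u v (EE X e.toE) y * ee (θ * y)) (fun y hy => by rw [hy, zero_mul])]
      rw [Finset.sum_congr rfl fun y hy => by rw [hcut y hy]]
      have e1 := sum_int (fun y => EE X e.toE y * ee (θ * (y : ℝ))) (by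
        show EE X e.toE 0 * ee (θ * ((0 : ℤ) : ℝ)) = 0
        rw [EE_zero, zero_mul]) u v hu
      rw [e1]
      have e2 := hsup θ (max 1 u.toNat) v.toNat (le_max_left _ _) (by omega)
      refine le_trans (le_of_eq ?_) e2
      congr 1
    have hg := gg_two X (cut u v (EE X e.toE)) hF (X * Real.exp (-s)) hT
    refine hg.trans ?_
    have hl2 : ∑ y ∈ Ico (-(X : ℤ)) X, ‖cut u v (EE X e.toE) y‖ ^ 2 ≤ X * (9 * (Real.log X) ^ 2) := by
      rw [hsum (fun y => ‖cut u v (EE X e.toE) y‖ ^ 2) (fun y hy => by rw [hy, norm_zero]; norm_num)]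
      have e1 : ∀ y ∈ Ico u v, ‖cut u v (EE X e.toE) y‖ ^ 2 ≤ 9 * (Real.log X) ^ 2 := by
        intro y hy
        rw [hcut y hy]
        rw [mem_Ico] at hy
        have e2 := EE_norm X c0 e he hc1 y (by omega) hX1
        have e3 : ‖EE X e.toE y‖ ≤ 3 * Real.log X := by linarith
        calc ‖EE X e.toE y‖ ^ 2 ≤ (3 * Real.log X) ^ 2 := pow_le_pow_left₀ (norm_nonneg _) e3 2
          _ = 9 * (Real.log X) ^ 2 := by ring
      refine (Finset.sum_le_card_nsmul _ _ _ e1).trans ?_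
      rw [nsmul_eq_mul, Int.card_Ico]
      refine mul_le_mul_of_nonneg_right ?_ (by positivity)
      have e4 : (v - u).toNat ≤ X := by omega
      exact_mod_cast e4
    have hs := (ha.bounds hL1).1
    have e9 : 9 * (Real.log X) ^ 2 ≤ Real.exp s := by
      refine le_trans ?_ (hab.trans (Real.exp_le_exp.2 hs))
      rw [← Real.rpow_natCast]
      norm_num
    calc (X * Real.exp (-s)) ^ 2 * ∑ y ∈ Ico (-(X : ℤ)) X, ‖cut u v (EE X e.toE) y‖ ^ 2 ≤
          (X * Real.exp (-s)) ^ 2 * (X * (9 * (Real.log X) ^ 2)) := mul_le_mul_of_nonneg_left hl2 (by positivity)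
      _ ≤ (X * Real.exp (-s)) ^ 2 * (X * Real.exp s) := by
          refine mul_le_mul_of_nonneg_left ?_ (by positivity)
          exact mul_le_mul_of_nonneg_left e9 (by positivity)
      _ = (X : ℝ) ^ (2 + 1) * (Real.exp (-s) * (Real.exp (-s) * Real.exp s)) := by ring
      _ = (X : ℝ) ^ (2 + 1) * Real.exp (-s) := by
          rw [← Real.exp_add (-s) s, neg_add_cancel, Real.exp_zero, mul_one]
  · rcases ha with ⟨g1, g2⟩ | ⟨g1, _⟩
    · left
      refine ⟨he.one g1, fun n => ?_, g2⟩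
      show e.x * (e.ψ (n : ZMod e.q)).re = 0
      rw [g1, zero_mul]
    · right
      exact g1

end Pool.Agent.H24W
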