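import Pool.Agent.Lib.H24W.BAS

/-!
# H24W, ABL: partial summation
-/

open Finset

namespace Pool.Agent.H24W

open Pool.Agent.H16U
open Pool.Agent.HUK (GG Bdd)
open Pool.Agent.H44W (ee)
open Pool.Agent.Lib.H68T (lp PC p0 Reg Good Exc sw)
open Pool.Agent.Lib.Sieve (poly cT cE cA)

/-- Summation by parts. -/
private theorem ABL_ident (a g : ℕ → ℂ) (u m : ℕ) :
    ∑ n ∈ Ico u (u + m + 1), g n * a n
      = g (u + m) * (∑ n ∈ Ico u (u + m + 1), a n)
        + ∑ n ∈ Ico u (u + m), (g n - g (n + 1)) * (∑ k ∈ Ico u (n + 1), a k) := by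
  induction m with
  | zero => simp
  | succ m ih =>
    have e : u + (m + 1) = u + m + 1 := by ring
    rw [e, Finset.sum_Ico_succ_top (by omega : u ≤ u + m + 1) (fun n => g n * a n),
      Finset.sum_Ico_succ_top (by omega : u ≤ u + m + 1) a,
      Finset.sum_Ico_succ_top (by omega : u ≤ u + m)
        (fun n => (g n - g (n + 1)) * (∑ k ∈ Ico u (n + 1), a k)), ih]
    ring

private theorem ABL_tele (g : ℕ → ℝ) (u m : ℕ) :
    ∑ n ∈ Ico u (u + m), (g n - g (n + 1)) = g u - g (u + m) := by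
  induction m with
  | zero => simp
  | succ m ih =>
    have e : u + (m + 1) = u + m + 1 := by ring
    rw [e, Finset.sum_Ico_succ_top (by omega : u ≤ u + m) (fun n => g n - g (n + 1)), ih]
    ring

/-- Monotone weights. Abel summation (`Finset.sum_range_by_parts` or induction on `v`): with `A t = ∑_{Ico u t} a`,
`∑_{n ∈ Ico u v} g n a n = g (v-1) A v + ∑_{n ∈ Ico u (v-1)} (g n - g (n+1)) A (n+1)`. -/
theorem abel_mono (a : ℕ → ℂ) (g : ℕ → ℝ) (u v : ℕ) (T : ℝ) (hT0 : 0 ≤ T)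
    (hT : ∀ t, u ≤ t → t ≤ v → ‖∑ n ∈ Ico u t, a n‖ ≤ T)
    (hg0 : ∀ n, u ≤ n → n < v → 0 ≤ g n) (hg1 : ∀ n, u ≤ n → n < v → g n ≤ 1)
    (hg : ∀ n, u ≤ n → n + 1 < v → g (n + 1) ≤ g n) :
    ‖∑ n ∈ Ico u v, ((g n : ℝ) : ℂ) * a n‖ ≤ T := by
  rcases Nat.lt_or_ge u v with huv | huv
  · obtain ⟨m, rfl⟩ : ∃ m, v = u + m + 1 := ⟨v - u - 1, by omega⟩
    rw [ABL_ident a (fun n => ((g n : ℝ) : ℂ)) u m]
    have h1 : ‖((g (u + m) : ℝ) : ℂ) * (∑ n ∈ Ico u (u + m + 1), a n)‖ ≤ g (u + m) * T := by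
      rw [norm_mul, Complex.norm_real, Real.norm_eq_abs,
        abs_of_nonneg (hg0 (u + m) (by omega) (by omega))]
      exact mul_le_mul_of_nonneg_left (hT _ (by omega) le_rfl) (hg0 (u + m) (by omega) (by omega))
    have h2 : ‖∑ n ∈ Ico u (u + m), (((g n : ℝ) : ℂ) - ((g (n + 1) : ℝ) : ℂ))
        * (∑ k ∈ Ico u (n + 1), a k)‖ ≤ ∑ n ∈ Ico u (u + m), (g n - g (n + 1)) * T := by
      refine (norm_sum_le _ _).trans (Finset.sum_le_sum fun n hn => ?_)
      rw [Finset.mem_Ico] at hn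
      have h3 : 0 ≤ g n - g (n + 1) := by
        have := hg n hn.1 (by omega)
        linarith
      rw [norm_mul, ← Complex.ofReal_sub, Complex.norm_real, Real.norm_eq_abs, abs_of_nonneg h3]
      exact mul_le_mul_of_nonneg_left (hT _ (by omega) (by omega)) h3
    have h4 : ∑ n ∈ Ico u (u + m), (g n - g (n + 1)) * T = (g u - g (u + m)) * T := by
      rw [← Finset.sum_mul, ABL_tele]
    have h5 : g u * T ≤ T := by
      have := mul_le_mul_of_nonneg_right (hg1 u le_rfl (by omega)) hT0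
      linarith
    calc _ ≤ _ := norm_add_le _ _
      _ ≤ g (u + m) * T + (g u - g (u + m)) * T := by
          rw [← h4]
          exact add_le_add h1 h2
      _ = g u * T := by ring
      _ ≤ T := h5
  · rw [Finset.Ico_eq_empty_of_le huv, Finset.sum_empty, norm_zero]
    exact hT0

/-- Weights of bounded variation. -/
theorem abel_bv (a g : ℕ → ℂ) (u v : ℕ) (T η : ℝ) (hT0 : 0 ≤ T) (hη : 0 ≤ η)
    (hT : ∀ t, u ≤ t → t ≤ v → ‖∑ n ∈ Ico u t, a n‖ ≤ T)
    (hg : ∀ n, ‖g n‖ ≤ 1) (hv : ∀ n, ‖g (n + 1) - g n‖ ≤ η) :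
    ‖∑ n ∈ Ico u v, g n * a n‖ ≤ T * (1 + (v - u : ℕ) * η) := by
  rcases Nat.lt_or_ge u v with huv | huv
  · obtain ⟨m, rfl⟩ : ∃ m, v = u + m + 1 := ⟨v - u - 1, by omega⟩
    rw [ABL_ident a g u m]
    have h1 : ‖g (u + m) * (∑ n ∈ Ico u (u + m + 1), a n)‖ ≤ 1 * T := by
      rw [norm_mul]
      exact mul_le_mul (hg _) (hT _ (by omega) le_rfl) (norm_nonneg _) zero_le_one
    have h2 : ‖∑ n ∈ Ico u (u + m), (g n - g (n + 1)) * (∑ k ∈ Ico u (n + 1), a k)‖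
        ≤ ∑ n ∈ Ico u (u + m), η * T := by
      refine (norm_sum_le _ _).trans (Finset.sum_le_sum fun n hn => ?_)
      rw [Finset.mem_Ico] at hn
      rw [norm_mul, norm_sub_rev]
      exact mul_le_mul (hv n) (hT _ (by omega) (by omega)) (norm_nonneg _) hη
    have h3 : ∑ n ∈ Ico u (u + m), η * T = (m : ℝ) * (η * T) := by
      rw [Finset.sum_const, Nat.card_Ico, nsmul_eq_mul]
      congr 2
      omega
    have h4 : ((u + m + 1 - u : ℕ) : ℝ) = (m : ℝ) + 1 := by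
      have : u + m + 1 - u = m + 1 := by omega
      rw [this]
      push_cast
      ring
    rw [h4]
    have h5 : 0 ≤ η * T := mul_nonneg hη hT0
    calc _ ≤ _ := norm_add_le _ _
      _ ≤ 1 * T + (m : ℝ) * (η * T) := by
          rw [← h3]
          exact add_le_add h1 h2
      _ ≤ T * (1 + ((m : ℝ) + 1) * η) := by nlinarith
  · rw [Finset.Ico_eq_empty_of_le huv, Finset.sum_empty, norm_zero]
    positivity

/-- `n^(β-1)` is a monotone weight. -/
theorem pow_wt (β : ℝ) (hβ : β ≤ 1) (n : ℕ) (hn : 1 ≤ n) :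
    0 ≤ (n : ℝ) ^ (β - 1) ∧ (n : ℝ) ^ (β - 1) ≤ 1 ∧ ((n + 1 : ℕ) : ℝ) ^ (β - 1) ≤ (n : ℝ) ^ (β - 1) := by
  have hn1 : (1 : ℝ) ≤ n := by exact_mod_cast hn
  refine ⟨Real.rpow_nonneg (by linarith) _, Real.rpow_le_one_of_one_le_of_nonpos hn1 (by linarith), ?_⟩
  refine Real.rpow_le_rpow_of_nonpos (by linarith) ?_ (by linarith)
  push_cast
  linarith

end Pool.Agent.H24W
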