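import Pool.Agent.Lib.H24W.PSIA

/-!
# H24W, AMN: module A: the exceptional data and all sums over primitive characters
-/

open Finset

namespace Pool.Agent.H24W

open Pool.Agent.H16U
open Pool.Agent.HUK (GG Bdd)
open Pool.Agent.H44W (ee)
open Pool.Agent.Lib.H68T (lp PC p0 Reg Good Exc sw)
open Pool.Agent.Lib.Sieve (poly cT cE cA)

/-- The comparisons for `L = log X`. -/
private structure AmnL (K L : ℝ) : Prop where
  c1 : 64 ≤ L
  c2 : K ≤ Real.log (L / 2)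
  c3 : K * Real.log L ≤ L ^ (2 / 5 : ℝ) - 1
  c4 : K * (L ^ (2 / 5 : ℝ) * Real.log L) ≤ L / 2
  c5 : K * (20 * L ^ (19 / 50 : ℝ) + 1) * L ^ (2 / 5 : ℝ) ≤ L / 2
  c6 : K * (20 * L ^ (19 / 50 : ℝ) + 1) ≤ L ^ (2 / 5 : ℝ) - 1
  c7 : 80 * L ^ (19 / 50 : ℝ) ≤ L
  c8 : K ≤ L ^ (2 / 5 : ℝ)
  c9 : 4 * L ^ (19 / 50 : ℝ) ≤ L ^ (2 / 5 : ℝ)
  c10 : 5 * L ^ (19 / 100 : ℝ) ≤ L ^ (1 / 5 : ℝ)

private theorem amn_ev (K : ℝ) (hK : 1 ≤ K) : ∀ᶠ L : ℝ in Filter.atTop, AmnL K L := by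
  have e2 : Filter.Tendsto (fun L : ℝ => Real.log (L / 2)) Filter.atTop Filter.atTop :=
    Real.tendsto_log_atTop.comp (Filter.tendsto_id.atTop_div_const (by norm_num : (0 : ℝ) < 2))
  filter_upwards [Filter.eventually_ge_atTop (64 : ℝ), e2.eventually (Filter.eventually_ge_atTop K),
    ev_log (show (0 : ℝ) < 2 / 5 by norm_num) K, ev_log (show (0 : ℝ) < 1 / 2 by norm_num) (2 * K),
    ev_pow (show (0 : ℝ) < 1 / 20 by norm_num) (42 * K), ev_pow (show (0 : ℝ) < 2 / 5 by norm_num) (21 * K + 1),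
    ev_pow (show (19 / 50 : ℝ) < 2 / 5 by norm_num) (21 * K + 1), ev_pow (show (19 / 50 : ℝ) < 1 by norm_num) 80,
    ev_pow (show (19 / 50 : ℝ) < 2 / 5 by norm_num) 4, ev_pow (show (19 / 100 : ℝ) < 1 / 5 by norm_num) 5]
    with L h1 h2 h3 h4 h5 h6 h7 h8 h9 h10
  have hL0 : 0 < L := by linarith
  have hL1 : 1 ≤ L := by linarith
  have hlog : 0 ≤ Real.log L := Real.log_nonneg hL1
  have hp : ∀ a : ℝ, 0 ≤ a → 1 ≤ L ^ a := fun a ha => Real.one_le_rpow hL1 ha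
  have h25 := hp (2 / 5) (by norm_num)
  have h1950 := hp (19 / 50) (by norm_num)
  rw [Real.rpow_zero, mul_one] at h5 h6
  rw [Real.rpow_one] at h8
  refine ⟨h1, h2, ?_, ?_, ?_, ?_, h8, ?_, h9, h10⟩
  · nlinarith
  · have e1 : L ^ (2 / 5 : ℝ) * L ^ (1 / 2 : ℝ) = L ^ (9 / 10 : ℝ) := by
      rw [← Real.rpow_add hL0]; norm_num
    have e3 : L ^ (9 / 10 : ℝ) ≤ L := by
      calc L ^ (9 / 10 : ℝ) ≤ L ^ (1 : ℝ) := Real.rpow_le_rpow_of_exponent_le hL1 (by norm_num)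
        _ = L := Real.rpow_one L
    have e4 : L ^ (2 / 5 : ℝ) * (2 * K * (1 + Real.log L)) ≤ L ^ (2 / 5 : ℝ) * L ^ (1 / 2 : ℝ) :=
      mul_le_mul_of_nonneg_left h4 (by linarith)
    have e5 : 0 ≤ K * L ^ (2 / 5 : ℝ) := by positivity
    nlinarith
  · have e1 : L ^ (1 / 20 : ℝ) * (L ^ (19 / 50 : ℝ) * L ^ (2 / 5 : ℝ)) = L ^ (83 / 100 : ℝ) := by
      rw [← Real.rpow_add hL0, ← Real.rpow_add hL0]; norm_num
    have e3 : L ^ (83 / 100 : ℝ) ≤ L := by
      calc L ^ (83 / 100 : ℝ) ≤ L ^ (1 : ℝ) := Real.rpow_le_rpow_of_exponent_le hL1 (by norm_num)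
        _ = L := Real.rpow_one L
    have e4 : 42 * K * (L ^ (19 / 50 : ℝ) * L ^ (2 / 5 : ℝ)) ≤
        L ^ (1 / 20 : ℝ) * (L ^ (19 / 50 : ℝ) * L ^ (2 / 5 : ℝ)) :=
      mul_le_mul_of_nonneg_right h5 (by positivity)
    have e5 : K * (20 * L ^ (19 / 50 : ℝ) + 1) * L ^ (2 / 5 : ℝ) ≤
        K * (21 * L ^ (19 / 50 : ℝ)) * L ^ (2 / 5 : ℝ) := by
      apply mul_le_mul_of_nonneg_right _ (by linarith)
      apply mul_le_mul_of_nonneg_left _ (by linarith)
      linarith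
    nlinarith
  · have e1 : K * (20 * L ^ (19 / 50 : ℝ) + 1) ≤ K * (21 * L ^ (19 / 50 : ℝ)) := by
      apply mul_le_mul_of_nonneg_left _ (by linarith)
      linarith
    nlinarith
  · nlinarith

/-- The trivial bound for the main term. -/
private theorem amn_mt (e : EX) (hb : e.β < 1) (p : Σ r : ℕ, DirichletCharacter ℂ r) {m : ℕ} (hm : 1 ≤ m) :
    |e.mt p m| ≤ 1 := by
  have h1 : (m : ℝ) ^ (e.β - 1) ≤ 1 :=
    Real.rpow_le_one_of_one_le_of_nonpos (by exact_mod_cast hm) (by linarith)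
  have h2 : 0 ≤ (m : ℝ) ^ (e.β - 1) := Real.rpow_nonneg (by positivity) _
  unfold EX.mt
  rw [abs_le]
  split_ifs <;> constructor <;> linarith

private theorem amn_triv (e : EX) (hb : e.β < 1) (p : Σ r : ℕ, DirichletCharacter ℂ r) (u : ℕ) {L : ℝ}
    (hL : ∀ m : ℕ, 1 ≤ m → m ≤ u → Real.log m ≤ L) :
    ‖∑ m ∈ Icc 1 u, ((ArithmeticFunction.vonMangoldt m : ℂ) * p.2 (m : ZMod p.1) - ((e.mt p m : ℝ) : ℂ))‖ ≤
      u * (L + 1) := by
  calc ‖∑ m ∈ Icc 1 u, ((ArithmeticFunction.vonMangoldt m : ℂ) * p.2 (m : ZMod p.1) - ((e.mt p m : ℝ) : ℂ))‖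
      ≤ ∑ m ∈ Icc 1 u, ‖((ArithmeticFunction.vonMangoldt m : ℂ) * p.2 (m : ZMod p.1) - ((e.mt p m : ℝ) : ℂ))‖ :=
        norm_sum_le _ _
    _ ≤ ∑ m ∈ Icc 1 u, (L + 1) := by
        refine Finset.sum_le_sum fun m hm => ?_
        rw [mem_Icc] at hm
        have h1 : ‖(ArithmeticFunction.vonMangoldt m : ℂ)‖ ≤ L := by
          rw [Complex.norm_real, Real.norm_of_nonneg ArithmeticFunction.vonMangoldt_nonneg]
          exact ArithmeticFunction.vonMangoldt_le_log.trans (hL m hm.1 hm.2)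
        have h2 : ‖p.2 (m : ZMod p.1)‖ ≤ 1 := DirichletCharacter.norm_le_one _ _
        have h3 : ‖((e.mt p m : ℝ) : ℂ)‖ ≤ 1 := by
          rw [Complex.norm_real]
          exact amn_mt e hb p hm.1
        calc ‖((ArithmeticFunction.vonMangoldt m : ℂ) * p.2 (m : ZMod p.1) - ((e.mt p m : ℝ) : ℂ))‖
            ≤ ‖(ArithmeticFunction.vonMangoldt m : ℂ) * p.2 (m : ZMod p.1)‖ + ‖((e.mt p m : ℝ) : ℂ)‖ :=
              norm_sub_le _ _
          _ ≤ L + 1 := by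
              rw [norm_mul]
              refine add_le_add ?_ h3
              calc ‖(ArithmeticFunction.vonMangoldt m : ℂ)‖ * ‖p.2 (m : ZMod p.1)‖ ≤
                  ‖(ArithmeticFunction.vonMangoldt m : ℂ)‖ * 1 :=
                    mul_le_mul_of_nonneg_left h2 (norm_nonneg _)
                _ ≤ L := by rw [mul_one]; exact h1
    _ = u * (L + 1) := by
        rw [Finset.sum_const, Nat.card_Icc, Nat.add_sub_cancel, nsmul_eq_mul]

private theorem amn_core : ∃ c0 K : ℝ, 0 < c0 ∧ 1 ≤ K ∧ ∀ X : ℕ, 1 ≤ X → AmnL K (Real.log X) → ∃ e : EX, e.Ok c0 ∧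
    PsiOk (wS X) X (X * Real.exp (-(20 * (Real.log X) ^ (19 / 50 : ℝ)))) e := by
  obtain ⟨c0, K, hc0, hK, h⟩ := psi_all
  refine ⟨c0, K, hc0, hK, fun X hX hA => ?_⟩
  set L := Real.log (X : ℝ) with hLdef
  have hL0 : 0 < L := by linarith [hA.c1]
  have hL1 : 1 ≤ L := by linarith [hA.c1]
  have hloglog : 0 ≤ Real.log L := Real.log_nonneg hL1
  have h25 : 1 ≤ L ^ (2 / 5 : ℝ) := Real.one_le_rpow hL1 (by norm_num)
  have hw1 : (wS X : ℝ) ≤ Real.exp (L ^ (2 / 5 : ℝ)) := wS_le X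
  have hw2 : Real.exp (L ^ (2 / 5 : ℝ)) < wS X + 1 := lt_wS X
  have hwK : L ^ (2 / 5 : ℝ) ≤ (wS X : ℝ) := by
    have := Real.add_one_le_exp (L ^ (2 / 5 : ℝ))
    linarith
  have hw0 : (1 : ℝ) ≤ (wS X : ℝ) := h25.trans hwK
  have hlogQ1 : Real.log (wS X) ≤ L ^ (2 / 5 : ℝ) := by
    rw [← Real.log_exp (L ^ (2 / 5 : ℝ))]
    exact Real.log_le_log (by linarith) hw1
  have hlogQ2 : L ^ (2 / 5 : ℝ) - 1 ≤ Real.log (wS X) := by
    rw [Real.le_log_iff_exp_le (by linarith), Real.exp_sub]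
    have h1 : 2 ≤ Real.exp 1 := by linarith [Real.add_one_le_exp (1 : ℝ)]
    rw [div_le_iff₀ (Real.exp_pos 1)]
    have h2 : Real.exp (L ^ (2 / 5 : ℝ)) ≤ wS X * 2 := by linarith
    exact h2.trans (mul_le_mul_of_nonneg_left h1 (by linarith))
  obtain ⟨e, hOk, -, hE⟩ := h (wS X) (hA.c8.trans hwK)
  refine ⟨e, hOk, fun p hp u hu => ?_⟩
  have hXe : (X : ℝ) = Real.exp L := X_exp hX
  have huX : (u : ℝ) ≤ X := by exact_mod_cast hu
  by_cases hbig : Real.exp (L / 2) ≤ (u : ℝ)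
  · have hu0 : (0 : ℝ) < u := (Real.exp_pos _).trans_le hbig
    have hlu1 : L / 2 ≤ Real.log u := by
      rw [Real.le_log_iff_exp_le hu0]
      exact hbig
    have hlu2 : Real.log u ≤ L := Real.log_le_log hu0 huX
    have hll1 : K ≤ Real.log (Real.log u) :=
      hA.c2.trans (Real.log_le_log (by linarith) hlu1)
    have hll2 : Real.log (Real.log u) ≤ Real.log L := Real.log_le_log (by linarith) hlu2
    have hK0 : 0 < K := by linarith
    have hlogQ0 : 0 ≤ Real.log (wS X) := Real.log_nonneg hw0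
    have hreg : Reg K (wS X) u := by
      refine ⟨hll1, ?_, ?_⟩
      · calc K * Real.log (Real.log u) ≤ K * Real.log L := mul_le_mul_of_nonneg_left hll2 hK0.le
          _ ≤ L ^ (2 / 5 : ℝ) - 1 := hA.c3
          _ ≤ Real.log (wS X) := hlogQ2
      · calc K * (Real.log (wS X) * Real.log (Real.log u)) ≤ K * (L ^ (2 / 5 : ℝ) * Real.log L) := by
              apply mul_le_mul_of_nonneg_left _ hK0.le
              exact mul_le_mul hlogQ1 hll2 (by linarith) (by linarith)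
          _ ≤ L / 2 := hA.c4
          _ ≤ Real.log u := hlu1
    have h1 := hE u hreg p hp
    refine h1.trans ?_
    have hlogQpos : 0 < Real.log (wS X) := by
      have h3 := hA.c6
      have h4 : 0 ≤ L ^ (19 / 50 : ℝ) := Real.rpow_nonneg hL0.le _
      have h5 : 0 < K * (20 * L ^ (19 / 50 : ℝ) + 1) := by positivity
      linarith
    have hsw : sw K (wS X) u ≤ Real.exp (-(20 * L ^ (19 / 50 : ℝ))) := by
      unfold Pool.Agent.Lib.H68T.sw
      have a1 : Real.exp (-(Real.log u / (K * Real.log (wS X)))) ≤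
          Real.exp (-(20 * L ^ (19 / 50 : ℝ)) - 1) := by
        apply Real.exp_le_exp.mpr
        have a2 : 20 * L ^ (19 / 50 : ℝ) + 1 ≤ Real.log u / (K * Real.log (wS X)) := by
          rw [le_div_iff₀ (mul_pos hK0 hlogQpos)]
          calc (20 * L ^ (19 / 50 : ℝ) + 1) * (K * Real.log (wS X)) ≤
              (20 * L ^ (19 / 50 : ℝ) + 1) * (K * L ^ (2 / 5 : ℝ)) := by
                apply mul_le_mul_of_nonneg_left _ (by positivity)
                exact mul_le_mul_of_nonneg_left hlogQ1 hK0.le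
            _ = K * (20 * L ^ (19 / 50 : ℝ) + 1) * L ^ (2 / 5 : ℝ) := by ring
            _ ≤ L / 2 := hA.c5
            _ ≤ Real.log u := hlu1
        linarith
      have a3 : (wS X : ℝ) ^ (-(1 / K)) ≤ Real.exp (-(20 * L ^ (19 / 50 : ℝ)) - 1) := by
        rw [Real.rpow_def_of_pos (by linarith)]
        apply Real.exp_le_exp.mpr
        have a4 : 20 * L ^ (19 / 50 : ℝ) + 1 ≤ Real.log (wS X) / K := by
          rw [le_div_iff₀ hK0]
          calc (20 * L ^ (19 / 50 : ℝ) + 1) * K = K * (20 * L ^ (19 / 50 : ℝ) + 1) := by ring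
            _ ≤ L ^ (2 / 5 : ℝ) - 1 := hA.c6
            _ ≤ Real.log (wS X) := hlogQ2
        have a5 : Real.log (wS X) * (-(1 / K)) = -(Real.log (wS X) / K) := by ring
        rw [a5]
        linarith
      have a6 : Real.exp (-(20 * L ^ (19 / 50 : ℝ)) - 1) ≤ Real.exp (-(20 * L ^ (19 / 50 : ℝ))) / 2 := by
        rw [Real.exp_sub]
        apply div_le_div_of_nonneg_left (Real.exp_pos _).le (by norm_num)
        linarith [Real.add_one_le_exp (1 : ℝ)]
      linarith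
    have hsw0 : 0 ≤ sw K (wS X) u := by
      unfold Pool.Agent.Lib.H68T.sw
      positivity
    exact mul_le_mul huX hsw hsw0 (by positivity)
  · have hu1 : (u : ℝ) ≤ Real.exp (L / 2) := (not_le.1 hbig).le
    have hlog : ∀ m : ℕ, 1 ≤ m → m ≤ u → Real.log m ≤ L := by
      intro m hm hmu
      apply Real.log_le_log (by exact_mod_cast hm)
      exact_mod_cast hmu.trans hu
    refine (amn_triv e hOk.lt p u hlog).trans ?_
    have b1 : L + 1 ≤ Real.exp (L / 4) := by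
      have b2 : Real.exp (L / 4) = Real.exp (L / 8) ^ 2 := by
        rw [← Real.exp_nat_mul]
        congr 1
        push_cast
        ring
      have b3 : L / 8 + 1 ≤ Real.exp (L / 8) := Real.add_one_le_exp _
      rw [b2]
      have b4 : (L / 8 + 1) ^ 2 ≤ Real.exp (L / 8) ^ 2 := pow_le_pow_left₀ (by linarith) b3 2
      have b5 := hA.c1
      nlinarith
    calc (u : ℝ) * (L + 1) ≤ Real.exp (L / 2) * Real.exp (L / 4) :=
          mul_le_mul hu1 b1 (by linarith) (Real.exp_pos _).le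
      _ = Real.exp (L - L / 4) := by
          rw [← Real.exp_add]
          congr 1
          ring
      _ ≤ Real.exp (L - 20 * L ^ (19 / 50 : ℝ)) := by
          apply Real.exp_le_exp.mpr
          linarith [hA.c7]
      _ = X * Real.exp (-(20 * L ^ (19 / 50 : ℝ))) := by
          rw [hXe, ← Real.exp_add]
          congr 1

private theorem amn_PC {Q Q' : ℕ} (h : Q ≤ Q') {p : Σ r : ℕ, DirichletCharacter ℂ r} (hp : p ∈ PC Q) :
    p ∈ PC Q' := by
  rw [Pool.Agent.Lib.H68T.mem_PC] at hp ⊢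
  exact ⟨hp.1, hp.2.1.trans h, hp.2.2⟩

private theorem amn_Ok {c c' : ℝ} (h : c' ≤ c) {e : EX} (he : e.Ok c) : e.Ok c' :=
  ⟨he.q_pos, he.x01, he.prim, he.ne, he.sq, he.half, he.lt,
    le_trans (div_le_div_of_nonneg_right h (by positivity)) he.low, he.one⟩

private theorem amn_none {c : ℝ} (h : c ≤ 1 / 2) : EX.none.Ok c := by
  refine ⟨le_rfl, Or.inl rfl, ?_, fun h => ?_, ?_, le_rfl, ?_, ?_, fun _ => rfl⟩
  · exact DirichletCharacter.isPrimitive_one_level_one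
  · exact absurd h (by unfold EX.none; norm_num)
  · unfold EX.none
    exact one_pow 2
  · unfold EX.none
    norm_num
  · unfold EX.none
    norm_num
    linarith

/-- `Q = wS X`, `e₁` from `psi_all`. (1) If `e₁.q ≤ exp (L^(1/5))` take `e = e₁`, `s = L^(19/50)` (second case of `Alt`). (2) Otherwise `e₁.x = 1`
(else `e₁.q = 1`); take `e = EX.none`, `s = L^(19/100)`; for `p ∈ PC ⌊exp (4 s)⌋₊` one has `p.1 ≤ exp (4 L^(19/100)) < exp (L^(1/5)) < e₁.q`, so
`p ≠ e₁.pr` and `e.mt p = e₁.mt p`. In both cases `⌊exp (4 s)⌋₊ ≤ wS X` and for `p` in `PC` of it and `u ≤ X`: if `(X : ℝ)^(1/2) ≤ u` then `Reg K Q u`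
(`log u ≥ L/2`, `log Q ≥ L^(2/5) - 1` and `≤ L^(2/5)`) and `u sw K Q u ≤ X (exp (-(L^(3/5)/(2K))) + exp (-(L^(2/5)/(2K)))) ≤ X exp (-(20 s))` as
`20 s ≤ 20 L^(19/50)`. If `u < X^(1/2)` trivially: the norm is at most `∑ (log m + 1 + 2) ≤ u (L + 3) ≤ X^(1/2) (L + 3)`
(`|mt| ≤ 2`; `m^(β-1) ≤ 1`). Use `big_pow`, `big_log`, `big_L` (BAS) for all comparisons; write `X = exp L` (`X_exp`). -/
theorem a_main : ∃ c0 : ℝ, 0 < c0 ∧ ∃ X0 : ℕ, ∀ X : ℕ, X0 ≤ X → ∃ (e : EX) (s : ℝ), e.Ok c0 ∧ Alt X e s ∧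
    PsiOk ⌊Real.exp (4 * s)⌋₊ X (X * Real.exp (-(20 * s))) e := by
  obtain ⟨c0, K, hc0, hK, h⟩ := amn_core
  obtain ⟨X0, hX0⟩ := ev_L (amn_ev K hK)
  refine ⟨min c0 (1 / 2), lt_min hc0 (by norm_num), max X0 1, fun X hX => ?_⟩
  have hX1 : 1 ≤ X := (le_max_right _ _).trans hX
  have hA := hX0 X ((le_max_left _ _).trans hX)
  obtain ⟨e, hOk, hPsi⟩ := h X hX1 hA
  have hL1 : 1 ≤ Real.log (X : ℝ) := by linarith [hA.c1]
  by_cases hq : (e.q : ℝ) ≤ Real.exp ((Real.log X) ^ (1 / 5 : ℝ))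
  · refine ⟨e, (Real.log X) ^ (19 / 50 : ℝ), amn_Ok (min_le_left _ _) hOk, Or.inr ⟨rfl, hq⟩, ?_⟩
    intro p hp u hu
    refine hPsi p (amn_PC ?_ hp) u hu
    unfold wS
    exact Nat.floor_le_floor (Real.exp_le_exp.mpr hA.c9)
  · have hx : e.x = 1 := by
      rcases hOk.x01 with h0 | h0
      · exfalso
        apply hq
        rw [hOk.one h0, Nat.cast_one]
        exact Real.one_le_exp (Real.rpow_nonneg (by linarith) _)
      · exact h0
    refine ⟨EX.none, (Real.log X) ^ (19 / 100 : ℝ), amn_none (min_le_right _ _), Or.inl ⟨rfl, rfl⟩, ?_⟩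
    have hmono : (Real.log X) ^ (19 / 100 : ℝ) ≤ (Real.log X) ^ (19 / 50 : ℝ) :=
      Real.rpow_le_rpow_of_exponent_le hL1 (by norm_num)
    intro p hp u hu
    have hp' : p ∈ PC (wS X) := by
      refine amn_PC ?_ hp
      unfold wS
      exact Nat.floor_le_floor (Real.exp_le_exp.mpr (by linarith [hA.c9]))
    have hpq : p ≠ e.pr := by
      intro hpe
      rw [Pool.Agent.Lib.H68T.mem_PC] at hp
      have h1 : (p.1 : ℝ) ≤ Real.exp (4 * (Real.log X) ^ (19 / 100 : ℝ)) :=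
        (Nat.le_floor_iff (Real.exp_pos _).le).1 hp.2.1
      have h2 : p.1 = e.q := by rw [hpe]; rfl
      apply hq
      rw [← h2]
      refine h1.trans (Real.exp_le_exp.mpr ?_)
      have h3 := hA.c10
      have h4 : 0 ≤ (Real.log (X : ℝ)) ^ (19 / 100 : ℝ) := Real.rpow_nonneg (by linarith) _
      linarith
    have hmt : ∀ m : ℕ, EX.none.mt p m = e.mt p m := by
      intro m
      unfold EX.mt
      rw [if_neg (fun h => absurd h.1 (by unfold EX.none; norm_num) : ¬ (EX.none.x = 1 ∧ p = EX.none.pr)),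
        if_neg (fun h => hpq h.2 : ¬ (e.x = 1 ∧ p = e.pr))]
    have h5 := hPsi p hp' u hu
    have h6 : (X : ℝ) * Real.exp (-(20 * (Real.log X) ^ (19 / 50 : ℝ))) ≤
        X * Real.exp (-(20 * (Real.log X) ^ (19 / 100 : ℝ))) := by
      apply mul_le_mul_of_nonneg_left _ (Nat.cast_nonneg _)
      apply Real.exp_le_exp.mpr
      linarith
    refine le_trans (le_of_eq ?_) (h5.trans h6)
    congr 1
    exact Finset.sum_congr rfl fun m _ => by rw [hmt m]

end Pool.Agent.H24W
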