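import Pool.Agent.Lib.H24W.BAS
import Pool.Agent.Lib.H68T.KER

/-!
# H24W, APL: primes in progressions from primitive characters
-/

open Finset

namespace Pool.Agent.H24W

open Pool.Agent.H16U
open Pool.Agent.HUK (GG Bdd)
open Pool.Agent.H44W (ee)
open Pool.Agent.Lib.H68T (lp PC p0 Reg Good Exc sw)
open Pool.Agent.Lib.Sieve (poly cT cE cA)

private lemma APL_S_card (Q q : ℕ) (hq : 1 ≤ q) (hqQ : q ≤ Q) :
    (((PC Q).filter (fun p => p.1 ∣ q)).card : ℂ) = (q.totient : ℂ) := by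
  have h := Pool.Agent.Lib.H68T.KER_orth Q q 1 1 (by omega) hqQ (Nat.coprime_one_left q)
    isCoprime_one_right
  rw [if_pos (by simp)] at h
  rw [← h, card_eq_sum_ones, Nat.cast_sum]
  refine sum_congr rfl fun p _ => ?_
  rw [Nat.cast_one, Int.cast_one, Nat.cast_one, map_one, map_one, mul_one]

private lemma APL_main (c : ℝ) (e : EX) (he : e.Ok c) (Q : ℕ) (q : ℕ) (hq : 1 ≤ q)
    (hqQ : q ≤ Q) (b : ℤ) (m : ℕ) :
    ∑ p ∈ (PC Q).filter (fun p => p.1 ∣ q), (starRingEnd ℂ) (p.2 (b : ZMod p.1)) *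
      ((e.mt p m : ℝ) : ℂ) = (q.totient : ℂ) * ((e.mc q b m : ℝ) : ℂ) := by
  classical
  have hφ : (q.totient : ℝ) ≠ 0 := by
    have := Nat.totient_pos.mpr (show 0 < q by omega)
    exact_mod_cast this.ne'
  have hR : (q.totient : ℂ) * ((e.mc q b m : ℝ) : ℂ) =
      ((1 - (if e.q ∣ q then e.x * (e.ψ (b : ZMod e.q)).re * (m : ℝ) ^ (e.β - 1) else 0) : ℝ) : ℂ) := by
    have h1 : (q.totient : ℝ) * e.mc q b m =
        1 - (if e.q ∣ q then e.x * (e.ψ (b : ZMod e.q)).re * (m : ℝ) ^ (e.β - 1) else 0) := by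
      unfold EX.mc
      rw [mul_div_cancel₀ _ hφ]
    rw [← h1, Complex.ofReal_mul, Complex.ofReal_natCast]
  rw [hR]
  have h1 : ∑ p ∈ (PC Q).filter (fun p => p.1 ∣ q), (starRingEnd ℂ) (p.2 (b : ZMod p.1)) *
      (if p = p0 then (1 : ℂ) else 0) = 1 := by
    rw [sum_eq_single p0]
    · rw [if_pos rfl, mul_one]
      have h2 : p0.2 (b : ZMod p0.1) = 1 := by
        show (1 : DirichletCharacter ℂ 1) ((b : ℤ) : ZMod 1) = 1
        have h3 : ((b : ℤ) : ZMod 1) = 1 := Subsingleton.elim _ _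
        rw [h3, map_one]
      rw [h2, map_one]
    · intro p _ hp
      rw [if_neg hp, mul_zero]
    · intro h
      exact absurd (mem_filter.mpr ⟨Pool.Agent.Lib.H68T.p0_mem (hq.trans hqQ), one_dvd q⟩) h
  have h2 : ∑ p ∈ (PC Q).filter (fun p => p.1 ∣ q), (starRingEnd ℂ) (p.2 (b : ZMod p.1)) *
      (if e.x = 1 ∧ p = e.pr then (((m : ℝ) ^ (e.β - 1) : ℝ) : ℂ) else 0) =
      (((if e.q ∣ q then e.x * (e.ψ (b : ZMod e.q)).re * (m : ℝ) ^ (e.β - 1) else 0) : ℝ) : ℂ) := by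
    by_cases hx : e.x = 1
    · by_cases hqd : e.q ∣ q
      · rw [sum_eq_single e.pr]
        · rw [if_pos ⟨hx, rfl⟩, if_pos hqd, hx, one_mul]
          have h3 : (starRingEnd ℂ) (e.pr.2 (b : ZMod e.pr.1)) =
              (((e.ψ (b : ZMod e.q)).re : ℝ) : ℂ) := by
            show (starRingEnd ℂ) (e.ψ (b : ZMod e.q)) = _
            rw [psi_real e.ψ he.sq (b : ZMod e.q), Complex.conj_ofReal, Complex.ofReal_re]
          rw [h3, Complex.ofReal_mul]
        · intro p _ hp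
          rw [if_neg (fun h => hp h.2), mul_zero]
        · intro h
          refine absurd (mem_filter.mpr ⟨Pool.Agent.Lib.H68T.mem_PC.mpr ⟨he.q_pos, ?_, he.prim⟩, hqd⟩) h
          exact (Nat.le_of_dvd (by omega) hqd).trans hqQ
      · rw [if_neg hqd, Complex.ofReal_zero]
        refine sum_eq_zero fun p hp => ?_
        rw [if_neg, mul_zero]
        rintro ⟨-, rfl⟩
        exact hqd (mem_filter.mp hp).2
    · have hx0 : e.x = 0 := by
        rcases he.x01 with h | h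
        · exact h
        · exact absurd h hx
      have h3 : (((if e.q ∣ q then e.x * (e.ψ (b : ZMod e.q)).re * (m : ℝ) ^ (e.β - 1) else 0) : ℝ) : ℂ) = 0 := by
        rw [hx0]
        simp
      rw [h3]
      refine sum_eq_zero fun p _ => ?_
      rw [if_neg (fun h => hx h.1), mul_zero]
  rw [Complex.ofReal_sub, Complex.ofReal_one, ← h2, ← h1, ← sum_sub_distrib]
  refine sum_congr rfl fun p _ => ?_
  rw [← mul_sub]
  congr 1
  unfold EX.mt
  rw [Complex.ofReal_sub]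
  congr 1
  · by_cases hp : p = p0
    · rw [if_pos hp, if_pos hp, Complex.ofReal_one]
    · rw [if_neg hp, if_neg hp, Complex.ofReal_zero]
  · by_cases hp : e.x = 1 ∧ p = e.pr
    · rw [if_pos hp, if_pos hp]
    · rw [if_neg hp, if_neg hp, Complex.ofReal_zero]

/-- `φ(q) 1[n ≡ b (q)] = ∑_{p ∈ PC Q, p.1 ∣ q} p.2(n) conj p.2(b)` for `n` coprime to `q` (`H68T.KER_orth`, file H68T/KER, with `m = b`). Multiply by
`Λ(n)` and sum over `n ≤ u` coprime to `q` (`n ≡ b` implies coprime): `φ(q) ∑_{cl u q b} Λ = ∑_p conj p.2(b) (∑_{n ≤ u} Λ(n) p.2(n) - ∑_{n ≤ u, (n,q) > 1} Λ(n) p.2(n))`.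
The number of the `p` is `φ(q)` (`KER_orth` with `n = m = 1`, or `KER_sum`), so `h` costs `E` and the second sum costs its absolute value. Main term:
`∑_p conj p.2(b) e.mt p m = 1 - [e.x = 1, e.q ∣ q] ψ(b) m^(β-1) = φ(q) e.mc q b m` (`p0` and `e.pr` are in the set: `e.pr ∈ PC Q` iff `e.q ≤ Q`, which
holds if `e.q ∣ q`; `ψ` is real: `psi_real`; `e.x = 0` or `1`). -/
theorem ap_lam (c : ℝ) (e : EX) (he : e.Ok c) (Q X : ℕ) (E : ℝ) (hE : 0 ≤ E) (h : PsiOk Q X E e) (q : ℕ) (hq : 1 ≤ q)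
    (hqQ : q ≤ Q) (b : ℤ) (hb : IsCoprime b (q : ℤ)) (u : ℕ) (hu : u ≤ X) :
    |∑ n ∈ cl u q b, ArithmeticFunction.vonMangoldt n - ∑ m ∈ Icc 1 u, e.mc q b m| ≤
      E + ∑ n ∈ (Icc 1 u).filter (fun n => ¬ n.Coprime q), ArithmeticFunction.vonMangoldt n := by
  classical
  set S := (PC Q).filter (fun p => p.1 ∣ q) with hS
  set B : ℝ := ∑ n ∈ (Icc 1 u).filter (fun n => ¬ n.Coprime q), ArithmeticFunction.vonMangoldt n
    with hB
  have hφ0 : 0 < (q.totient : ℝ) := by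
    have := Nat.totient_pos.mpr (show 0 < q by omega)
    exact_mod_cast this
  have hcard : (S.card : ℝ) = q.totient := by
    have h1 := APL_S_card Q q hq hqQ
    exact_mod_cast h1
  set err : (Σ r : ℕ, DirichletCharacter ℂ r) → ℂ := fun p =>
    ∑ m ∈ Icc 1 u, ((ArithmeticFunction.vonMangoldt m : ℂ) * p.2 (m : ZMod p.1) -
      ((e.mt p m : ℝ) : ℂ)) with herr
  set Bp : (Σ r : ℕ, DirichletCharacter ℂ r) → ℂ := fun p =>
    ∑ n ∈ (Icc 1 u).filter (fun n => ¬ n.Coprime q),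
      (ArithmeticFunction.vonMangoldt n : ℂ) * p.2 (n : ZMod p.1) with hBp
  have hBple : ∀ p, ‖Bp p‖ ≤ B := by
    intro p
    refine (norm_sum_le _ _).trans (sum_le_sum fun n _ => ?_)
    rw [norm_mul, Complex.norm_real, Real.norm_of_nonneg ArithmeticFunction.vonMangoldt_nonneg]
    exact mul_le_of_le_one_right ArithmeticFunction.vonMangoldt_nonneg
      (DirichletCharacter.norm_le_one p.2 _)
  have key : (q.totient : ℂ) * ((∑ n ∈ cl u q b, ArithmeticFunction.vonMangoldt n -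
      ∑ m ∈ Icc 1 u, e.mc q b m : ℝ) : ℂ) =
      ∑ p ∈ S, (starRingEnd ℂ) (p.2 (b : ZMod p.1)) * (err p - Bp p) := by
    have e1 : ∀ p, err p - Bp p = (∑ n ∈ (Icc 1 u).filter (fun n => n.Coprime q),
        (ArithmeticFunction.vonMangoldt n : ℂ) * p.2 (n : ZMod p.1)) -
        ∑ m ∈ Icc 1 u, ((e.mt p m : ℝ) : ℂ) := by
      intro p
      have h1 := sum_filter_add_sum_filter_not (Icc 1 u) (fun n => n.Coprime q)
        (fun n => (ArithmeticFunction.vonMangoldt n : ℂ) * p.2 (n : ZMod p.1))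
      simp only [herr, hBp]
      rw [sum_sub_distrib, ← h1]
      ring
    have e2 : ∑ p ∈ S, (starRingEnd ℂ) (p.2 (b : ZMod p.1)) * (err p - Bp p) =
        ∑ p ∈ S, (starRingEnd ℂ) (p.2 (b : ZMod p.1)) *
          (∑ n ∈ (Icc 1 u).filter (fun n => n.Coprime q),
            (ArithmeticFunction.vonMangoldt n : ℂ) * p.2 (n : ZMod p.1)) -
        ∑ p ∈ S, (starRingEnd ℂ) (p.2 (b : ZMod p.1)) * ∑ m ∈ Icc 1 u, ((e.mt p m : ℝ) : ℂ) := by
      rw [← sum_sub_distrib]
      refine sum_congr rfl fun p _ => ?_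
      rw [e1, mul_sub]
    have e3 : ∑ p ∈ S, (starRingEnd ℂ) (p.2 (b : ZMod p.1)) *
        ∑ m ∈ Icc 1 u, ((e.mt p m : ℝ) : ℂ) =
        (q.totient : ℂ) * ((∑ m ∈ Icc 1 u, e.mc q b m : ℝ) : ℂ) := by
      simp_rw [mul_sum]
      rw [sum_comm, Complex.ofReal_sum, mul_sum]
      exact sum_congr rfl fun m _ => APL_main c e he Q q hq hqQ b m
    have e4 : ∑ p ∈ S, (starRingEnd ℂ) (p.2 (b : ZMod p.1)) *
        (∑ n ∈ (Icc 1 u).filter (fun n => n.Coprime q),
          (ArithmeticFunction.vonMangoldt n : ℂ) * p.2 (n : ZMod p.1)) =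
        (q.totient : ℂ) * ((∑ n ∈ cl u q b, ArithmeticFunction.vonMangoldt n : ℝ) : ℂ) := by
      simp_rw [mul_sum]
      rw [sum_comm]
      have e5 : ∀ n ∈ (Icc 1 u).filter (fun n => n.Coprime q),
          ∑ p ∈ S, (starRingEnd ℂ) (p.2 (b : ZMod p.1)) *
            ((ArithmeticFunction.vonMangoldt n : ℂ) * p.2 (n : ZMod p.1)) =
          if (q : ℤ) ∣ (n : ℤ) - b then
            (q.totient : ℂ) * (ArithmeticFunction.vonMangoldt n : ℂ) else 0 := by
        intro n hn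
        have h1 := Pool.Agent.Lib.H68T.KER_orth Q q n b (by omega) hqQ (mem_filter.mp hn).2 hb.symm
        have h2 : ∑ p ∈ S, (starRingEnd ℂ) (p.2 (b : ZMod p.1)) *
            ((ArithmeticFunction.vonMangoldt n : ℂ) * p.2 (n : ZMod p.1)) =
            (ArithmeticFunction.vonMangoldt n : ℂ) * ∑ p ∈ S, p.2 (n : ZMod p.1) *
              (starRingEnd ℂ) (p.2 (b : ZMod p.1)) := by
          rw [mul_sum]
          refine sum_congr rfl fun p _ => ?_
          ring
        rw [h2, h1]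
        split_ifs
        · ring
        · ring
      rw [sum_congr rfl e5, ← sum_filter, Complex.ofReal_sum, mul_sum]
      have e6 : ((Icc 1 u).filter (fun n => n.Coprime q)).filter
          (fun n : ℕ => (q : ℤ) ∣ (n : ℤ) - b) = cl u q b := by
        ext n
        rw [mem_cl, mem_filter, mem_filter, mem_Icc]
        constructor
        · rintro ⟨⟨h1, h2⟩, h3⟩
          exact ⟨h1, ((Int.modEq_iff_dvd).mpr h3).symm⟩
        · rintro ⟨h1, h2⟩
          have h3 : (q : ℤ) ∣ (n : ℤ) - b := (Int.modEq_iff_dvd).mp h2.symm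
          refine ⟨⟨h1, ?_⟩, h3⟩
          obtain ⟨k, hk⟩ := h3
          rw [← Nat.isCoprime_iff_coprime]
          have h4 : (n : ℤ) = b + (q : ℤ) * k := by linarith
          rw [h4]
          exact hb.add_mul_left_left k
      rw [e6]
    rw [e2, e3, e4, Complex.ofReal_sub, mul_sub]
  have hnorm : (q.totient : ℝ) * |∑ n ∈ cl u q b, ArithmeticFunction.vonMangoldt n -
      ∑ m ∈ Icc 1 u, e.mc q b m| ≤ (q.totient : ℝ) * (E + B) := by
    have h1 := congrArg norm key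
    rw [norm_mul, Complex.norm_natCast, Complex.norm_real, Real.norm_eq_abs] at h1
    rw [h1, ← hcard]
    refine (norm_sum_le _ _).trans ?_
    rw [← nsmul_eq_mul]
    refine sum_le_card_nsmul _ _ _ fun p hp => ?_
    rw [norm_mul, RCLike.norm_conj]
    have h2 : ‖p.2 (b : ZMod p.1)‖ ≤ 1 := DirichletCharacter.norm_le_one p.2 _
    have h3 : ‖err p - Bp p‖ ≤ E + B :=
      (norm_sub_le _ _).trans (add_le_add (h p (mem_filter.mp hp).1 u hu) (hBple p))
    calc ‖p.2 (b : ZMod p.1)‖ * ‖err p - Bp p‖ ≤ 1 * ‖err p - Bp p‖ :=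
          mul_le_mul_of_nonneg_right h2 (norm_nonneg _)
      _ = ‖err p - Bp p‖ := one_mul _
      _ ≤ E + B := h3
  exact le_of_mul_le_mul_left hnorm hφ0

end Pool.Agent.H24W
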