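import Pool.Agent.Lib.H24W.BAS

/-!
# H24W, PPW: prime powers
-/

open Finset

namespace Pool.Agent.H24W

open Pool.Agent.H16U
open Pool.Agent.HUK (GG Bdd)
open Pool.Agent.H44W (ee)
open Pool.Agent.Lib.H68T (lp PC p0 Reg Good Exc sw)
open Pool.Agent.Lib.Sieve (poly cT cE cA)

private theorem ppw_card (q : ℕ) (hq : 1 ≤ q) : (q.primeFactors.card : ℝ) * Real.log 2 ≤ Real.log q := by
  have h1 : 2 ^ q.primeFactors.card ≤ q := by
    calc 2 ^ q.primeFactors.card = ∏ _p ∈ q.primeFactors, 2 := by rw [Finset.prod_const]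
      _ ≤ ∏ p ∈ q.primeFactors, p :=
        Finset.prod_le_prod' fun p hp => (Nat.prime_of_mem_primeFactors hp).two_le
      _ ≤ q := Nat.le_of_dvd hq (Nat.prod_primeFactors_dvd q)
  have h2 : Real.log ((2 : ℝ) ^ q.primeFactors.card) ≤ Real.log q := by
    apply Real.log_le_log (by positivity)
    exact_mod_cast h1
  rwa [Real.log_pow] at h2

private theorem ppw_log (p u : ℕ) (hp : p.Prime) (hu : 1 ≤ u) :
    ((Nat.log p u : ℕ) : ℝ) * Real.log p ≤ Real.log u := by
  have h1 : p ^ Nat.log p u ≤ u := Nat.pow_log_le_self p (by omega)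
  have h2 : Real.log ((p : ℝ) ^ Nat.log p u) ≤ Real.log u := by
    apply Real.log_le_log
    · have : (0 : ℝ) < p := by exact_mod_cast hp.pos
      positivity
    · exact_mod_cast h1
  rwa [Real.log_pow] at h2

/-- `Λ(n) ≠ 0` and `(n, q) > 1`: `n = p^k` with `p ∣ q`; for each `p` the sum is `⌊log u/log p⌋ log p ≤ log u`; the number of prime factors of
`q` is at most `log q/log 2 ≤ 2 log X`. -/
theorem lam_nc (q u X : ℕ) (hq : 1 ≤ q) (hqX : q ≤ X) (hu : u ≤ X) :
    ∑ n ∈ (Icc 1 u).filter (fun n => ¬ n.Coprime q), ArithmeticFunction.vonMangoldt n ≤ 2 * (Real.log X) ^ 2 := by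
  rcases Nat.eq_zero_or_pos u with rfl | hu0
  · simp only [show Icc 1 0 = (∅ : Finset ℕ) from rfl, Finset.filter_empty, Finset.sum_empty]
    positivity
  classical
  set S := (Icc 1 u).filter (fun n => ¬ n.Coprime q) with hS
  have h1 : ∑ n ∈ S, ArithmeticFunction.vonMangoldt n =
      ∑ n ∈ S.filter (fun n => IsPrimePow n), ArithmeticFunction.vonMangoldt n :=
    (Finset.sum_filter_of_ne fun n _ hn => ArithmeticFunction.vonMangoldt_ne_zero_iff.mp hn).symm
  have hmaps : ∀ n ∈ S.filter (fun n => IsPrimePow n), n.minFac ∈ q.primeFactors := by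
    intro n hn
    rw [Finset.mem_filter, hS, Finset.mem_filter, Finset.mem_Icc] at hn
    obtain ⟨⟨⟨hn1, _⟩, hnc⟩, hpp⟩ := hn
    obtain ⟨p, k, hp, hk, rfl⟩ := hpp
    have hp' : p.Prime := hp.nat_prime
    have hmin : (p ^ k).minFac = p := hp'.pow_minFac hk.ne'
    rw [hmin, Nat.mem_primeFactors]
    refine ⟨hp', ?_, by omega⟩
    by_contra hd
    exact hnc (((Nat.Prime.coprime_iff_not_dvd hp').mpr hd).pow_left k)
  rw [h1, ← Finset.sum_fiberwise_of_maps_to hmaps]
  have hfib : ∀ p ∈ q.primeFactors,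
      ∑ n ∈ (S.filter (fun n => IsPrimePow n)).filter (fun n => n.minFac = p),
        ArithmeticFunction.vonMangoldt n ≤ Real.log u := by
    intro p hp
    have hp' := Nat.prime_of_mem_primeFactors hp
    have hsub : (S.filter (fun n => IsPrimePow n)).filter (fun n => n.minFac = p) ⊆
        (Icc 1 (Nat.log p u)).image (fun k => p ^ k) := by
      intro n hn
      rw [Finset.mem_filter, Finset.mem_filter, hS, Finset.mem_filter, Finset.mem_Icc] at hn
      obtain ⟨⟨⟨⟨hn1, hnu⟩, _⟩, hpp⟩, hmf⟩ := hn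
      obtain ⟨p', k, hp'', hk, rfl⟩ := hpp
      have hmin : (p' ^ k).minFac = p' := hp''.nat_prime.pow_minFac hk.ne'
      rw [hmin] at hmf
      subst hmf
      rw [Finset.mem_image]
      exact ⟨k, Finset.mem_Icc.mpr ⟨hk, Nat.le_log_of_pow_le hp'.one_lt hnu⟩, rfl⟩
    have hval : ∀ n ∈ (S.filter (fun n => IsPrimePow n)).filter (fun n => n.minFac = p),
        ArithmeticFunction.vonMangoldt n ≤ Real.log p := by
      intro n hn
      rw [Finset.mem_filter, Finset.mem_filter] at hn
      rw [ArithmeticFunction.vonMangoldt_apply, if_pos hn.1.2, hn.2]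
    have hlogp : 0 ≤ Real.log p := Real.log_nonneg (by exact_mod_cast hp'.one_le)
    calc ∑ n ∈ (S.filter (fun n => IsPrimePow n)).filter (fun n => n.minFac = p),
        ArithmeticFunction.vonMangoldt n
        ≤ ∑ _n ∈ (S.filter (fun n => IsPrimePow n)).filter (fun n => n.minFac = p),
          Real.log p := Finset.sum_le_sum hval
      _ = (((S.filter (fun n => IsPrimePow n)).filter (fun n => n.minFac = p)).card : ℝ) *
          Real.log p := by rw [Finset.sum_const, nsmul_eq_mul]
      _ ≤ ((Nat.log p u : ℕ) : ℝ) * Real.log p := by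
          apply mul_le_mul_of_nonneg_right _ hlogp
          have := (Finset.card_le_card hsub).trans Finset.card_image_le
          rw [Nat.card_Icc, Nat.add_sub_cancel] at this
          exact_mod_cast this
      _ ≤ Real.log u := ppw_log p u hp' hu0
  have h2 := Finset.sum_le_sum hfib
  rw [Finset.sum_const, nsmul_eq_mul] at h2
  refine h2.trans ?_
  have hX1 : 1 ≤ X := hq.trans hqX
  have hlu : Real.log u ≤ Real.log X := Real.log_le_log (by exact_mod_cast hu0) (by exact_mod_cast hu)
  have hlq : Real.log q ≤ Real.log X := Real.log_le_log (by exact_mod_cast hq) (by exact_mod_cast hqX)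
  have hlX : 0 ≤ Real.log X := Real.log_nonneg (by exact_mod_cast hX1)
  have hlu0 : 0 ≤ Real.log u := Real.log_nonneg (by exact_mod_cast hu0)
  have h3 := (ppw_card q hq).trans hlq
  have h4 : (1 : ℝ) / 2 ≤ Real.log 2 := by
    have := Real.log_two_gt_d9
    linarith
  have hc0 : (0 : ℝ) ≤ (q.primeFactors.card : ℝ) := Nat.cast_nonneg _
  have h5 : (q.primeFactors.card : ℝ) ≤ 2 * Real.log X := by nlinarith
  calc (q.primeFactors.card : ℝ) * Real.log u ≤ (2 * Real.log X) * Real.log X :=
        mul_le_mul h5 hlu hlu0 (by positivity)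
    _ = 2 * (Real.log X) ^ 2 := by ring

private theorem ppw_lp (n : ℕ) : lp (n : ℤ) = if n.Prime then Real.log n else 0 := by
  unfold Pool.Agent.Lib.H68T.lp
  rw [Int.toNat_natCast]
  push_cast
  rfl

private theorem ppw_nonneg (n : ℕ) : 0 ≤ ArithmeticFunction.vonMangoldt n - lp (n : ℤ) := by
  rw [ppw_lp]
  split_ifs with h
  · rw [ArithmeticFunction.vonMangoldt_apply_prime h, sub_self]
  · rw [sub_zero]
    exact ArithmeticFunction.vonMangoldt_nonneg

private theorem ppw_sum (u : ℕ) :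
    ∑ n ∈ Icc 1 u, (ArithmeticFunction.vonMangoldt n - lp (n : ℤ)) ≤
      2 * Real.sqrt u * Real.log u := by
  rcases Nat.eq_zero_or_pos u with rfl | hu0
  · simp
  · have h1 := Chebyshev.psi_sub_theta_le (x := (u : ℝ)) (by exact_mod_cast hu0)
    have h2 : Chebyshev.psi (u : ℝ) - Chebyshev.theta (u : ℝ) =
        ∑ n ∈ Icc 1 u, (ArithmeticFunction.vonMangoldt n - lp (n : ℤ)) := by
      unfold Chebyshev.psi Chebyshev.theta
      rw [Nat.floor_natCast, Finset.sum_filter, ← Finset.sum_sub_distrib]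
      refine Finset.sum_congr (by ext n; simp [Finset.mem_Ioc, Finset.mem_Icc]; omega) fun n _ => ?_
      rw [ppw_lp]
    rw [← h2]
    exact h1

/-- Each term is `≥ 0` (`lp n = Λ(n)` at primes, `lp n = 0` otherwise, `(n : ℤ).toNat = n`), and the sum over all proper prime powers up to `u` of `Λ` is
`∑_{p ≤ √u} (⌊log u/log p⌋ - 1) log p ≤ √u log u`. Mathlib has `Chebyshev.psi`, `Chebyshev.theta`; many files in Lib have this. -/
theorem lam_lp (S : Finset ℕ) (u : ℕ) (hS : S ⊆ Icc 1 u) :
    |∑ n ∈ S, (ArithmeticFunction.vonMangoldt n - lp n)| ≤ 2 * Real.sqrt u * Real.log u := by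
  rw [abs_of_nonneg (Finset.sum_nonneg fun n _ => ppw_nonneg n)]
  exact (Finset.sum_le_sum_of_subset_of_nonneg hS fun n _ _ => ppw_nonneg n).trans (ppw_sum u)

theorem lam_lp_abs (u : ℕ) :
    ∑ n ∈ Icc 1 u, |ArithmeticFunction.vonMangoldt n - lp n| ≤ 2 * Real.sqrt u * Real.log u := by
  rw [Finset.sum_congr rfl fun n _ => abs_of_nonneg (ppw_nonneg n)]
  exact ppw_sum u

end Pool.Agent.H24W
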