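import Pool.Agent.Lib.H24W.APL
import Pool.Agent.Lib.H24W.PPW

/-!
# H24W, APP: module B: primes in progressions
-/

open Finset

namespace Pool.Agent.H24W

open Pool.Agent.H16U
open Pool.Agent.HUK (GG Bdd)
open Pool.Agent.H44W (ee)
open Pool.Agent.Lib.H68T (lp PC p0 Reg Good Exc sw)
open Pool.Agent.Lib.Sieve (poly cT cE cA)

private theorem APP_nonneg (n : ℕ) : 0 ≤ lp (n : ℤ) := by
  unfold Pool.Agent.Lib.H68T.lp
  split_ifs with h
  · have h1 : (((n : ℤ).toNat : ℕ)).Prime := h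
    rw [Int.toNat_natCast] at h1
    exact Real.log_nonneg (by exact_mod_cast h1.one_le)
  · exact le_rfl

private theorem APP_le (n : ℕ) : lp (n : ℤ) ≤ ArithmeticFunction.vonMangoldt n := by
  unfold Pool.Agent.Lib.H68T.lp
  split_ifs with h
  · rw [Int.toNat_natCast] at h
    rw [ArithmeticFunction.vonMangoldt_apply_prime h]
    simp
  · exact ArithmeticFunction.vonMangoldt_nonneg

private theorem APP_num : ∃ X0 : ℕ, ∀ X : ℕ, X0 ≤ X →
    2 * (Real.log X) ^ 2 + 2 * Real.sqrt X * Real.log X ≤ (X : ℝ) ^ (3 / 4 : ℝ) := by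
  have h0 : (0 : ℝ) < 1 / 16 := by norm_num
  have h1 := (isLittleO_log_rpow_atTop h0).bound (show (0 : ℝ) < 1 / 4 by norm_num)
  have h2 : Filter.Tendsto (fun X : ℕ => (X : ℝ)) Filter.atTop Filter.atTop := tendsto_natCast_atTop_atTop
  refine ev_nat ?_
  filter_upwards [h2.eventually h1, h2.eventually (Filter.eventually_ge_atTop (1 : ℝ))] with X h3 h4
  have h5 : 0 ≤ Real.log X := Real.log_nonneg h4
  have hX : (0 : ℝ) < X := by linarith
  have h6 : 0 ≤ (X : ℝ) ^ (1 / 16 : ℝ) := Real.rpow_nonneg hX.le _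
  rw [Real.norm_of_nonneg h5, Real.norm_of_nonneg h6] at h3
  have h7 : (X : ℝ) ^ (1 / 16 : ℝ) ≤ (X : ℝ) ^ (1 / 4 : ℝ) := Real.rpow_le_rpow_of_exponent_le h4 (by norm_num)
  have h8 : (1 : ℝ) ≤ (X : ℝ) ^ (1 / 2 : ℝ) := Real.one_le_rpow h4 (by norm_num)
  have h9 : (X : ℝ) ^ (1 / 2 : ℝ) * (X : ℝ) ^ (1 / 4 : ℝ) = (X : ℝ) ^ (3 / 4 : ℝ) := by
    rw [← Real.rpow_add hX]
    norm_num
  have h10 : ((X : ℝ) ^ (1 / 16 : ℝ)) ^ 2 ≤ (X : ℝ) ^ (1 / 4 : ℝ) := by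
    rw [← Real.rpow_natCast, ← Real.rpow_mul hX.le]
    exact Real.rpow_le_rpow_of_exponent_le h4 (by norm_num)
  have h11 : (Real.log X) ^ 2 ≤ 1 / 16 * (X : ℝ) ^ (1 / 4 : ℝ) := by
    calc (Real.log X) ^ 2 ≤ (1 / 4 * (X : ℝ) ^ (1 / 16 : ℝ)) ^ 2 := pow_le_pow_left₀ h5 h3 2
      _ = 1 / 16 * ((X : ℝ) ^ (1 / 16 : ℝ)) ^ 2 := by ring
      _ ≤ _ := mul_le_mul_of_nonneg_left h10 (by norm_num)
  have h12 : (0 : ℝ) ≤ (X : ℝ) ^ (1 / 4 : ℝ) := Real.rpow_nonneg hX.le _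
  rw [Real.sqrt_eq_rpow, ← h9]
  have h13 : (X : ℝ) ^ (1 / 2 : ℝ) * Real.log X ≤ (X : ℝ) ^ (1 / 2 : ℝ) * (1 / 4 * (X : ℝ) ^ (1 / 4 : ℝ)) :=
    mul_le_mul_of_nonneg_left (h3.trans (by linarith)) (by linarith)
  nlinarith

/-- `b` coprime to `q`: `ap_lam`, `lam_nc`, `lam_lp` (`S = cl u q b`); `2 L² + 2 X^(1/2) L ≤ X^(3/4)` for `X` large. `b` not coprime to `q`: `e.M = 0` and
`0 ≤ ∑_{cl u q b} lp n ≤ ∑_{n ≤ u, (n, q) > 1} Λ(n)` (`n ≡ b` is not coprime to `q`; `lp n ≤ Λ(n)`) `≤ 2 L²` by `lam_nc`. -/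
theorem ap_lp : ∃ X0 : ℕ, ∀ X : ℕ, X0 ≤ X → ∀ (c : ℝ) (e : EX), e.Ok c → ∀ (Q : ℕ) (E : ℝ), Q ≤ X → 0 ≤ E →
    PsiOk Q X E e → ∀ q : ℕ, 1 ≤ q → q ≤ Q → ∀ (b : ℤ) (u : ℕ), u ≤ X →
    |∑ n ∈ cl u q b, lp n - e.M u q b| ≤ E + (X : ℝ) ^ (3 / 4 : ℝ) := by
  obtain ⟨X0, hX0⟩ := APP_num
  refine ⟨X0, fun X hX c e he Q E hQX hE hPsi q hq hqQ b u hu => ?_⟩
  have hnum := hX0 X hX
  have hcl : cl u q b ⊆ Icc 1 u := filter_subset _ _
  have hnc := lam_nc q u X hq (hqQ.trans hQX) hu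
  by_cases hb : IsCoprime b (q : ℤ)
  · have h1 := ap_lam c e he Q X E hE hPsi q hq hqQ b hb u hu
    have h2 := lam_lp (cl u q b) u hcl
    have h3 : Real.sqrt u * Real.log u ≤ Real.sqrt X * Real.log X := by
      rcases Nat.eq_zero_or_pos u with h0 | h0
      · subst h0
        have h5 : 0 ≤ Real.log X := by
          rcases Nat.eq_zero_or_pos X with h6 | h6
          · subst h6; simp
          · exact Real.log_nonneg (by exact_mod_cast h6)
        simpa using mul_nonneg (Real.sqrt_nonneg _) h5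
      · have h4 : (1 : ℝ) ≤ u := by exact_mod_cast h0
        have h5 : (u : ℝ) ≤ X := by exact_mod_cast hu
        exact mul_le_mul (Real.sqrt_le_sqrt h5) (Real.log_le_log (by linarith) h5) (Real.log_nonneg h4)
          (Real.sqrt_nonneg _)
    have h4 : e.M u q b = ∑ m ∈ Icc 1 u, e.mc q b m := by
      unfold EX.M
      rw [if_pos hb]
    rw [sum_sub_distrib] at h2
    rw [h4]
    rw [abs_le] at h1 h2 ⊢
    constructor <;> linarith [h1.1, h1.2, h2.1, h2.2]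
  · have h4 : e.M u q b = 0 := by
      unfold EX.M
      rw [if_neg hb]
    rw [h4, sub_zero, abs_of_nonneg (sum_nonneg fun n _ => APP_nonneg n)]
    have h5 : cl u q b ⊆ (Icc 1 u).filter (fun n => ¬ n.Coprime q) := by
      intro n hn
      rw [mem_cl] at hn
      rw [mem_filter, mem_Icc]
      refine ⟨hn.1, fun hc => hb ?_⟩
      have h6 : IsCoprime (n : ℤ) (q : ℤ) := Nat.isCoprime_iff_coprime.mpr hc
      obtain ⟨k, hk⟩ := hn.2.dvd
      have h7 : b = (n : ℤ) + (q : ℤ) * k := by linarith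
      rw [h7]
      exact (IsCoprime.add_mul_left_left_iff).mpr h6
    have h6 : ∑ n ∈ cl u q b, lp (n : ℤ) ≤ 2 * (Real.log X) ^ 2 := by
      refine le_trans ?_ hnc
      refine le_trans (sum_le_sum fun n _ => APP_le n) ?_
      exact sum_le_sum_of_subset_of_nonneg h5 fun n _ _ => ArithmeticFunction.vonMangoldt_nonneg
    have h7 : 0 ≤ Real.sqrt X * Real.log X := by
      rcases Nat.eq_zero_or_pos X with h6 | h6
      · subst h6; simp
      · exact mul_nonneg (Real.sqrt_nonneg _) (Real.log_nonneg (by exact_mod_cast h6))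
    linarith

end Pool.Agent.H24W
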