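import Pool.Agent.Lib.H24W.BAS

/-!
# H24W, APX: rational approximation off the major arcs
-/

open Finset

namespace Pool.Agent.H24W

open Pool.Agent.H16U
open Pool.Agent.HUK (GG Bdd)
open Pool.Agent.H44W (ee)
open Pool.Agent.Lib.H68T (lp PC p0 Reg Good Exc sw)
open Pool.Agent.Lib.Sieve (poly cT cE cA)

/-- Dirichlet (`Real.exists_rat_abs_sub_le_and_den_le` with `n = ⌊X/Q⌋₊ ≥ 1`) for `θ' = θ + b/r`: `θ' ≈ a/q` in lowest terms, `q ≤ ⌊X/Q⌋₊ ≤ X/Q`,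
`|θ' - a/q| ≤ 1/((n+1) q) ≤ 1/q²` and `< Q/(X q)`. If `q ≤ Q/r` then `θ - (a r - b q)/(q r)` has the same absolute value `≤ Q/X` and `q r ≤ Q`:
`θ` would be in `Maj Q X`. -/
theorem approx (Q : ℝ) (X : ℕ) (hQ : 1 ≤ Q) (hX : Q ≤ X) (θ : ℝ) (h : ¬ Maj Q X θ) (r : ℕ) (hr : 1 ≤ r) (b : ℤ) :
    Mnr (Q / r) (X / Q) (θ + b / r) := by
  have hQ0 : 0 < Q := by linarith
  have hX0 : (0 : ℝ) < X := by linarith
  have hr0 : (0 : ℝ) < r := by exact_mod_cast hr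
  obtain ⟨n, hn⟩ : ∃ n : ℕ, n = ⌊(X : ℝ) / Q⌋₊ := ⟨_, rfl⟩
  have hn1 : 1 ≤ n := by
    rw [hn]
    apply Nat.le_floor
    rw [Nat.cast_one, le_div_iff₀ hQ0, one_mul]
    exact hX
  have hnle : (n : ℝ) ≤ X / Q := by
    rw [hn]
    exact Nat.floor_le (by positivity)
  have hnlt : (X : ℝ) / Q < n + 1 := by
    rw [hn]
    exact Nat.lt_floor_add_one _
  obtain ⟨ρ, hρ, hρn⟩ := Real.exists_rat_abs_sub_le_and_den_le (θ + b / r) (n := n) (by omega)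
  have hq1 : 1 ≤ ρ.den := ρ.pos
  have hq0 : (0 : ℝ) < (ρ.den : ℝ) := by exact_mod_cast hq1
  have hq1' : (1 : ℝ) ≤ (ρ.den : ℝ) := by exact_mod_cast hq1
  have hqn : (ρ.den : ℝ) ≤ n := by exact_mod_cast hρn
  have hcast : (ρ : ℝ) = (ρ.num : ℝ) / (ρ.den : ℝ) := Rat.cast_def ρ
  rw [hcast] at hρ
  refine ⟨ρ.den, ρ.num, hq1, ?_, ?_, hqn.trans hnle, ?_⟩
  · exact Int.isCoprime_iff_gcd_eq_one.2 ρ.reduced
  · by_contra hlt
    push Not at hlt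
    rw [le_div_iff₀ hr0] at hlt
    apply h
    refine ⟨ρ.den * r, ρ.num * r - b * ρ.den, Nat.mul_pos hq1 hr, ?_, ?_⟩
    · push_cast
      exact hlt
    · have h1 : θ - ((ρ.num * r - b * ρ.den : ℤ) : ℝ) / ((ρ.den * r : ℕ) : ℝ) =
          θ + b / r - (ρ.num : ℝ) / (ρ.den : ℝ) := by
        push_cast
        field_simp
        ring
      rw [h1]
      refine hρ.trans ?_
      rw [div_le_div_iff₀ (by positivity) hX0, one_mul]
      have h2 : (X : ℝ) < (n + 1) * Q := (div_lt_iff₀ hQ0).1 hnlt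
      have h3 : ((n : ℝ) + 1) * Q ≤ Q * ((n + 1) * (ρ.den : ℝ)) := by
        have h4 : (0 : ℝ) ≤ (n + 1) * Q := by positivity
        nlinarith
      linarith
  · refine hρ.trans ?_
    apply one_div_le_one_div_of_le (by positivity)
    nlinarith

end Pool.Agent.H24W
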