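import Pool.Agent.Lib.H24W.Defs

/-!
# H24W, BAS: comparison of powers of `log X`, size of `wS X`
-/

open Finset

namespace Pool.Agent.H24W

open Pool.Agent.H16U

theorem tendsto_L : Filter.Tendsto (fun X : ℕ => Real.log (X : ℝ)) Filter.atTop Filter.atTop :=
  Real.tendsto_log_atTop.comp tendsto_natCast_atTop_atTop

/-- From `Filter.Eventually` to `∃ X0`. -/
theorem ev_nat {p : ℕ → Prop} (h : ∀ᶠ X : ℕ in Filter.atTop, p X) : ∃ X0 : ℕ, ∀ X : ℕ, X0 ≤ X → p X :=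
  Filter.eventually_atTop.mp h

/-- Anything which holds for all large real `L` holds for `L = log X`, `X` large. -/
theorem ev_L {p : ℝ → Prop} (h : ∀ᶠ L : ℝ in Filter.atTop, p L) : ∃ X0 : ℕ, ∀ X : ℕ, X0 ≤ X → p (Real.log X) :=
  ev_nat (tendsto_L.eventually h)

theorem big_L (C : ℝ) : ∃ X0 : ℕ, ∀ X : ℕ, X0 ≤ X → C ≤ Real.log X :=
  ev_L (Filter.eventually_ge_atTop C)

theorem ev_pow {a b : ℝ} (hab : a < b) (C : ℝ) : ∀ᶠ L : ℝ in Filter.atTop, C * L ^ a ≤ L ^ b := by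
  have h1 : Filter.Tendsto (fun L : ℝ => L ^ (b - a)) Filter.atTop Filter.atTop :=
    tendsto_rpow_atTop (by linarith)
  filter_upwards [h1.eventually (Filter.eventually_ge_atTop C), Filter.eventually_gt_atTop (0 : ℝ)] with L hL h0
  have h2 : L ^ b = L ^ (b - a) * L ^ a := by
    rw [← Real.rpow_add h0]
    congr 1
    ring
  rw [h2]
  exact mul_le_mul_of_nonneg_right hL (Real.rpow_nonneg h0.le _)

theorem big_pow {a b : ℝ} (hab : a < b) (C : ℝ) : ∃ X0 : ℕ, ∀ X : ℕ, X0 ≤ X →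
    C * (Real.log X) ^ a ≤ (Real.log X) ^ b := ev_L (ev_pow hab C)

theorem ev_log {b : ℝ} (hb : 0 < b) (C : ℝ) : ∀ᶠ L : ℝ in Filter.atTop, C * (1 + Real.log L) ≤ L ^ b := by
  have h1 := (isLittleO_log_rpow_atTop hb).bound (show (0 : ℝ) < 1 / (2 * (|C| + 1)) by positivity)
  have h2 : Filter.Tendsto (fun L : ℝ => L ^ b) Filter.atTop Filter.atTop := tendsto_rpow_atTop hb
  filter_upwards [h1, h2.eventually (Filter.eventually_ge_atTop (2 * (|C| + 1))),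
    Filter.eventually_ge_atTop (1 : ℝ)] with L hL h3 h4
  have h5 : 0 ≤ Real.log L := Real.log_nonneg h4
  have h6 : 0 ≤ L ^ b := Real.rpow_nonneg (by linarith) _
  rw [Real.norm_of_nonneg h5, Real.norm_of_nonneg h6] at hL
  have h7 : C * (1 + Real.log L) ≤ (|C| + 1) * (1 + Real.log L) := by
    have := le_abs_self C
    nlinarith
  have h8 : (|C| + 1) * Real.log L ≤ L ^ b / 2 := by
    have h9 : 0 < |C| + 1 := by positivity
    calc (|C| + 1) * Real.log L ≤ (|C| + 1) * (1 / (2 * (|C| + 1)) * L ^ b) := mul_le_mul_of_nonneg_left hL h9.le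
      _ = L ^ b / 2 := by field_simp
  nlinarith

/-- `C (1 + log log X) ≤ (log X)^b`. -/
theorem big_log {b : ℝ} (hb : 0 < b) (C : ℝ) : ∃ X0 : ℕ, ∀ X : ℕ, X0 ≤ X →
    C * (1 + Real.log (Real.log X)) ≤ (Real.log X) ^ b := ev_L (ev_log hb C)

/-- `(log X)^A ≤ exp ((log X)^b)`, even with a factor `C`. -/
theorem big_absorb {b : ℝ} (hb : 0 < b) (C A : ℝ) : ∃ X0 : ℕ, ∀ X : ℕ, X0 ≤ X →
    C * (Real.log X) ^ A ≤ Real.exp ((Real.log X) ^ b) := by
  refine ev_L (p := fun L => C * L ^ A ≤ Real.exp (L ^ b)) ?_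
  filter_upwards [ev_log hb (|A| + |C|), Filter.eventually_ge_atTop (Real.exp 1)] with L h1 h2
  have hL0 : 0 < L := (Real.exp_pos 1).trans_le h2
  have h3 : 1 ≤ Real.log L := (Real.le_log_iff_exp_le hL0).mpr h2
  have h4 : C ≤ Real.exp |C| := (le_abs_self C).trans (by linarith [Real.add_one_le_exp |C|])
  have h5 : L ^ A ≤ Real.exp (|A| * Real.log L) := by
    rw [Real.rpow_def_of_pos hL0]
    apply Real.exp_le_exp.mpr
    have := le_abs_self A
    nlinarith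
  calc C * L ^ A ≤ Real.exp |C| * L ^ A := mul_le_mul_of_nonneg_right h4 (Real.rpow_nonneg hL0.le _)
    _ ≤ Real.exp |C| * Real.exp (|A| * Real.log L) := mul_le_mul_of_nonneg_left h5 (Real.exp_pos _).le
    _ = Real.exp (|C| + |A| * Real.log L) := by rw [← Real.exp_add]
    _ ≤ Real.exp (L ^ b) := by
      apply Real.exp_le_exp.mpr
      refine le_trans ?_ h1
      have hA := abs_nonneg A
      have hC := abs_nonneg C
      nlinarith

theorem X_exp {X : ℕ} (hX : 1 ≤ X) : (X : ℝ) = Real.exp (Real.log X) :=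
  (Real.exp_log (by exact_mod_cast hX)).symm

theorem wS_le (X : ℕ) : (wS X : ℝ) ≤ Real.exp ((Real.log X) ^ (2 / 5 : ℝ)) :=
  Nat.floor_le (Real.exp_pos _).le

theorem lt_wS (X : ℕ) : Real.exp ((Real.log X) ^ (2 / 5 : ℝ)) < wS X + 1 := Nat.lt_floor_add_one _

theorem le_wS {X n : ℕ} (h : (n : ℝ) ≤ Real.exp ((Real.log X) ^ (2 / 5 : ℝ))) : n ≤ wS X := Nat.le_floor h

theorem mem_PS {X p : ℕ} : p ∈ PS X ↔ p.Prime ∧ p ≤ wS X := by
  unfold PS
  rw [mem_filter, mem_Icc]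
  constructor
  · rintro ⟨⟨_, h1⟩, h2⟩
    exact ⟨h2, h1⟩
  · rintro ⟨h1, h2⟩
    exact ⟨⟨h1.one_le, h2⟩, h1⟩

theorem rS_le (X : ℕ) : (rS X : ℝ) ≤ (Real.log X) ^ (9 / 20 : ℝ) :=
  Nat.floor_le (Real.rpow_nonneg (by positivity) _)

theorem lt_rS (X : ℕ) : (Real.log X) ^ (9 / 20 : ℝ) < rS X + 1 := Nat.lt_floor_add_one _

/-- The savings: `log X ^ (19/100) ≤ s ≤ log X ^ (19/50)`. -/
theorem Alt.bounds {X : ℕ} {e : EX} {s : ℝ} (h : Alt X e s) (hX : 1 ≤ Real.log X) :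
    (Real.log X) ^ (19 / 100 : ℝ) ≤ s ∧ s ≤ (Real.log X) ^ (19 / 50 : ℝ) := by
  have h1 : (Real.log X) ^ (19 / 100 : ℝ) ≤ (Real.log X) ^ (19 / 50 : ℝ) :=
    Real.rpow_le_rpow_of_exponent_le hX (by norm_num)
  rcases h with ⟨_, h⟩ | ⟨h, _⟩
  · rw [h]; exact ⟨le_rfl, h1⟩
  · rw [h]; exact ⟨h1, le_rfl⟩

/-- The exceptional conductor is at most `exp (log X ^ (1/5))`. -/
theorem Alt.q_le {X : ℕ} {e : EX} {s c : ℝ} (h : Alt X e s) (he : e.Ok c) :
    (e.q : ℝ) ≤ Real.exp ((Real.log X) ^ (1 / 5 : ℝ)) := by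
  rcases h with ⟨h, _⟩ | ⟨_, h⟩
  · rw [he.one h]
    have : 0 ≤ (Real.log X) ^ (1 / 5 : ℝ) := Real.rpow_nonneg (by positivity) _
    simpa using Real.one_le_exp this
  · exact h

theorem mem_cl {u q n : ℕ} {b : ℤ} : n ∈ cl u q b ↔ (1 ≤ n ∧ n ≤ u) ∧ (n : ℤ) ≡ b [ZMOD q] := by
  unfold cl
  rw [mem_filter, mem_Icc]

theorem rg_nonneg (X : ℕ) (n : ℤ) : 0 ≤ rg X n := by
  unfold rg
  split_ifs <;> norm_num

theorem rg_le_one (X : ℕ) (n : ℤ) : rg X n ≤ 1 := by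
  unfold rg
  split_ifs <;> norm_num

theorem dv_nonneg (n : ℤ) (p : ℕ) : 0 ≤ dv n p := by
  unfold dv
  split_ifs <;> norm_num

theorem dv_le_one (n : ℤ) (p : ℕ) : dv n p ≤ 1 := by
  unfold dv
  split_ifs <;> norm_num

theorem re_abs_le {r : ℕ} (ψ : DirichletCharacter ℂ r) (a : ZMod r) : |(ψ a).re| ≤ 1 :=
  (Complex.abs_re_le_norm _).trans (DirichletCharacter.norm_le_one ψ a)

/-- A quadratic character is real valued. -/
theorem psi_real {r : ℕ} (ψ : DirichletCharacter ℂ r) (h : ψ ^ 2 = 1) (a : ZMod r) : ψ a = (((ψ a).re : ℝ) : ℂ) := by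
  by_cases ha : IsUnit a
  · have h1 : (ψ a) ^ 2 = 1 := by
      rw [← MulChar.pow_apply' ψ (by norm_num) a, h, MulChar.one_apply ha]
    have h2 : ψ a = 1 ∨ ψ a = -1 := by
      have h3 : (ψ a - 1) * (ψ a + 1) = 0 := by linear_combination h1
      rcases mul_eq_zero.mp h3 with h4 | h4
      · exact Or.inl (by linear_combination h4)
      · exact Or.inr (by linear_combination h4)
    rcases h2 with h2 | h2 <;> rw [h2] <;> simp
  · rw [MulChar.map_nonunit _ ha]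
    simp

/-- The model in terms of `rg`. -/
theorem mdl_eq (X : ℕ) (e : EX) (n : ℕ) (hn : 1 ≤ n) : mdl X e.toE (n : ℤ) =
    cS X * (rg X n - e.x * (rg X n * (e.ψ (n : ZMod e.q)).re * (n : ℝ) ^ (e.β - 1))) := by
  unfold mdl rg EX.toE
  by_cases h : Rough X n
  · rw [if_pos ⟨by exact_mod_cast hn, h⟩, if_pos h]
    push_cast
    ring
  · rw [if_neg (fun h' => h h'.2), if_neg h]
    ring

end Pool.Agent.H24W
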