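import Pool.Agent.Lib.H24W.BAS

/-!
# H24W, BON1: Bonferroni
-/

open Finset

namespace Pool.Agent.H24W

open Pool.Agent.H16U
open Pool.Agent.HUK (GG Bdd)
open Pool.Agent.H44W (ee)
open Pool.Agent.Lib.H68T (lp PC p0 Reg Good Exc sw)
open Pool.Agent.Lib.Sieve (poly cT cE cA)

theorem rg_prod (X : ℕ) (n : ℤ) : rg X n = ∏ p ∈ PS X, (1 - dv n p) := by
  unfold rg
  by_cases h : Rough X n
  · rw [if_pos h]
    symm
    apply Finset.prod_eq_one
    intro p hp
    unfold dv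
    rw [if_neg (h p hp), sub_zero]
  · rw [if_neg h]
    unfold Rough at h
    push Not at h
    obtain ⟨p, hp, hpn⟩ := h
    symm
    apply Finset.prod_eq_zero hp
    unfold dv
    rw [if_pos hpn, sub_self]

/-- `Lib/Sieve/Combi`: `bonferroni` for `r` and `r + 1` and `polyT_succ`: the difference has the sign of `(-1)^r` and changes sign after adding
`(-1)^(r+1) poly (cE (r+1))`. -/
theorem trunc_le (P : Finset ℕ) (f : ℕ → ℝ) (h0 : ∀ p ∈ P, 0 ≤ f p) (h1 : ∀ p ∈ P, f p ≤ 1) (r : ℕ) :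
    |poly (cT r) f P - ∏ p ∈ P, (1 - f p)| ≤ poly (cE (r + 1)) f P := by
  have h2 := Pool.Agent.Lib.Sieve.bonferroni f P h0 h1 r
  have h3 := Pool.Agent.Lib.Sieve.bonferroni f P h0 h1 (r + 1)
  rw [Pool.Agent.Lib.Sieve.polyT_succ] at h3
  rcases Nat.even_or_odd r with hr | hr
  · rw [hr.neg_one_pow] at h2
    rw [hr.add_one.neg_one_pow] at h3
    rw [abs_le]
    constructor <;> linarith
  · rw [hr.neg_one_pow] at h2
    rw [hr.add_one.neg_one_pow] at h3
    rw [abs_le]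
    constructor <;> linarith

theorem rg_trunc (X : ℕ) (n : ℤ) : |rg X n - TR X n| ≤ ER X n := by
  rw [rg_prod, abs_sub_comm]
  exact trunc_le (PS X) (dv n) (fun p _ => dv_nonneg n p) (fun p _ => dv_le_one n p) (rS X)

/-- The product of the indicators. -/
theorem dv_prod (n : ℤ) (D : Finset ℕ) (hD : ∀ p ∈ D, p.Prime) :
    ∏ p ∈ D, dv n p = if ((∏ p ∈ D, p : ℕ) : ℤ) ∣ n then 1 else 0 := by
  induction D using Finset.induction_on with
  | empty => simp
  | insert q D hq ih =>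
    rw [Finset.prod_insert hq, Finset.prod_insert hq, ih (fun p hp => hD p (mem_insert_of_mem hp))]
    have hcop : Nat.Coprime q (∏ p ∈ D, p) := by
      apply Nat.Coprime.prod_right
      intro p hp
      exact (Nat.coprime_primes (hD q (mem_insert_self q D)) (hD p (mem_insert_of_mem hp))).2
        (fun h => hq (h ▸ hp))
    have hcopZ : IsCoprime (q : ℤ) ((∏ p ∈ D, p : ℕ) : ℤ) := Nat.isCoprime_iff_coprime.2 hcop
    have key : (((q * ∏ p ∈ D, p : ℕ) : ℤ) ∣ n) ↔ ((q : ℤ) ∣ n ∧ ((∏ p ∈ D, p : ℕ) : ℤ) ∣ n) := by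
      rw [Nat.cast_mul]
      constructor
      · intro h
        exact ⟨(dvd_mul_right _ _).trans h, (dvd_mul_left _ _).trans h⟩
      · rintro ⟨h1, h2⟩
        exact hcopZ.mul_dvd h1 h2
    unfold dv
    by_cases h1 : (q : ℤ) ∣ n
    · by_cases h2 : ((∏ p ∈ D, p : ℕ) : ℤ) ∣ n
      · rw [if_pos h1, if_pos h2, if_pos (key.2 ⟨h1, h2⟩), one_mul]
      · rw [if_neg h2, if_neg (fun h => h2 (key.1 h).2), mul_zero]
    · rw [if_neg h1, if_neg (fun h => h1 (key.1 h).1), zero_mul]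

end Pool.Agent.H24W
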