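import Pool.Agent.Lib.H24W.BAS

/-!
# H24W, BON2: size of the truncated sums
-/

open Finset

namespace Pool.Agent.H24W

open Pool.Agent.H16U
open Pool.Agent.HUK (GG Bdd)
open Pool.Agent.H44W (ee)
open Pool.Agent.Lib.H68T (lp PC p0 Reg Good Exc sw)
open Pool.Agent.Lib.Sieve (poly cT cE cA)

private theorem BON2_harm (X : ℕ) (hX : 1 ≤ Real.log X) {P : Finset ℕ} (hP : P ⊆ PS X) :
    ∑ p ∈ P, 1 / (p : ℝ) ≤ 1 + (Real.log X) ^ (2 / 5 : ℝ) := by
  have h1 : ∑ p ∈ P, 1 / (p : ℝ) ≤ ∑ n ∈ Icc 1 (wS X), 1 / (n : ℝ) := by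
    refine sum_le_sum_of_subset_of_nonneg (fun p hp => ?_) fun n _ _ => by positivity
    have h2 := hP hp
    unfold PS at h2
    exact (mem_filter.1 h2).1
  have h3 : ∑ n ∈ Icc 1 (wS X), 1 / (n : ℝ) ≤ 1 + Real.log (wS X) := by
    have h4 := harmonic_le_one_add_log (wS X)
    rw [harmonic_eq_sum_Icc] at h4
    push_cast at h4
    simpa only [one_div] using h4
  have h5 : Real.log (wS X) ≤ (Real.log X) ^ (2 / 5 : ℝ) := by
    rcases Nat.eq_zero_or_pos (wS X) with h6 | h6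
    · rw [h6, Nat.cast_zero, Real.log_zero]
      exact Real.rpow_nonneg (by linarith) _
    · rw [Real.log_le_iff_le_exp (by exact_mod_cast h6)]
      exact wS_le X
  linarith

/-- `rankinE` (Lib/Sieve/Combi) with `m = rS X + 1`, `l = 8`: `poly ≤ 8^(-m) ∏ (1 + 8/p) ≤ exp (-2 m + 8 ∑_{p ∈ P} 1/p)` (`8 ≥ e^2`), and trivially
`∑_{p ∈ P} 1/p ≤ ∑_{n ≤ w} 1/n ≤ 1 + log w ≤ 1 + L^(2/5)`, `m ≥ L^(9/20)`; `8 (1 + L^(2/5)) ≤ L^(9/20)/2` for `X` large. -/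
theorem cE_small : ∃ X0 : ℕ, ∀ X : ℕ, X0 ≤ X → ∀ P ⊆ PS X,
    poly (cE (rS X + 1)) (fun p : ℕ => 1 / (p : ℝ)) P ≤ Real.exp (-(3 / 2 * (Real.log X) ^ (9 / 20 : ℝ))) := by
  obtain ⟨X1, hX1⟩ := big_pow (show (2 / 5 : ℝ) < 9 / 20 by norm_num) 32
  obtain ⟨X2, hX2⟩ := big_L 1
  refine ⟨max X1 X2, fun X hX P hP => ?_⟩
  have hL : 1 ≤ Real.log X := hX2 X (le_trans (le_max_right _ _) hX)
  have h32 := hX1 X (le_trans (le_max_left _ _) hX)
  have hS := BON2_harm X hL hP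
  have h1 := Pool.Agent.Lib.Sieve.rankinE (f := fun p : ℕ => 1 / (p : ℝ)) (Q := P)
    (fun p _ => by positivity) (rS X + 1) (l := 8) (by norm_num)
  have h2 : ∏ p ∈ P, (1 + 8 * (1 / (p : ℝ))) ≤ Real.exp (8 * ∑ p ∈ P, 1 / (p : ℝ)) := by
    rw [mul_sum, Real.exp_sum]
    refine prod_le_prod (fun p _ => by positivity) fun p _ => ?_
    rw [add_comm]
    exact Real.add_one_le_exp _
  have h8 : Real.exp (2 * ((rS X + 1 : ℕ) : ℝ)) ≤ 8 ^ (rS X + 1) := by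
    have h3 : Real.exp 2 ≤ 8 := by
      have h4 : Real.exp 2 = Real.exp 1 * Real.exp 1 := by
        rw [← Real.exp_add]; norm_num
      have h5 := Real.exp_one_lt_d9
      have h6 := Real.exp_pos 1
      rw [h4]
      nlinarith
    rw [mul_comm, Real.exp_nat_mul]
    exact pow_le_pow_left₀ (Real.exp_pos _).le h3 _
  have hm := lt_rS X
  have hpos : 0 < Real.exp (2 * ((rS X + 1 : ℕ) : ℝ)) := Real.exp_pos _
  have hone : 1 ≤ (Real.log X) ^ (2 / 5 : ℝ) := Real.one_le_rpow hL (by norm_num)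
  rcases le_or_gt (poly (cE (rS X + 1)) (fun p : ℕ => 1 / (p : ℝ)) P) 0 with hn | hn
  · exact hn.trans (Real.exp_pos _).le
  · have h9 : Real.exp (2 * ((rS X + 1 : ℕ) : ℝ)) *
        poly (cE (rS X + 1)) (fun p : ℕ => 1 / (p : ℝ)) P ≤
        Real.exp (8 * ∑ p ∈ P, 1 / (p : ℝ)) :=
      (mul_le_mul_of_nonneg_right h8 hn.le).trans (h1.trans h2)
    refine le_of_mul_le_mul_left (h9.trans ?_) hpos
    rw [← Real.exp_add]
    apply Real.exp_le_exp.2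
    push_cast
    linarith

/-- `rankinA` with `m = rS X + 1 ≤ 2 L^(9/20)`, parameter `wS X + 1`: `poly ≤ (wS X + 1)^m (1 + 1/(wS X + 1))^(card P) ≤ (wS X + 1)^m e`
(`card P ≤ wS X`), `wS X + 1 ≤ exp (2 L^(2/5))`: at most `exp (4 L^(17/20) + 1)`. -/
theorem cA_small : ∃ X0 : ℕ, ∀ X : ℕ, X0 ≤ X → ∀ P ⊆ PS X,
    poly (cA (rS X + 1)) (fun _ : ℕ => 1) P ≤ Real.exp (5 * (Real.log X) ^ (17 / 20 : ℝ)) := by
  obtain ⟨X2, hX2⟩ := big_L 1
  refine ⟨X2, fun X hX P hP => ?_⟩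
  have hL : 1 ≤ Real.log X := hX2 X hX
  have hW1 : (1 : ℝ) ≤ (wS X : ℝ) + 1 := by
    have : (0 : ℝ) ≤ (wS X : ℝ) := Nat.cast_nonneg _
    linarith
  have h1 := Pool.Agent.Lib.Sieve.rankinA (f := fun _ : ℕ => (1 : ℝ)) (Q := P)
    (fun p _ => by norm_num) (rS X + 1) hW1
  have hcard : (P.card : ℝ) ≤ (wS X : ℝ) + 1 := by
    have h2 : P.card ≤ (Icc 1 (wS X)).card := by
      refine card_le_card fun p hp => ?_
      have h2 := hP hp
      unfold PS at h2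
      exact (mem_filter.1 h2).1
    rw [Nat.card_Icc, Nat.add_sub_cancel] at h2
    have h3 : (P.card : ℝ) ≤ (wS X : ℝ) := by exact_mod_cast h2
    linarith
  have h2 : ∏ _p ∈ P, (1 + 1 / ((wS X : ℝ) + 1)) ≤ Real.exp 1 := by
    rw [prod_const]
    calc (1 + 1 / ((wS X : ℝ) + 1)) ^ P.card ≤ (Real.exp (1 / ((wS X : ℝ) + 1))) ^ P.card := by
          refine pow_le_pow_left₀ (by positivity) ?_ _
          rw [add_comm]
          exact Real.add_one_le_exp _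
      _ = Real.exp (P.card * (1 / ((wS X : ℝ) + 1))) := (Real.exp_nat_mul _ _).symm
      _ ≤ Real.exp 1 := by
          apply Real.exp_le_exp.2
          rw [mul_one_div]
          exact div_le_one_of_le₀ hcard (by linarith)
  have hone : 1 ≤ (Real.log X) ^ (2 / 5 : ℝ) := Real.one_le_rpow hL (by norm_num)
  have hone2 : 1 ≤ (Real.log X) ^ (9 / 20 : ℝ) := Real.one_le_rpow hL (by norm_num)
  have hone3 : 1 ≤ (Real.log X) ^ (17 / 20 : ℝ) := Real.one_le_rpow hL (by norm_num)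
  have hW : (wS X : ℝ) + 1 ≤ Real.exp (2 * (Real.log X) ^ (2 / 5 : ℝ)) := by
    have h3 := wS_le X
    have h4 : 2 ≤ Real.exp ((Real.log X) ^ (2 / 5 : ℝ)) := by
      have := Real.add_one_le_exp ((Real.log X) ^ (2 / 5 : ℝ))
      linarith
    rw [two_mul, Real.exp_add]
    nlinarith
  have hm : ((rS X + 1 : ℕ) : ℝ) ≤ 2 * (Real.log X) ^ (9 / 20 : ℝ) := by
    have := rS_le X
    push_cast
    linarith
  have hsplit : (Real.log X) ^ (9 / 20 : ℝ) * (Real.log X) ^ (2 / 5 : ℝ) =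
      (Real.log X) ^ (17 / 20 : ℝ) := by
    rw [← Real.rpow_add (by linarith)]
    norm_num
  have h3 : ((wS X : ℝ) + 1) ^ (rS X + 1) ≤ Real.exp (4 * (Real.log X) ^ (17 / 20 : ℝ)) := by
    calc ((wS X : ℝ) + 1) ^ (rS X + 1)
        ≤ (Real.exp (2 * (Real.log X) ^ (2 / 5 : ℝ))) ^ (rS X + 1) :=
          pow_le_pow_left₀ (by linarith) hW _
      _ = Real.exp (((rS X + 1 : ℕ) : ℝ) * (2 * (Real.log X) ^ (2 / 5 : ℝ))) :=
          (Real.exp_nat_mul _ _).symm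
      _ ≤ Real.exp (4 * (Real.log X) ^ (17 / 20 : ℝ)) := by
          apply Real.exp_le_exp.2
          calc ((rS X + 1 : ℕ) : ℝ) * (2 * (Real.log X) ^ (2 / 5 : ℝ))
              ≤ (2 * (Real.log X) ^ (9 / 20 : ℝ)) * (2 * (Real.log X) ^ (2 / 5 : ℝ)) :=
                mul_le_mul_of_nonneg_right hm (by linarith)
            _ = 4 * ((Real.log X) ^ (9 / 20 : ℝ) * (Real.log X) ^ (2 / 5 : ℝ)) := by ring
            _ = 4 * (Real.log X) ^ (17 / 20 : ℝ) := by rw [hsplit]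
  calc poly (cA (rS X + 1)) (fun _ : ℕ => 1) P
      ≤ ((wS X : ℝ) + 1) ^ (rS X + 1) * ∏ _p ∈ P, (1 + 1 / ((wS X : ℝ) + 1)) := h1
    _ ≤ Real.exp (4 * (Real.log X) ^ (17 / 20 : ℝ)) * Real.exp 1 :=
        mul_le_mul h3 h2 (prod_nonneg fun _ _ => by positivity) (Real.exp_pos _).le
    _ = Real.exp (4 * (Real.log X) ^ (17 / 20 : ℝ) + 1) := (Real.exp_add _ _).symm
    _ ≤ Real.exp (5 * (Real.log X) ^ (17 / 20 : ℝ)) := by
        apply Real.exp_le_exp.2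
        linarith

end Pool.Agent.H24W
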