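import Pool.Agent.Lib.H24W.BAS
import Pool.Agent.Lib.Sieve.CRT

/-!
# H24W, CLS: counting in classes
-/

open Finset

namespace Pool.Agent.H24W

open Pool.Agent.H16U
open Pool.Agent.HUK (GG Bdd)
open Pool.Agent.H44W (ee)
open Pool.Agent.Lib.H68T (lp PC p0 Reg Good Exc sw)
open Pool.Agent.Lib.Sieve (poly cT cE cA)

private lemma cls_sum (u : ℕ) (g : ℤ → ℝ) :
    ∑ v ∈ Finset.Ico (1 : ℤ) (1 + (u : ℤ)), g v = ∑ n ∈ Icc 1 u, g (n : ℤ) := by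
  symm
  refine Finset.sum_nbij (fun n : ℕ => (n : ℤ)) ?_ ?_ ?_ ?_
  · intro n hn
    rw [mem_Icc] at hn
    rw [mem_Ico]
    omega
  · intro a _ b _ h
    exact Int.ofNat_inj.mp h
  · intro v hv
    rw [mem_coe, mem_Ico] at hv
    refine ⟨v.toNat, ?_, ?_⟩
    · rw [mem_coe, mem_Icc]
      omega
    · exact Int.toNat_of_nonneg (by omega)
  · intro n _
    rfl

private lemma cls_chi (p : ℕ) (v : ℤ) :
    Pool.Agent.Lib.Sieve.chi (fun _ => {0}) p v = dv v p := by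
  unfold Pool.Agent.Lib.Sieve.chi dv
  by_cases h : (p : ℤ) ∣ v
  · rw [if_pos h, if_pos]
    rw [mem_singleton]
    exact (CharP.intCast_eq_zero_iff (ZMod p) p v).mpr h
  · rw [if_neg h, if_neg]
    rw [mem_singleton]
    exact fun h' => h ((CharP.intCast_eq_zero_iff (ZMod p) p v).mp h')

/-- `Sieve.count_classes` (Lib/Sieve/CRT) with `Ω p = {0}`, `a = 1`, `M = u`, `E = D`, `c = b`; `chi Ω p n = dv n p`; transfer the sum over
`Ico (1:ℤ) (1 + u)` to `cl u q b`. -/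
theorem cl_div (u q : ℕ) (hq : 1 ≤ q) (b : ℤ) (D : Finset ℕ) (hD : ∀ p ∈ D, p.Prime) (hDq : ∀ p ∈ D, ¬ p ∣ q) :
    |∑ n ∈ cl u q b, ∏ p ∈ D, dv n p - (u : ℝ) / q * ∏ p ∈ D, 1 / (p : ℝ)| ≤ 1 := by
  have h := Pool.Agent.Lib.Sieve.count_classes (fun _ => {0}) 1 u D hD q hq hDq b
  simp only [card_singleton, Nat.cast_one, prod_const_one] at h
  have e : ∑ n ∈ cl u q b, ∏ p ∈ D, dv n p =
      ∑ v ∈ Finset.Ico (1 : ℤ) (1 + (u : ℤ)), (if v ≡ b [ZMOD q] then (1 : ℝ) else 0) *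
        ∏ p ∈ D, Pool.Agent.Lib.Sieve.chi (fun _ => {0}) p v := by
    rw [cls_sum u (fun v => (if v ≡ b [ZMOD q] then (1 : ℝ) else 0) *
        ∏ p ∈ D, Pool.Agent.Lib.Sieve.chi (fun _ => {0}) p v)]
    unfold cl
    rw [sum_filter]
    refine sum_congr rfl fun n _ => ?_
    simp only [cls_chi]
    by_cases hn : (n : ℤ) ≡ b [ZMOD q]
    · rw [if_pos hn, if_pos hn, one_mul]
    · rw [if_neg hn, if_neg hn, zero_mul]
  rw [e]
  exact h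

/-- Sum `cl_div` over all `D ⊆ P` with the coefficients `a D`. -/
theorem cl_poly (u q : ℕ) (hq : 1 ≤ q) (b : ℤ) (P : Finset ℕ) (hP : ∀ p ∈ P, p.Prime) (hPq : ∀ p ∈ P, ¬ p ∣ q)
    (a : Finset ℕ → ℝ) (m : ℕ) (ha : ∀ D, |a D| ≤ cA m D) :
    |∑ n ∈ cl u q b, poly a (dv n) P - (u : ℝ) / q * poly a (fun p : ℕ => 1 / (p : ℝ)) P| ≤ poly (cA m) (fun _ => 1) P := by
  unfold poly
  rw [sum_comm, mul_sum, ← sum_sub_distrib]
  refine (abs_sum_le_sum_abs _ _).trans (sum_le_sum fun D hD => ?_)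
  have hDP := mem_powerset.mp hD
  have h := cl_div u q hq b D (fun p hp => hP p (hDP hp)) (fun p hp => hPq p (hDP hp))
  have e : ∑ n ∈ cl u q b, a D * ∏ p ∈ D, dv n p - (u : ℝ) / q * (a D * ∏ p ∈ D, 1 / (p : ℝ)) =
      a D * (∑ n ∈ cl u q b, ∏ p ∈ D, dv n p - (u : ℝ) / q * ∏ p ∈ D, 1 / (p : ℝ)) := by
    rw [mul_sub, mul_sum]
    ring
  rw [e, abs_mul, prod_const_one, mul_one]
  calc |a D| * |∑ n ∈ cl u q b, ∏ p ∈ D, dv n p - (u : ℝ) / q * ∏ p ∈ D, 1 / (p : ℝ)|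
      ≤ |a D| * 1 := mul_le_mul_of_nonneg_left h (abs_nonneg _)
    _ = |a D| := mul_one _
    _ ≤ cA m D := ha D

end Pool.Agent.H24W
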