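import Pool.Agent.Lib.H24W.BAS

/-!
# H24W, COS: a primitive character has mean zero on cosets
-/

open Finset

namespace Pool.Agent.H24W

open Pool.Agent.H16U
open Pool.Agent.HUK (GG Bdd)
open Pool.Agent.H44W (ee)
open Pool.Agent.Lib.H68T (lp PC p0 Reg Good Exc sw)
open Pool.Agent.Lib.Sieve (poly cT cE cA)

/-- A natural number `d`, coprime to `q r`, `≡ 1 (q)`, with `ψ(d) ≠ 1`. -/
private theorem cos_unit (r : ℕ) (hr : 1 ≤ r) (ψ : DirichletCharacter ℂ r)
    (hψ : ψ.IsPrimitive) (q : ℕ) (h : ¬ r ∣ q) :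
    ∃ d : ℕ, Nat.Coprime d (q * r) ∧ d ≡ 1 [MOD q] ∧ ψ (d : ZMod r) ≠ 1 := by
  have : NeZero r := ⟨by omega⟩
  have hd : Nat.gcd r q ∣ r := Nat.gcd_dvd_left r q
  have hlt : Nat.gcd r q < r := by
    refine lt_of_le_of_ne (Nat.le_of_dvd (by omega) hd) fun h1 => h ?_
    rw [← h1]
    exact Nat.gcd_dvd_right r q
  have hnf : ¬ ψ.FactorsThrough (Nat.gcd r q) := by
    intro hf
    have h1 : ψ.conductor ≤ Nat.gcd r q := Nat.sInf_le hf
    rw [hψ] at h1
    omega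
  rw [DirichletCharacter.factorsThrough_iff_ker_unitsMap hd] at hnf
  obtain ⟨a, ha1, ha2⟩ := SetLike.not_le_iff_exists.mp hnf
  rw [MonoidHom.mem_ker] at ha1 ha2
  -- the residue of `a`
  set n : ℕ := (a : ZMod r).val with hn
  have hna : ((n : ℕ) : ZMod r) = a := ZMod.natCast_zmod_val _
  have hmod : n ≡ 1 [MOD Nat.gcd r q] := by
    have h1 := congrArg Units.val ha1
    rw [ZMod.unitsMap_val, Units.val_one, ← hna] at h1
    have h2 : ((n : ℕ) : ZMod (Nat.gcd r q)) = ((1 : ℕ) : ZMod (Nat.gcd r q)) := by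
      rw [ZMod.cast_natCast hd] at h1
      rw [h1, Nat.cast_one]
    exact (ZMod.natCast_eq_natCast_iff _ _ _).mp h2
  obtain ⟨d, hd1, hd2⟩ := Nat.chineseRemainder' hmod
  have hda : ((d : ℕ) : ZMod r) = a := by
    rw [← hna]
    exact (ZMod.natCast_eq_natCast_iff _ _ _).mpr hd1
  refine ⟨d, ?_, hd2, ?_⟩
  · refine Nat.Coprime.mul_right ?_ ?_
    · have h1 : Nat.gcd d q = Nat.gcd 1 q := hd2.gcd_eq
      rw [Nat.gcd_one_left] at h1
      exact h1
    · rw [← ZMod.isUnit_iff_coprime, hda]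
      exact a.isUnit
  · intro h1
    apply ha2
    rw [hda] at h1
    rw [Units.ext_iff, MulChar.coe_toUnitHom, Units.val_one]
    exact h1

/-- Let `d₀ = gcd q r < r`, `d₀ ∣ r`. Primitivity: `ψ` does not factor through `d₀` (`DirichletCharacter.mem_conductorSet_iff`, conductor `= r` is the
minimum), so by `DirichletCharacter.factorsThrough_iff_ker_unitsMap` there is a unit `a` mod `r`, `a ≡ 1 (d₀)`, `ψ(a) ≠ 1`. There is an integer `d` with
`d ≡ a (r)`, `d ≡ 1 (q)` (solvable since `a ≡ 1 (gcd)`); `d` is coprime to `q r`. `c ↦ c d` permutes the classes mod `q r` which are `≡ b (q)`, so the sum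
`T` satisfies `T = ψ(d) T`, `T = 0`. (Work in `ZMod (q r)` or with `Function.Periodic`.) -/
theorem coset_zero (r : ℕ) (hr : 1 ≤ r) (ψ : DirichletCharacter ℂ r) (hψ : ψ.IsPrimitive) (q : ℕ) (hq : 1 ≤ q)
    (h : ¬ r ∣ q) (b : ℤ) :
    ∑ c ∈ (range (q * r)).filter (fun c : ℕ => (c : ℤ) ≡ b [ZMOD q]), ψ (c : ZMod r) = 0 := by
  obtain ⟨d, hd1, hd2, hd3⟩ := cos_unit r hr ψ hψ q h
  set S : Finset ℕ := (range (q * r)).filter (fun c : ℕ => (c : ℤ) ≡ b [ZMOD q]) with hS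
  have hN : 0 < q * r := Nat.mul_pos (by omega) (by omega)
  set g : ℕ → ℕ := fun c => (c * d) % (q * r) with hg
  have hmaps : ∀ c ∈ S, g c ∈ S := by
    intro c hc
    rw [hS, mem_filter, mem_range] at hc ⊢
    refine ⟨Nat.mod_lt _ hN, ?_⟩
    have h1 : (g c) ≡ c [MOD q] := by
      have h2 : (c * d) % (q * r) ≡ c * d [MOD q] :=
        (Nat.mod_modEq (c * d) (q * r)).of_dvd (Nat.dvd_mul_right q r)
      have h3 : c * d ≡ c * 1 [MOD q] := hd2.mul_left c
      rw [mul_one] at h3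
      exact h2.trans h3
    have h4 : ((g c : ℕ) : ℤ) ≡ (c : ℤ) [ZMOD q] := (Int.natCast_modEq_iff).mpr h1
    exact h4.trans hc.2
  have hinj : Set.InjOn g (S : Set ℕ) := by
    intro c hc c' hc' hcc
    rw [mem_coe, hS, mem_filter, mem_range] at hc hc'
    have h1 : c * d ≡ c' * d [MOD q * r] := hcc
    have h2 : c ≡ c' [MOD q * r] := Nat.ModEq.cancel_right_of_coprime
      (by rw [Nat.gcd_comm]; exact hd1) h1
    exact Nat.ModEq.eq_of_lt_of_lt h2 hc.1 hc'.1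
  have hsurj : Set.SurjOn g (S : Set ℕ) (S : Set ℕ) :=
    Finset.surjOn_of_injOn_of_card_le g (fun c hc => hmaps c hc) hinj le_rfl
  have hT : ∑ c ∈ S, ψ (d : ZMod r) * ψ (c : ZMod r) = ∑ c ∈ S, ψ (c : ZMod r) := by
    refine Finset.sum_nbij g hmaps hinj hsurj fun c _ => ?_
    have h1 : ((g c : ℕ) : ZMod r) = (c : ZMod r) * (d : ZMod r) := by
      have h2 : (c * d) % (q * r) ≡ c * d [MOD r] :=
        (Nat.mod_modEq (c * d) (q * r)).of_dvd (Nat.dvd_mul_left r q)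
      have h3 := (ZMod.natCast_eq_natCast_iff _ _ _).mpr h2
      rw [← Nat.cast_mul]
      exact h3
    rw [h1, map_mul, mul_comm]
  rw [← Finset.mul_sum] at hT
  have h5 : (ψ (d : ZMod r) - 1) * ∑ c ∈ S, ψ (c : ZMod r) = 0 := by
    rw [sub_mul, one_mul, hT, sub_self]
  rcases mul_eq_zero.mp h5 with h6 | h6
  · exact absurd (sub_eq_zero.mp h6) hd3
  · exact h6

end Pool.Agent.H24W
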