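import Pool.Agent.Lib.H24W.BAS
import Pool.Agent.Lib.H68T.PAGE1

/-!
# H24W, DICH: at most one exceptional character
-/

open Finset

namespace Pool.Agent.H24W

open Pool.Agent.H16U
open Pool.Agent.HUK (GG Bdd)
open Pool.Agent.H44W (ee)
open Pool.Agent.Lib.H68T (lp PC p0 Reg Good Exc sw)
open Pool.Agent.Lib.Sieve (poly cT cE cA)

/-- Landau-Page dichotomy: `H68T.page` (H68T/PAGE1; `c₀` from there; `c ≤ c₀` enlarges nothing). If `Good c Q` fails there are `r, ψ, σ` with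
`σ ≤ 1`, `L(σ, ψ) = 0`, and `σ ≠ 1` (`DirichletCharacter.LFunction_apply_one_ne_zero`), so `Exc c Q r ψ σ`; any other real primitive
character with a zero in `[1 - c/log Q, 1]` contradicts `page`. -/
theorem dich : ∃ c₀ K : ℝ, 0 < c₀ ∧ ∀ c : ℝ, 0 < c → c ≤ c₀ → ∀ Q : ℕ, K ≤ Q → Good c Q ∨
    ∃ (r : ℕ) (_ : NeZero r) (ψ : DirichletCharacter ℂ r) (β : ℝ), Exc c Q r ψ β ∧
      ∀ (r' : ℕ) [NeZero r'] (ψ' : DirichletCharacter ℂ r'), r' ≤ Q → ψ'.IsPrimitive → ψ' ≠ 1 → ψ' ^ 2 = 1 →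
        (⟨r', ψ'⟩ : Σ r : ℕ, DirichletCharacter ℂ r) ≠ ⟨r, ψ⟩ →
        ∀ σ : ℝ, 1 - c / Real.log Q ≤ σ → σ ≤ 1 → ψ'.LFunction (σ : ℂ) ≠ 0 := by
  obtain ⟨c₀, K, hc₀, hpage⟩ := Pool.Agent.Lib.H68T.page
  refine ⟨c₀, max K 3, hc₀, fun c hc hcc Q hQ => ?_⟩
  have hK : K ≤ Q := (le_max_left _ _).trans hQ
  have h3 : (3 : ℝ) ≤ Q := (le_max_right _ _).trans hQ
  have hlog : 0 < Real.log Q := Real.log_pos (by linarith)
  have hdiv : c / Real.log Q ≤ c₀ / Real.log Q := div_le_div_of_nonneg_right hcc hlog.le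
  by_cases hG : Good c Q
  · exact Or.inl hG
  right
  unfold Good at hG
  push Not at hG
  obtain ⟨r, hr, ψ, hrQ, hprim, hne, hsq, σ, hσ, hσ1, hz⟩ := hG
  refine ⟨r, hr, ψ, σ, ⟨hrQ, hprim, hne, hsq, hσ, ?_, hz⟩, ?_⟩
  · refine lt_of_le_of_ne hσ1 ?_
    rintro rfl
    rw [Complex.ofReal_one] at hz
    exact DirichletCharacter.LFunction_apply_one_ne_zero hne hz
  · intro r' _ ψ' hr' hp' hn' hs' hd τ hτ hτ1 hz'
    exact hpage Q hK r' r ψ' ψ hr' hrQ hp' hprim hn' hne hs' hsq hd τ σ (by linarith) hτ1 (by linarith) hσ1 hz' hz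

end Pool.Agent.H24W
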