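import Pool.Agent.Lib.H16U.Defs
import Pool.Agent.Lib.H68X.XDefs
import Pool.Agent.Lib.Sieve.Combi

/-!
# Project H24W: the base case of THEOREM U (the primes minus the sieve model have small exponential sums)

Everything is about `wS X`, `PS X`, `cS X`, `Rough X`, `mdl X e` of `H16U/Defs.lean`. `L = log X`. `PROOF.md` has the plan.
-/

open Finset

namespace Pool.Agent.H24W

open Pool.Agent.H16U
open Pool.Agent.Lib.H68T (lp PC p0)
open Pool.Agent.Lib.Sieve (poly cT cE cA)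

noncomputable section

/-- The exceptional character and its zero; `x = 1` if there is one, otherwise `x = 0` (and `q = 1`). -/
structure EX where
  x : ℝ
  q : ℕ
  ψ : DirichletCharacter ℂ q
  β : ℝ

/-- The exceptional data in the form of `H16U`. -/
def EX.toE (e : EX) : EData := ⟨e.q, fun n => e.x * (e.ψ (n : ZMod e.q)).re, e.β⟩

/-- The pair of the conductor and the exceptional character. -/
def EX.pr (e : EX) : Σ r : ℕ, DirichletCharacter ℂ r := ⟨e.q, e.ψ⟩

/-- The properties of the exceptional data. -/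
structure EX.Ok (c : ℝ) (e : EX) : Prop where
  q_pos : 1 ≤ e.q
  x01 : e.x = 0 ∨ e.x = 1
  prim : e.ψ.IsPrimitive
  ne : e.x = 1 → e.ψ ≠ 1
  sq : e.ψ ^ 2 = 1
  half : 1 / 2 ≤ e.β
  lt : e.β < 1
  low : c / (e.q : ℝ) ^ 2 ≤ 1 - e.β
  one : e.x = 0 → e.q = 1

/-- No exceptional character. -/
def EX.none : EX := ⟨0, 1, 1, 1 / 2⟩

open Classical in
/-- The density of the main term of the sums over the primitive character `p`. -/
def EX.mt (e : EX) (p : Σ r : ℕ, DirichletCharacter ℂ r) (m : ℕ) : ℝ :=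
  (if p = p0 then 1 else 0) - (if e.x = 1 ∧ p = e.pr then (m : ℝ) ^ (e.β - 1) else 0)

/-- All sums over primitive characters of conductor up to `Q` are known up to `E`, for the lengths up to `X`. -/
def PsiOk (Q X : ℕ) (E : ℝ) (e : EX) : Prop :=
  ∀ p ∈ PC Q, ∀ u : ℕ, u ≤ X →
    ‖∑ m ∈ Icc 1 u, ((ArithmeticFunction.vonMangoldt m : ℂ) * p.2 (m : ZMod p.1) - ((e.mt p m : ℝ) : ℂ))‖ ≤ E

/-- The density of the primes in the reduced residue class `b` modulo `q`. -/
def EX.mc (e : EX) (q : ℕ) (b : ℤ) (m : ℕ) : ℝ :=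
  (1 - (if e.q ∣ q then e.x * (e.ψ (b : ZMod e.q)).re * (m : ℝ) ^ (e.β - 1) else 0)) / (Nat.totient q : ℝ)

/-- The natural numbers `1, …, u` congruent to `b` modulo `q`. -/
def cl (u q : ℕ) (b : ℤ) : Finset ℕ := (Icc 1 u).filter fun n : ℕ => (n : ℤ) ≡ b [ZMOD q]

open Classical in
/-- The main term of the sum over `cl u q b`. -/
def EX.M (e : EX) (u q : ℕ) (b : ℤ) : ℝ := if IsCoprime b (q : ℤ) then ∑ m ∈ Icc 1 u, e.mc q b m else 0

open Classical in
/-- Indicator function of the numbers free of primes up to `w`. -/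
def rg (X : ℕ) (n : ℤ) : ℝ := if Rough X n then 1 else 0

/-- Indicator function of `p ∣ n`. -/
def dv (n : ℤ) (p : ℕ) : ℝ := if (p : ℤ) ∣ n then 1 else 0

/-- The number of prime factors at which the sieve is truncated. -/
def rS (X : ℕ) : ℕ := ⌊(Real.log X) ^ (9 / 20 : ℝ)⌋₊

/-- The truncated sieve. -/
def TR (X : ℕ) (n : ℤ) : ℝ := poly (cT (rS X)) (dv n) (PS X)

/-- The error of the truncation. -/
def ER (X : ℕ) (n : ℤ) : ℝ := poly (cE (rS X + 1)) (dv n) (PS X)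

/-- `θ` is on a major arc: within `Q/X` of a fraction with denominator up to `Q`. -/
def Maj (Q : ℝ) (X : ℕ) (θ : ℝ) : Prop :=
  ∃ (q : ℕ) (a : ℤ), 1 ≤ q ∧ (q : ℝ) ≤ Q ∧ |θ - a / q| ≤ Q / X

/-- A good rational approximation with denominator in `(R, N]`. -/
def Mnr (R N : ℝ) (θ : ℝ) : Prop :=
  ∃ (q : ℕ) (a : ℤ), 1 ≤ q ∧ IsCoprime a (q : ℤ) ∧ R < q ∧ (q : ℝ) ≤ N ∧ |θ - a / q| ≤ 1 / (q : ℝ) ^ 2

/-- The possible savings, depending on the exceptional data. -/
def Alt (X : ℕ) (e : EX) (s : ℝ) : Prop :=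
  (e.x = 0 ∧ s = (Real.log X) ^ (19 / 100 : ℝ)) ∨
    (s = (Real.log X) ^ (19 / 50 : ℝ) ∧ (e.q : ℝ) ≤ Real.exp ((Real.log X) ^ (1 / 5 : ℝ)))

end

end Pool.Agent.H24W
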