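import Pool.Agent.Lib.H24W.BON2
import Pool.Agent.Lib.H24W.CLS

/-!
# H24W, ERM: the mean of the truncation error
-/

open Finset

namespace Pool.Agent.H24W

open Pool.Agent.H16U
open Pool.Agent.HUK (GG Bdd)
open Pool.Agent.H44W (ee)
open Pool.Agent.Lib.H68T (lp PC p0 Reg Good Exc sw)
open Pool.Agent.Lib.Sieve (poly cT cE cA)

/-- `cl_poly` with `q = 1`, `b = 0`, `a = cE (r+1)`, `u = X` (`cl X 1 0 = Icc 1 X`), `cE_small`, `cA_small`. -/
theorem er_mean : ∃ X0 : ℕ, ∀ X : ℕ, X0 ≤ X →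
    ∑ n ∈ Icc 1 X, ER X (n : ℤ) ≤ X * Real.exp (-(Real.log X) ^ (9 / 20 : ℝ)) := by
  obtain ⟨X1, h1⟩ := cE_small
  obtain ⟨X2, h2⟩ := cA_small
  obtain ⟨X3, h3⟩ := big_pow (a := 17 / 20) (b := 1) (by norm_num) 10
  obtain ⟨X4, h4⟩ := big_pow (a := 0) (b := 9 / 20) (by norm_num) 2
  obtain ⟨X5, h5⟩ := big_L 1
  refine ⟨max 1 (max X1 (max X2 (max X3 (max X4 X5)))), fun X hX => ?_⟩
  have g0 : 1 ≤ X := (le_max_left _ _).trans hX
  have hX' := (le_max_right _ _).trans hX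
  have g1 : X1 ≤ X := (le_max_left _ _).trans hX'
  have hX'' := (le_max_right _ _).trans hX'
  have g2 : X2 ≤ X := (le_max_left _ _).trans hX''
  have hX3 := (le_max_right _ _).trans hX''
  have g3 : X3 ≤ X := (le_max_left _ _).trans hX3
  have hX4 := (le_max_right _ _).trans hX3
  have g4 : X4 ≤ X := (le_max_left _ _).trans hX4
  have g5 : X5 ≤ X := (le_max_right _ _).trans hX4
  have k1 := h1 X g1 (PS X) (Subset.refl _)
  have k2 := h2 X g2 (PS X) (Subset.refl _)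
  have k3 := h3 X g3
  have k4 := h4 X g4
  have k5 := h5 X g5
  rw [Real.rpow_one] at k3
  rw [Real.rpow_zero] at k4
  set L := Real.log (X : ℝ) with hL
  have hcl : cl X 1 0 = Icc 1 X := by
    ext n
    rw [mem_cl, mem_Icc]
    constructor
    · exact fun h => h.1
    · intro h
      refine ⟨h, ?_⟩
      rw [Nat.cast_one]
      exact Int.modEq_one
  have hP : ∀ p ∈ PS X, p.Prime := fun p hp => (mem_PS.mp hp).1
  have k6 := cl_poly X 1 le_rfl 0 (PS X) hP (fun p hp => (hP p hp).not_dvd_one)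
    (cE (rS X + 1)) (rS X + 1) (by
      intro D
      unfold cE cA
      split_ifs with a1 a2 a2
      · simp
      · exact absurd a1.le a2
      · simp
      · simp)
  rw [hcl] at k6
  have k7 := (abs_le.mp k6).2
  have hXR : (0 : ℝ) < X := by exact_mod_cast g0
  rw [Nat.cast_one, div_one] at k7
  have k8 : ∑ n ∈ Icc 1 X, ER X (n : ℤ) ≤ (X : ℝ) * Real.exp (-(3 / 2 * L ^ (9 / 20 : ℝ))) +
      Real.exp (5 * L ^ (17 / 20 : ℝ)) := by
    have k9 : (X : ℝ) * poly (cE (rS X + 1)) (fun p : ℕ => 1 / (p : ℝ)) (PS X) ≤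
        (X : ℝ) * Real.exp (-(3 / 2 * L ^ (9 / 20 : ℝ))) := mul_le_mul_of_nonneg_left k1 hXR.le
    unfold ER
    linarith
  refine k8.trans ?_
  have m1 : L ^ (9 / 20 : ℝ) ≤ L ^ (17 / 20 : ℝ) :=
    Real.rpow_le_rpow_of_exponent_le k5 (by norm_num)
  have m2 : (1 : ℝ) ≤ L ^ (17 / 20 : ℝ) := Real.one_le_rpow k5 (by norm_num)
  have m3 : Real.exp (-(3 / 2 * L ^ (9 / 20 : ℝ))) ≤ Real.exp (-L ^ (9 / 20 : ℝ)) / 2 := by
    have e1 : Real.exp (-(3 / 2 * L ^ (9 / 20 : ℝ))) =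
        Real.exp (-L ^ (9 / 20 : ℝ)) * Real.exp (-(1 / 2 * L ^ (9 / 20 : ℝ))) := by
      rw [← Real.exp_add]
      congr 1
      ring
    have e2 : Real.exp (-(1 / 2 * L ^ (9 / 20 : ℝ))) ≤ 1 / 2 := by
      have e3 : Real.exp (-(1 / 2 * L ^ (9 / 20 : ℝ))) ≤ Real.exp (-1) :=
        Real.exp_le_exp.mpr (by linarith)
      have e4 : Real.exp (-1) ≤ 1 / 2 := by
        rw [Real.exp_neg, one_div]
        exact inv_anti₀ (by norm_num) (by linarith [Real.add_one_le_exp (1 : ℝ)])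
      exact e3.trans e4
    rw [e1]
    have := mul_le_mul_of_nonneg_left e2 (Real.exp_pos (-L ^ (9 / 20 : ℝ))).le
    linarith
  have m4 : Real.exp (5 * L ^ (17 / 20 : ℝ)) ≤ (X : ℝ) * (Real.exp (-L ^ (9 / 20 : ℝ)) / 2) := by
    have e1 : (X : ℝ) = Real.exp L := X_exp g0
    have e2 : (2 : ℝ) ≤ Real.exp 1 := by linarith [Real.add_one_le_exp (1 : ℝ)]
    have e3 : Real.exp (5 * L ^ (17 / 20 : ℝ)) * 2 ≤ Real.exp L * Real.exp (-L ^ (9 / 20 : ℝ)) := by
      calc Real.exp (5 * L ^ (17 / 20 : ℝ)) * 2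
          ≤ Real.exp (5 * L ^ (17 / 20 : ℝ)) * Real.exp 1 :=
            mul_le_mul_of_nonneg_left e2 (Real.exp_pos _).le
        _ = Real.exp (5 * L ^ (17 / 20 : ℝ) + 1) := by rw [Real.exp_add]
        _ ≤ Real.exp (L + -L ^ (9 / 20 : ℝ)) := Real.exp_le_exp.mpr (by linarith)
        _ = Real.exp L * Real.exp (-L ^ (9 / 20 : ℝ)) := by rw [Real.exp_add]
    rw [e1]
    linarith
  have m5 := mul_le_mul_of_nonneg_left m3 hXR.le
  linarith

end Pool.Agent.H24W
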