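import Pool.Agent.Lib.H24W.BAS

/-!
# H24W, FEX: finite Fourier expansion
-/

open Finset

namespace Pool.Agent.H24W

open Pool.Agent.H16U
open Pool.Agent.HUK (GG Bdd)
open Pool.Agent.H44W (ee)
open Pool.Agent.Lib.H68T (lp PC p0 Reg Good Exc sw)
open Pool.Agent.Lib.Sieve (poly cT cE cA)

/-- `c b = (1/r) ∑_{y ∈ range r} f(y) ee(-(b y)/r)`; `ee_orth` (H44W/E1). -/
theorem four_expand (r : ℕ) (hr : 1 ≤ r) (f : ZMod r → ℂ) (hf : ∀ x, ‖f x‖ ≤ 1) :
    ∃ c : ℕ → ℂ, (∀ b, ‖c b‖ ≤ 1) ∧ ∀ n : ℕ, f (n : ZMod r) = ∑ b ∈ range r, c b * ee ((b : ℝ) / r * n) := by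
  have hr0 : (0 : ℝ) < r := by exact_mod_cast hr
  have hrc : (r : ℂ) ≠ 0 := by
    have h0 : r ≠ 0 := by omega
    exact_mod_cast h0
  have hee : ∀ x : ℝ, ‖ee x‖ = 1 := by
    intro x
    have h1 : ee x = Complex.exp (((2 * Real.pi * x : ℝ) : ℂ) * Complex.I) := by
      unfold ee
      push_cast
      rfl
    rw [h1, Complex.norm_exp_ofReal_mul_I]
  refine ⟨fun b => (r : ℂ)⁻¹ * ∑ y ∈ range r, f (y : ZMod r) * ee (-((b : ℝ) * y / r)),
    fun b => ?_, fun n => ?_⟩
  · have h1 : ‖∑ y ∈ range r, f (y : ZMod r) * ee (-((b : ℝ) * y / r))‖ ≤ r := by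
      refine (norm_sum_le _ _).trans ?_
      refine (Finset.sum_le_sum (g := fun _ => (1 : ℝ)) ?_).trans ?_
      · intro y _
        rw [norm_mul, hee, mul_one]
        exact hf _
      · simp
    rw [norm_mul, norm_inv, Complex.norm_natCast, inv_mul_le_iff₀ hr0, mul_one]
    exact h1
  · have h2 : ∀ b ∈ range r,
        (r : ℂ)⁻¹ * (∑ y ∈ range r, f (y : ZMod r) * ee (-((b : ℝ) * y / r))) *
          ee ((b : ℝ) / r * n) =
        ∑ y ∈ range r, (r : ℂ)⁻¹ *
          (f (y : ZMod r) * ee ((b : ℝ) * (((n : ℤ) - (y : ℤ) : ℤ) : ℝ) / r)) := by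
      intro b _
      rw [mul_assoc, Finset.sum_mul, Finset.mul_sum]
      refine Finset.sum_congr rfl fun y _ => ?_
      rw [mul_assoc (f _), ← Pool.Agent.H44W.ee_add]
      have h5 : -((b : ℝ) * y / r) + (b : ℝ) / r * n =
          (b : ℝ) * (((n : ℤ) - (y : ℤ) : ℤ) : ℝ) / r := by
        push_cast
        ring
      rw [h5]
    have h3 : ∀ y ∈ range r, ∑ b ∈ range r, (r : ℂ)⁻¹ *
          (f (y : ZMod r) * ee ((b : ℝ) * (((n : ℤ) - (y : ℤ) : ℤ) : ℝ) / r)) =
        if y = n % r then f (y : ZMod r) else 0 := by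
      intro y hy
      have hyr : y < r := Finset.mem_range.1 hy
      rw [← Finset.mul_sum, ← Finset.mul_sum, Pool.Agent.H44W.ee_orth r hr]
      by_cases h : (r : ℤ) ∣ (n : ℤ) - y
      · have h6 : y = n % r := by
          have h7 : n ≡ y [MOD r] := by
            rw [← Int.natCast_modEq_iff]
            exact (Int.modEq_iff_dvd.2 h).symm
          have h8 : n % r = y % r := h7
          rw [Nat.mod_eq_of_lt hyr] at h8
          exact h8.symm
        rw [if_pos h, if_pos h6]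
        field_simp
      · have h6 : y ≠ n % r := by
          intro h7
          apply h
          rw [h7]
          push_cast
          exact (Int.mod_modEq _ _).dvd
        rw [if_neg h, if_neg h6]
        simp
    change f (n : ZMod r) = ∑ b ∈ range r,
      (r : ℂ)⁻¹ * (∑ y ∈ range r, f (y : ZMod r) * ee (-((b : ℝ) * y / r))) *
          ee ((b : ℝ) / r * n)
    rw [Finset.sum_congr rfl h2, Finset.sum_comm, Finset.sum_congr rfl h3, Finset.sum_ite_eq',
      if_pos (Finset.mem_range.2 (Nat.mod_lt _ hr)), ZMod.natCast_mod]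

end Pool.Agent.H24W
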