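import Pool.Agent.Lib.H24W.ABL

/-!
# H24W, MAJ: sums on a major arc from sums in progressions
-/

open Finset

namespace Pool.Agent.H24W

open Pool.Agent.H16U
open Pool.Agent.HUK (GG Bdd)
open Pool.Agent.H44W (ee)
open Pool.Agent.Lib.H68T (lp PC p0 Reg Good Exc sw)
open Pool.Agent.Lib.Sieve (poly cT cE cA)

private theorem MAJ_norm (x : ℝ) : ‖ee x‖ = 1 := by
  unfold ee
  rw [show (2 * (Real.pi : ℂ) * x * Complex.I) = ((2 * Real.pi * x : ℝ) : ℂ) * Complex.I by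
    push_cast; ring]
  exact Complex.norm_exp_ofReal_mul_I _

private theorem MAJ_add (x y : ℝ) : ee (x + y) = ee x * ee y := by
  unfold ee
  rw [← Complex.exp_add]
  congr 1
  push_cast
  ring

private theorem MAJ_int (m : ℤ) : ee m = 1 := by
  unfold ee
  rw [Complex.exp_eq_one_iff]
  exact ⟨m, by push_cast; ring⟩

private theorem MAJ_sub (x : ℝ) : ‖ee x - 1‖ ≤ 2 * Real.pi * |x| := by
  unfold ee
  rw [show (2 * (Real.pi : ℂ) * x * Complex.I) = Complex.I * ((2 * Real.pi * x : ℝ) : ℂ) by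
    push_cast; ring]
  refine (Real.norm_exp_I_mul_ofReal_sub_one_le).trans ?_
  rw [Real.norm_eq_abs, abs_mul, abs_of_pos (by positivity : (0 : ℝ) < 2 * Real.pi)]

private theorem MAJ_split (F : ℕ → ℂ) (q : ℕ) (hq : 1 ≤ q) (a : ℤ) (t : ℕ) :
    ∑ n ∈ Icc 1 t, F n * ee ((a : ℝ) * n / q) =
      ∑ b ∈ range q, ee ((a : ℝ) * b / q) * ∑ n ∈ cl t q b, F n := by
  have hq0 : (q : ℝ) ≠ 0 := by
    have : (0 : ℝ) < q := by exact_mod_cast hq
    exact this.ne'
  rw [← sum_fiberwise_of_maps_to (s := Icc 1 t) (t := range q) (g := fun n => n % q)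
    (fun n _ => mem_range.2 (Nat.mod_lt _ hq))]
  refine sum_congr rfl fun b hb => ?_
  have hbq := mem_range.1 hb
  have hset : (Icc 1 t).filter (fun n => n % q = b) = cl t q b := by
    ext n
    rw [mem_filter, mem_Icc, mem_cl]
    refine and_congr_right fun _ => ?_
    rw [Int.natCast_modEq_iff]
    unfold Nat.ModEq
    rw [Nat.mod_eq_of_lt hbq]
  rw [hset, mul_sum]
  refine sum_congr rfl fun n hn => ?_
  obtain ⟨k, hk⟩ := ((mem_cl.1 hn).2.symm).dvd
  have hk' : (n : ℝ) - b = q * k := by exact_mod_cast hk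
  have h1 : (a : ℝ) * n / q = (a : ℝ) * b / q + ((a * k : ℤ) : ℝ) := by
    have h2 : (n : ℝ) = b + q * k := by linarith
    rw [h2]
    push_cast
    field_simp
  rw [h1, MAJ_add, MAJ_int, mul_one, mul_comm]

/-- `∑_{n ∈ Icc 1 t} F n ee(a n/q) = ∑_{b ∈ range q} ee(a b/q) ∑_{n ∈ cl t q b} F n`, so its norm is at most `q E` for `t ≤ X`; hence all the sums over `Ico u t`, `1 ≤ u`,
`t ≤ v ≤ X + 1` of `F n ee(a n/q)` are at most `2 q E`. `ee(θ n) = ee(a n/q) ee((θ - a/q) n)` and `g n = ee((θ - a/q) n)` has `‖g (n+1) - g n‖ ≤ 2 π η ≤ 7 η`: `abel_bv`,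
`v - u ≤ X`. -/
theorem major (F : ℕ → ℂ) (X q : ℕ) (hq : 1 ≤ q) (E : ℝ) (hF : ∀ (b : ℤ) (t : ℕ), t ≤ X → ‖∑ n ∈ cl t q b, F n‖ ≤ E)
    (θ : ℝ) (a : ℤ) (η : ℝ) (h : |θ - a / q| ≤ η) (u v : ℕ) (hu : 1 ≤ u) (hv : v ≤ X + 1) :
    ‖∑ n ∈ Ico u v, F n * ee (θ * n)‖ ≤ 2 * q * E * (1 + 7 * X * η) := by
  have hE : 0 ≤ E := (norm_nonneg _).trans (hF 0 0 (Nat.zero_le _))
  have hη : 0 ≤ η := (abs_nonneg _).trans h
  have hqE : 0 ≤ (q : ℝ) * E := mul_nonneg (Nat.cast_nonneg _) hE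
  have h1 : ∀ t, t ≤ X → ‖∑ n ∈ Icc 1 t, F n * ee ((a : ℝ) * n / q)‖ ≤ q * E := by
    intro t ht
    rw [MAJ_split F q hq a t]
    refine (norm_sum_le _ _).trans ?_
    calc ∑ b ∈ range q, ‖ee ((a : ℝ) * b / q) * ∑ n ∈ cl t q b, F n‖
        ≤ ∑ _b ∈ range q, E := by
          refine sum_le_sum fun b _ => ?_
          rw [norm_mul, MAJ_norm, one_mul]
          exact hF b t ht
      _ = q * E := by rw [sum_const, card_range, nsmul_eq_mul]
  have h2 : ∀ t, u ≤ t → t ≤ v → ‖∑ n ∈ Ico u t, F n * ee ((a : ℝ) * n / q)‖ ≤ 2 * q * E := by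
    intro t hut htv
    have h3 : ∀ s : ℕ, 1 ≤ s → Ico 1 s = Icc 1 (s - 1) := by
      intro s hs
      ext n
      rw [mem_Ico, mem_Icc]
      omega
    have h4 : ∑ n ∈ Ico u t, F n * ee ((a : ℝ) * n / q) =
        ∑ n ∈ Icc 1 (t - 1), F n * ee ((a : ℝ) * n / q) -
          ∑ n ∈ Icc 1 (u - 1), F n * ee ((a : ℝ) * n / q) := by
      rw [← h3 t (by omega), ← h3 u hu, ← sum_Ico_consecutive _ hu hut]
      ring
    rw [h4]
    refine (norm_sub_le _ _).trans ?_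
    have h5 := h1 (t - 1) (by omega)
    have h6 := h1 (u - 1) (by omega)
    linarith
  have h7 := abel_bv (fun n => F n * ee ((a : ℝ) * n / q)) (fun n => ee ((θ - a / q) * n)) u v
    (2 * q * E) (7 * η) (by linarith) (by linarith) h2 (fun n => (MAJ_norm _).le)
    (by
      intro n
      have h8 : ee ((θ - a / q) * ((n + 1 : ℕ) : ℝ)) =
          ee ((θ - a / q) * n) * ee (θ - a / q) := by
        rw [← MAJ_add]
        congr 1
        push_cast
        ring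
      show ‖ee ((θ - a / q) * ((n + 1 : ℕ) : ℝ)) - ee ((θ - a / q) * n)‖ ≤ 7 * η
      rw [h8, show ee ((θ - a / q) * n) * ee (θ - a / q) - ee ((θ - a / q) * n) =
        ee ((θ - a / q) * n) * (ee (θ - a / q) - 1) by ring, norm_mul, MAJ_norm, one_mul]
      refine (MAJ_sub _).trans ?_
      have h9 := Real.pi_lt_d2
      have h10 := Real.pi_pos
      calc 2 * Real.pi * |θ - a / q| ≤ 7 * |θ - a / q| :=
            mul_le_mul_of_nonneg_right (by linarith) (abs_nonneg _)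
        _ ≤ 7 * η := by linarith)
  have h8 : ∑ n ∈ Ico u v, F n * ee (θ * n) =
      ∑ n ∈ Ico u v, ee ((θ - a / q) * n) * (F n * ee ((a : ℝ) * n / q)) := by
    refine sum_congr rfl fun n _ => ?_
    have h9 : θ * n = (a : ℝ) * n / q + (θ - a / q) * n := by ring
    rw [h9, MAJ_add]
    ring
  rw [h8]
  refine h7.trans ?_
  have h10 : ((v - u : ℕ) : ℝ) ≤ X := by
    have : v - u ≤ X := by omega
    exact_mod_cast this
  refine mul_le_mul_of_nonneg_left ?_ (by linarith)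
  have h11 := mul_le_mul_of_nonneg_right h10 (show (0 : ℝ) ≤ 7 * η by linarith)
  linarith

end Pool.Agent.H24W
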