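import Pool.Agent.Lib.H24W.STW
import Pool.Agent.Lib.H24W.ABL
import Pool.Agent.Lib.H24W.CSB

/-!
# H24W, MDL: module C: the model in progressions
-/

open Finset

namespace Pool.Agent.H24W

open Pool.Agent.H16U
open Pool.Agent.HUK (GG Bdd)
open Pool.Agent.H44W (ee)
open Pool.Agent.Lib.H68T (lp PC p0 Reg Good Exc sw)
open Pool.Agent.Lib.Sieve (poly cT cE cA)

theorem mdl_tw (X : ℕ) (c : ℝ) (e : EX) (he : e.Ok c) (q : ℕ) (b : ℤ) (u : ℕ) (κ δ : ℝ) (hδ : 0 ≤ δ)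
    (h : ∀ t : ℕ, t ≤ u → |∑ n ∈ cl t q b, rg X n * (e.ψ (n : ZMod e.q)).re - κ * t| ≤ δ) :
    |∑ n ∈ cl u q b, rg X n * (e.ψ (n : ZMod e.q)).re * (n : ℝ) ^ (e.β - 1) - κ * ∑ m ∈ Icc 1 u, (m : ℝ) ^ (e.β - 1)| ≤ δ := by
  obtain ⟨a, ha⟩ : ∃ a : ℕ → ℝ, a = fun n : ℕ =>
    (if (n : ℤ) ≡ b [ZMOD q] then rg X n * (e.ψ (n : ZMod e.q)).re else 0) - κ := ⟨_, rfl⟩
  have hIcc : ∀ t : ℕ, Ico 1 (t + 1) = Icc 1 t := by
    intro t
    ext n
    simp only [mem_Ico, mem_Icc]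
    omega
  have hpart : ∀ t : ℕ, ∑ n ∈ Icc 1 t, a n = ∑ n ∈ cl t q b, rg X n * (e.ψ (n : ZMod e.q)).re - κ * t := by
    intro t
    rw [ha, Finset.sum_sub_distrib, ← Finset.sum_filter]
    congr 1
    rw [Finset.sum_const, Nat.card_Icc, nsmul_eq_mul]
    push_cast
    ring
  have h1 := abel_mono (fun n => (a n : ℂ)) (fun n => (n : ℝ) ^ (e.β - 1)) 1 (u + 1) δ hδ (by
    intro t ht1 ht2
    obtain ⟨t', rfl⟩ : ∃ t', t = t' + 1 := ⟨t - 1, by omega⟩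
    rw [hIcc, ← Complex.ofReal_sum, Complex.norm_real, Real.norm_eq_abs, hpart]
    exact h t' (by omega)) (fun n hn _ => (pow_wt e.β he.lt.le n hn).1) (fun n hn _ => (pow_wt e.β he.lt.le n hn).2.1)
    (fun n hn _ => (pow_wt e.β he.lt.le n hn).2.2)
  have h2 : ∑ n ∈ Ico 1 (u + 1), (((n : ℝ) ^ (e.β - 1) : ℝ) : ℂ) * ((a n : ℝ) : ℂ) =
      ((∑ n ∈ cl u q b, rg X n * (e.ψ (n : ZMod e.q)).re * (n : ℝ) ^ (e.β - 1) - κ * ∑ m ∈ Icc 1 u, (m : ℝ) ^ (e.β - 1) : ℝ) : ℂ) := by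
    rw [hIcc]
    have h3 : ∑ n ∈ Icc 1 u, (((n : ℝ) ^ (e.β - 1) : ℝ) : ℂ) * ((a n : ℝ) : ℂ) =
        ((∑ n ∈ Icc 1 u, (n : ℝ) ^ (e.β - 1) * a n : ℝ) : ℂ) := by
      push_cast
      rfl
    rw [h3]
    congr 1
    rw [Finset.mul_sum]
    unfold cl
    rw [Finset.sum_filter, ← Finset.sum_sub_distrib]
    refine Finset.sum_congr rfl fun n _ => ?_
    rw [ha]
    simp only
    split_ifs
    · ring
    · ring
  rw [h2, Complex.norm_real, Real.norm_eq_abs] at h1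
  exact h1

/-- Not coprime: `p ∣ b`, `p ∣ q`: `p ≤ q ≤ wS X`, every `n ∈ cl u q b` is divisible by `p`, so `mdl = 0` and `e.M = 0`. Coprime: `mdl_eq`; the sum is
`cS (∑ rg - x ∑ rg ψ n^(β-1))`. First part `u/φ(q)` up to `cS X exp (-L^(9/20))`. Second: `a_n = rg ψ(n) [n ≡ b] - κ` with `κ = [e.q ∣ q] ψ(b)/(φ(q) cS)`; by `sieve_twist`
all `|∑_{n ≤ t} a_n| ≤ e.q X exp (-L^(9/20))`, `t ≤ u`, so `abel_mono` with `g n = n^(β-1)` (`Icc 1 u = Ico 1 (u+1)`; `pow_wt`) gives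
`∑ rg ψ n^(β-1) = κ ∑_{m ≤ u} m^(β-1)` up to the same error. Total error `cS (1 + e.q) X exp (-L^(9/20)) ≤ 2 L exp (L^(1/5)) X exp (-L^(9/20))`
(`cS_le`, `e.x ≤ 1`). -/
theorem ap_mdl : ∃ X0 : ℕ, ∀ X : ℕ, X0 ≤ X → ∀ (c : ℝ) (e : EX), e.Ok c → (e.q : ℝ) ≤ Real.exp ((Real.log X) ^ (1 / 5 : ℝ)) →
    ∀ q : ℕ, 1 ≤ q → q ≤ wS X → ∀ (b : ℤ) (u : ℕ), u ≤ X →
    |∑ n ∈ cl u q b, mdl X e.toE (n : ℤ) - e.M u q b| ≤ X * Real.exp (-((Real.log X) ^ (9 / 20 : ℝ) / 2)) := by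
  obtain ⟨X1, h1⟩ := sieve_class
  obtain ⟨X2, h2⟩ := sieve_twist
  obtain ⟨X3, h3⟩ := cS_le
  obtain ⟨X4, h4⟩ := big_absorb (show (0 : ℝ) < 1 / 5 by norm_num) 2 1
  obtain ⟨X5, h5⟩ := big_pow (show (1 / 5 : ℝ) < 9 / 20 by norm_num) 4
  obtain ⟨X6, h6⟩ := big_L 1
  refine ⟨X1 + X2 + X3 + X4 + X5 + X6 + 1, fun X hX c e he heq q hq hqw b u hu => ?_⟩
  obtain ⟨hc1, hc2⟩ := h3 X (by omega)
  have hL := h6 X (by omega)
  have hab := h4 X (by omega)
  have hpw := h5 X (by omega)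
  rw [Real.rpow_one] at hab
  have hX0 : (0 : ℝ) < X := by
    have : 0 < X := by omega
    exact_mod_cast this
  set y := (Real.log X) ^ (9 / 20 : ℝ) with hy
  set v := (Real.log X) ^ (1 / 5 : ℝ) with hv
  by_cases hb : IsCoprime b (q : ℤ)
  · have hqp : ∀ p : ℕ, p.Prime → p ∣ q → p ≤ wS X := fun p _ hd => (Nat.le_of_dvd hq hd).trans hqw
    have hS1 := h1 X (by omega) q hq hqp b hb u hu
    have hφ : (0 : ℝ) < Nat.totient q := by exact_mod_cast Nat.totient_pos.mpr hq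
    have hcS0 : 0 < cS X := by linarith
    obtain ⟨κ, hκ⟩ : ∃ κ : ℝ, κ = if e.q ∣ q then (e.ψ (b : ZMod e.q)).re / (Nat.totient q * cS X) else 0 := ⟨_, rfl⟩
    obtain ⟨δ, hδ⟩ : ∃ δ : ℝ, δ = X * Real.exp (-y) := ⟨_, rfl⟩
    have hδ0 : 0 ≤ δ := by rw [hδ]; positivity
    have hq0 : (0 : ℝ) ≤ e.q := Nat.cast_nonneg _
    have hS2 := mdl_tw X c e he q b u κ (e.q * δ) (mul_nonneg hq0 hδ0) (by
      intro t ht
      have h7 := h2 X (by omega) c e he heq q hq hqp b hb t (ht.trans hu)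
      rw [hδ]
      refine le_trans (le_of_eq ?_) h7
      congr 1
      congr 1
      rw [hκ]
      split_ifs
      · ring
      · ring)
    have hsum : ∑ n ∈ cl u q b, mdl X e.toE (n : ℤ) = cS X * (∑ n ∈ cl u q b, rg X n -
        e.x * ∑ n ∈ cl u q b, rg X n * (e.ψ (n : ZMod e.q)).re * (n : ℝ) ^ (e.β - 1)) := by
      rw [Finset.mul_sum, ← Finset.sum_sub_distrib, Finset.mul_sum]
      refine Finset.sum_congr rfl fun n hn => ?_
      exact mdl_eq X e n (mem_cl.mp hn).1.1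
    have hM : e.M u q b = cS X * (u / (Nat.totient q * cS X) - e.x * (κ * ∑ m ∈ Icc 1 u, (m : ℝ) ^ (e.β - 1))) := by
      unfold EX.M
      rw [if_pos hb]
      have h8 : ∑ m ∈ Icc 1 u, e.mc q b m = (u - e.x * (if e.q ∣ q then (e.ψ (b : ZMod e.q)).re else 0) *
          ∑ m ∈ Icc 1 u, (m : ℝ) ^ (e.β - 1)) / Nat.totient q := by
        unfold EX.mc
        rw [← Finset.sum_div, Finset.sum_sub_distrib, Finset.sum_const, Nat.card_Icc, Finset.mul_sum]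
        congr 1
        congr 1
        · simp
        · refine Finset.sum_congr rfl fun m _ => ?_
          split_ifs
          · ring
          · ring
      rw [h8, hκ]
      split_ifs
      · field_simp
      · field_simp
        ring
    rw [hsum, hM]
    have hx : |e.x| ≤ 1 := by
      rcases he.x01 with h | h <;> rw [h] <;> norm_num
    have hq1 : (1 : ℝ) ≤ e.q := by exact_mod_cast he.q_pos
    have hdiff : |cS X * (∑ n ∈ cl u q b, rg X n -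
        e.x * ∑ n ∈ cl u q b, rg X n * (e.ψ (n : ZMod e.q)).re * (n : ℝ) ^ (e.β - 1)) -
        cS X * (u / (Nat.totient q * cS X) - e.x * (κ * ∑ m ∈ Icc 1 u, (m : ℝ) ^ (e.β - 1)))| ≤ cS X * (δ + 1 * (e.q * δ)) := by
      have h9 : cS X * (∑ n ∈ cl u q b, rg X n -
        e.x * ∑ n ∈ cl u q b, rg X n * (e.ψ (n : ZMod e.q)).re * (n : ℝ) ^ (e.β - 1)) -
        cS X * (u / (Nat.totient q * cS X) - e.x * (κ * ∑ m ∈ Icc 1 u, (m : ℝ) ^ (e.β - 1))) =
        cS X * ((∑ n ∈ cl u q b, rg X n - u / (Nat.totient q * cS X)) -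
          e.x * (∑ n ∈ cl u q b, rg X n * (e.ψ (n : ZMod e.q)).re * (n : ℝ) ^ (e.β - 1) -
            κ * ∑ m ∈ Icc 1 u, (m : ℝ) ^ (e.β - 1))) := by ring
      rw [h9, abs_mul, abs_of_pos hcS0]
      refine mul_le_mul_of_nonneg_left ?_ hcS0.le
      refine (abs_sub _ _).trans ?_
      rw [abs_mul]
      refine add_le_add ?_ (mul_le_mul hx hS2 (abs_nonneg _) zero_le_one)
      rw [hδ]
      exact hS1
    refine hdiff.trans ?_
    have h10 : cS X * (δ + 1 * (e.q * δ)) ≤ (2 * Real.log X) * (Real.exp v * δ) := by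
      have h11 : δ + 1 * (e.q * δ) ≤ 2 * (Real.exp v * δ) := by
        have h12 : δ ≤ e.q * δ := le_mul_of_one_le_left hδ0 hq1
        have h13 : e.q * δ ≤ Real.exp v * δ := mul_le_mul_of_nonneg_right heq hδ0
        linarith
      calc cS X * (δ + 1 * (e.q * δ)) ≤ Real.log X * (2 * (Real.exp v * δ)) :=
            mul_le_mul hc2 h11 (by positivity) (by linarith)
        _ = _ := by ring
    refine h10.trans ?_
    have hv0 : 0 ≤ v := Real.rpow_nonneg (by linarith) _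
    calc (2 * Real.log X) * (Real.exp v * δ) ≤ Real.exp v * (Real.exp v * δ) :=
          mul_le_mul_of_nonneg_right hab (by positivity)
      _ = X * Real.exp (v + v - y) := by
          rw [hδ, show v + v - y = v + (v + -y) by ring, Real.exp_add, Real.exp_add]
          ring
      _ ≤ X * Real.exp (-(y / 2)) := by
          refine mul_le_mul_of_nonneg_left (Real.exp_le_exp.mpr ?_) hX0.le
          linarith
  · -- not coprime
    have hM : e.M u q b = 0 := by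
      unfold EX.M
      rw [if_neg hb]
    rw [Int.isCoprime_iff_gcd_eq_one] at hb
    obtain ⟨p, hp, hpd⟩ := Nat.exists_prime_and_dvd hb
    have hpb : (p : ℤ) ∣ b := (Int.natCast_dvd_natCast.mpr hpd).trans (Int.gcd_dvd_left _ _)
    have hpq : (p : ℤ) ∣ q := (Int.natCast_dvd_natCast.mpr hpd).trans (Int.gcd_dvd_right _ _)
    have hpq' : p ∣ q := Int.natCast_dvd_natCast.mp hpq
    have hpP : p ∈ PS X := mem_PS.mpr ⟨hp, (Nat.le_of_dvd hq hpq').trans hqw⟩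
    have hzero : ∑ n ∈ cl u q b, mdl X e.toE (n : ℤ) = 0 := by
      refine Finset.sum_eq_zero fun n hn => ?_
      have h7 := (mem_cl.mp hn).2
      have h8 : (p : ℤ) ∣ n := by
        have h9 : (q : ℤ) ∣ (n : ℤ) - b := (Int.modEq_iff_dvd.mp h7.symm)
        have h10 := dvd_add (hpq.trans h9) hpb
        rwa [sub_add_cancel] at h10
      unfold mdl
      rw [if_neg]
      rintro ⟨_, hR⟩
      exact hR p hpP h8
    rw [hzero, hM, sub_zero, abs_zero]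
    positivity

end Pool.Agent.H24W
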