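import Pool.Agent.Lib.H24W.PPW
import Pool.Agent.Lib.H68T.VA

/-!
# H24W, MLP: minor arcs for the primes
-/

open Finset

namespace Pool.Agent.H24W

open Pool.Agent.H16U
open Pool.Agent.HUK (GG Bdd)
open Pool.Agent.H44W (ee)
open Pool.Agent.Lib.H68T (lp PC p0 Reg Good Exc sw)
open Pool.Agent.Lib.Sieve (poly cT cE cA)

/-- `H68T.vaughan` (H68T/VA; the exponential `e` there is the same as `ee`, `N = X`): `q > R`, `q ≤ X/R ≤ X` give `X/√q + X^(4/5) + √(X q) ≤ 2 X/√R + X^(4/5)`; replace `Λ` by `lp`: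
`lam_lp_abs` (PPW), `2 √X log X ≤ C X^(4/5) (log X)^10`. The term `n = 0`: `Λ(0) = 0 = lp 0`. -/
theorem minor_lp : ∃ C : ℝ, 0 < C ∧ ∀ X : ℕ, 2 ≤ X → ∀ R : ℝ, 1 ≤ R → ∀ θ : ℝ, Mnr R (X / R) θ → ∀ u v : ℕ, v ≤ X →
    ‖∑ n ∈ Ico u v, ((lp n : ℝ) : ℂ) * ee (θ * n)‖ ≤ C * (X / Real.sqrt R + (X : ℝ) ^ (4 / 5 : ℝ)) * (Real.log X) ^ 10 := by
  obtain ⟨C1, hC1, h1⟩ := Pool.Agent.Lib.H68T.vaughan
  refine ⟨2 * C1 + 2 ^ 10, by positivity, fun X hX R hR θ hθ u v hv => ?_⟩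
  obtain ⟨q, a, hq, hcop, hRq, hqX, hθa⟩ := hθ
  have hX0 : (0 : ℝ) < X := by exact_mod_cast (by omega : 0 < X)
  have hX1 : (1 : ℝ) ≤ X := by exact_mod_cast (by omega : 1 ≤ X)
  have hX2 : (2 : ℝ) ≤ X := by exact_mod_cast hX
  have hR0 : 0 < R := by linarith
  have hq0 : (0 : ℝ) < q := by exact_mod_cast hq
  have hqXr : (q : ℝ) ≤ X := hqX.trans (div_le_self hX0.le hR)
  have hqXn : q ≤ X := by exact_mod_cast hqXr
  have hl : 1 / 2 ≤ Real.log X := by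
    have h2 := Real.log_two_gt_d9
    have h3 : Real.log 2 ≤ Real.log X := Real.log_le_log (by norm_num) hX2
    linarith
  have hl0 : 0 < Real.log X := by linarith
  have hv1 := h1 θ q a hq hcop hθa X u v hX hqXn hv
  set S : ℝ := X / Real.sqrt R with hS
  set P : ℝ := (X : ℝ) ^ (4 / 5 : ℝ) with hP
  set L : ℝ := Real.log X with hL
  have hS0 : 0 ≤ S := by positivity
  have hP0 : 0 ≤ P := by positivity
  have e1 : (X : ℝ) / Real.sqrt q ≤ S :=
    div_le_div_of_nonneg_left hX0.le (Real.sqrt_pos.2 hR0) (Real.sqrt_le_sqrt hRq.le)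
  have e2 : Real.sqrt (X * q) ≤ S := by
    rw [hS]
    apply Real.sqrt_le_iff.2
    refine ⟨by positivity, ?_⟩
    rw [div_pow, Real.sq_sqrt hR0.le]
    calc (X : ℝ) * q ≤ X * (X / R) := mul_le_mul_of_nonneg_left hqX hX0.le
      _ = X ^ 2 / R := by ring
  have hmain : ‖∑ m ∈ Ico u v, (ArithmeticFunction.vonMangoldt m : ℂ) *
      Pool.Agent.Lib.H68T.e (m * θ)‖ ≤ 2 * C1 * (S + P) * L ^ 10 := by
    refine hv1.trans ?_
    have e3 : (X : ℝ) / Real.sqrt q + P + Real.sqrt (X * q) ≤ 2 * (S + P) := by linarith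
    calc C1 * ((X : ℝ) / Real.sqrt q + P + Real.sqrt (X * q)) * L ^ 10
        ≤ C1 * (2 * (S + P)) * L ^ 10 := by gcongr
      _ = _ := by ring
  -- the prime powers
  have hdiff : ‖∑ m ∈ Ico u v, ((lp m : ℝ) : ℂ) * ee (θ * m) -
      ∑ m ∈ Ico u v, (ArithmeticFunction.vonMangoldt m : ℂ) *
        Pool.Agent.Lib.H68T.e (m * θ)‖ ≤ 2 * Real.sqrt X * L := by
    rw [← Finset.sum_sub_distrib]
    have e4 : ∀ m ∈ Ico u v, ‖((lp m : ℝ) : ℂ) * ee (θ * m) -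
        (ArithmeticFunction.vonMangoldt m : ℂ) * Pool.Agent.Lib.H68T.e (m * θ)‖ =
        |ArithmeticFunction.vonMangoldt m - lp m| := by
      intro m _
      have e5 : Pool.Agent.Lib.H68T.e ((m : ℝ) * θ) = ee (θ * m) := by
        rw [mul_comm]
        rfl
      rw [e5, ← sub_mul, norm_mul]
      have e6 : ‖ee (θ * m)‖ = 1 := by
        unfold Pool.Agent.H44W.ee
        rw [show (2 * (Real.pi : ℂ) * ((θ * m : ℝ) : ℂ) * Complex.I) =
          ((2 * Real.pi * (θ * m) : ℝ) : ℂ) * Complex.I by push_cast; ring]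
        exact Complex.norm_exp_ofReal_mul_I _
      rw [e6, mul_one, ← Complex.ofReal_sub, Complex.norm_real, Real.norm_eq_abs, abs_sub_comm]
    refine (norm_sum_le _ _).trans ?_
    rw [Finset.sum_congr rfl e4]
    refine le_trans ?_ (lam_lp_abs X)
    have e7 : ∑ m ∈ Ico u v, |ArithmeticFunction.vonMangoldt m - lp m| =
        ∑ m ∈ (Ico u v).filter (fun m => m ≠ 0), |ArithmeticFunction.vonMangoldt m - lp m| := by
      symm
      refine Finset.sum_filter_of_ne fun m _ hm h0 => hm ?_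
      subst h0
      simp [Pool.Agent.Lib.H68T.lp, Nat.not_prime_zero]
    rw [e7]
    refine Finset.sum_le_sum_of_subset_of_nonneg ?_ fun _ _ _ => abs_nonneg _
    intro m hm
    rw [Finset.mem_filter, Finset.mem_Ico] at hm
    rw [Finset.mem_Icc]
    omega
  have hsq : Real.sqrt X ≤ P := by
    rw [Real.sqrt_eq_rpow, hP]
    exact Real.rpow_le_rpow_of_exponent_le hX1 (by norm_num)
  have hLL : L ≤ 2 ^ 9 * L ^ 10 := by
    have h9 : (1 / 2 : ℝ) ^ 9 ≤ L ^ 9 := pow_le_pow_left₀ (by norm_num) hl 9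
    have h10 : 1 ≤ 2 ^ 9 * L ^ 9 := by
      have : (2 : ℝ) ^ 9 * (1 / 2) ^ 9 = 1 := by norm_num
      nlinarith
    calc L = 1 * L := (one_mul _).symm
      _ ≤ (2 ^ 9 * L ^ 9) * L := mul_le_mul_of_nonneg_right h10 hl0.le
      _ = _ := by ring
  have hpp : 2 * Real.sqrt X * L ≤ 2 ^ 10 * (S + P) * L ^ 10 := by
    calc 2 * Real.sqrt X * L ≤ 2 * (S + P) * (2 ^ 9 * L ^ 10) := by
          gcongr
          linarith
      _ = _ := by ring
  calc ‖∑ n ∈ Ico u v, ((lp n : ℝ) : ℂ) * ee (θ * n)‖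
      = ‖(∑ m ∈ Ico u v, ((lp m : ℝ) : ℂ) * ee (θ * m) -
        ∑ m ∈ Ico u v, (ArithmeticFunction.vonMangoldt m : ℂ) *
          Pool.Agent.Lib.H68T.e (m * θ)) +
        ∑ m ∈ Ico u v, (ArithmeticFunction.vonMangoldt m : ℂ) *
          Pool.Agent.Lib.H68T.e (m * θ)‖ := by rw [sub_add_cancel]
    _ ≤ 2 * Real.sqrt X * L + 2 * C1 * (S + P) * L ^ 10 :=
        (norm_add_le _ _).trans (add_le_add hdiff hmain)
    _ ≤ (2 * C1 + 2 ^ 10) * (S + P) * L ^ 10 := by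
        have : (2 * C1 + 2 ^ 10) * (S + P) * L ^ 10 =
          2 ^ 10 * (S + P) * L ^ 10 + 2 * C1 * (S + P) * L ^ 10 := by ring
        rw [this]
        linarith

end Pool.Agent.H24W
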