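import Pool.Agent.Lib.H24W.MRG
import Pool.Agent.Lib.H24W.APX
import Pool.Agent.Lib.H24W.FEX
import Pool.Agent.Lib.H24W.ABL
import Pool.Agent.Lib.H24W.CSB

/-!
# H24W, MMD: minor arcs for the model
-/

open Finset

namespace Pool.Agent.H24W

open Pool.Agent.H16U
open Pool.Agent.HUK (GG Bdd)
open Pool.Agent.H44W (ee)
open Pool.Agent.Lib.H68T (lp PC p0 Reg Good Exc sw)
open Pool.Agent.Lib.Sieve (poly cT cE cA)

/-- `mdl_eq`. `Q = exp (4 s)`, `r = e.q`. By `approx`: `Mnr (Q/r) (X/Q) (θ + b/r)` for all `b`, and `X/Q ≤ X/(Q/r)`, so `minor_rg` with `R = Q/r` applies (`R ≥ 1`: `r ≤ exp (L^(1/5))`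
and `s = L^(19/50)`, or `r = 1`). First part (`b = 0`, `r` replaced by `1`, or simply `b = 0`) and, if `e.x = 1`, the twisted part: `ψ(n) = ∑_{b < r} c_b ee(b n/r)` (`four_expand`; real part: `psi_real`), so each
`‖∑_{Ico u t} rg ψ(n) ee(θ n)‖ ≤ r B`, `B` the bound of `minor_rg`; then `abel_mono` with `n^(β-1)` (`pow_wt`). Total: `cS (1 + r) B`, `B ≤ C (X r exp (-(4 s)) + X^(1/2)) L² + X exp (-L^(9/20))`,
`cS ≤ L` (`cS_le`), `r² ≤ exp (2 L^(1/5)) ≤ exp s` in the second case of `Alt`. (`Alt.bounds`, `Alt.q_le`, `big_absorb`, `big_pow`.) -/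
theorem minor_mdl : ∃ X0 : ℕ, ∀ X : ℕ, X0 ≤ X → ∀ (c : ℝ) (e : EX) (s : ℝ), e.Ok c → Alt X e s → ∀ θ : ℝ,
    ¬ Maj (Real.exp (4 * s)) X θ → ∀ u v : ℕ, 1 ≤ u → v ≤ X →
    ‖∑ n ∈ Ico u v, ((mdl X e.toE (n : ℤ) : ℝ) : ℂ) * ee (θ * n)‖ ≤ X * Real.exp (-(2 * s)) := by
  obtain ⟨C, X1, hC, hrg⟩ := minor_rg
  obtain ⟨X2, hcS⟩ := cS_le
  obtain ⟨X3, hL1⟩ := big_L 1
  obtain ⟨X4, hp1⟩ := big_pow (a := 1 / 5) (b := 19 / 50) (by norm_num) 2
  obtain ⟨X5, hp2⟩ := big_pow (a := 19 / 50) (b := 1) (by norm_num) 7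
  obtain ⟨X6, hp3⟩ := big_pow (a := 19 / 50) (b := 9 / 20) (by norm_num) 7
  obtain ⟨X7, ha1⟩ := big_absorb (b := 19 / 100) (by norm_num) (6 * C) 3
  obtain ⟨X8, ha2⟩ := big_absorb (b := 19 / 100) (by norm_num) 6 1
  refine ⟨max 1 (max X1 (max X2 (max X3 (max X4 (max X5 (max X6 (max X7 X8))))))), ?_⟩
  intro X hX c e s he ha θ hθ u v hu hv
  simp only [max_le_iff] at hX
  obtain ⟨h0, h1, h2, h3, h4, h5, h6, h7, h8⟩ := hX
  have hrg := hrg X h1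
  obtain ⟨hcS1, hcS2⟩ := hcS X h2
  have hL1 := hL1 X h3
  have hp1 := hp1 X h4
  have hp2 := hp2 X h5
  have hp3 := hp3 X h6
  have ha1 := ha1 X h7
  have ha2 := ha2 X h8
  have hXe := X_exp h0
  have hX0 : (0 : ℝ) < X := by exact_mod_cast h0
  obtain ⟨hs1, hs2⟩ := ha.bounds hL1
  rw [Real.rpow_one] at hp2 ha2
  have e3 : (Real.log X) ^ (3 : ℝ) = (Real.log X) ^ 3 := by
    exact_mod_cast Real.rpow_natCast (Real.log X) 3
  rw [e3] at ha1
  set L := Real.log X with hLdef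
  have hL0 : 0 ≤ L := by linarith
  have hs0 : 0 ≤ s := le_trans (Real.rpow_nonneg hL0 _) hs1
  -- the conductor
  have hq1 : 1 ≤ e.q := he.q_pos
  have hq1' : (1 : ℝ) ≤ e.q := by exact_mod_cast hq1
  have hqs : (e.q : ℝ) ≤ Real.exp (s / 2) := by
    rcases ha with ⟨hx, _⟩ | ⟨hs, hq⟩
    · rw [he.one hx]
      have := Real.one_le_exp (show 0 ≤ s / 2 by linarith)
      simpa using this
    · refine hq.trans (Real.exp_le_exp.mpr ?_)
      rw [hs]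
      linarith
  have hq0 : (0 : ℝ) < e.q := by linarith
  have hQ1 : 1 ≤ Real.exp (4 * s) := Real.one_le_exp (by linarith)
  have hQ0 : 0 < Real.exp (4 * s) := Real.exp_pos _
  have hLp : 7 * s ≤ L := by linarith
  have hQX : Real.exp (4 * s) ≤ X := by
    rw [hXe]
    exact Real.exp_le_exp.mpr (by linarith)
  have hR1 : 1 ≤ Real.exp (4 * s) / e.q := by
    rw [le_div_iff₀ hq0, one_mul]
    exact hqs.trans (Real.exp_le_exp.mpr (by linarith))
  have hRQ : Real.exp (4 * s) / e.q ≤ Real.exp (4 * s) := div_le_self hQ0.le hq1'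
  have hR0 : 0 < Real.exp (4 * s) / e.q := div_pos hQ0 hq0
  -- the bound for the sieve
  obtain ⟨B, hB⟩ : ∃ B : ℝ, B = C * (X / (Real.exp (4 * s) / e.q) + (X : ℝ) ^ (1 / 2 : ℝ)) * L ^ 2 +
      X * Real.exp (-L ^ (9 / 20 : ℝ)) := ⟨_, rfl⟩
  have hB0 : 0 ≤ B := by
    rw [hB]
    positivity
  have key : ∀ b : ℕ, ∀ t : ℕ, t ≤ X →
      ‖∑ n ∈ Ico u t, ((rg X n : ℝ) : ℂ) * ee ((θ + b / e.q) * n)‖ ≤ B := by
    intro b t ht
    have hM := approx (Real.exp (4 * s)) X hQ1 hQX θ hθ e.q hq1 b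
    have hM' : Mnr (Real.exp (4 * s) / e.q) (X / (Real.exp (4 * s) / e.q)) (θ + b / e.q) := by
      obtain ⟨q, a, m1, m2, m3, m4, m5⟩ := hM
      refine ⟨q, a, m1, m2, m3, m4.trans ?_, ?_⟩
      · exact div_le_div_of_nonneg_left hX0.le hR0 hRQ
      · simpa using m5
    have := hrg (Real.exp (4 * s) / e.q) hR1 (θ + b / e.q) hM' u t hu ht
    rw [hB]
    exact this
  have part1 : ‖∑ n ∈ Ico u v, ((rg X n : ℝ) : ℂ) * ee (θ * n)‖ ≤ B := by
    have := key 0 v hv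
    simpa using this
  -- the twisted part
  obtain ⟨cb, hcb, hexp⟩ := four_expand e.q hq1 (fun x => e.ψ x) (fun x => DirichletCharacter.norm_le_one e.ψ x)
  have part2 : ∀ t : ℕ, u ≤ t → t ≤ v →
      ‖∑ n ∈ Ico u t, ((rg X n : ℝ) : ℂ) * e.ψ (n : ZMod e.q) * ee (θ * n)‖ ≤ e.q * B := by
    intro t _ ht
    have e1 : ∑ n ∈ Ico u t, ((rg X n : ℝ) : ℂ) * e.ψ (n : ZMod e.q) * ee (θ * n) =
        ∑ b ∈ range e.q, cb b * ∑ n ∈ Ico u t, ((rg X n : ℝ) : ℂ) * ee ((θ + b / e.q) * n) := by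
      simp_rw [mul_sum]
      rw [sum_comm]
      refine sum_congr rfl fun n _ => ?_
      have h9 := hexp n
      rw [h9, mul_sum, sum_mul]
      refine sum_congr rfl fun b _ => ?_
      rw [show (θ + (b : ℝ) / e.q) * n = (b : ℝ) / e.q * n + θ * n by ring, Pool.Agent.H44W.ee_add]
      ring
    rw [e1]
    refine (norm_sum_le _ _).trans ?_
    have e2 : ∀ b ∈ range e.q, ‖cb b * ∑ n ∈ Ico u t, ((rg X n : ℝ) : ℂ) * ee ((θ + b / e.q) * n)‖ ≤ B := by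
      intro b _
      rw [norm_mul]
      calc ‖cb b‖ * ‖∑ n ∈ Ico u t, ((rg X n : ℝ) : ℂ) * ee ((θ + b / e.q) * n)‖ ≤ 1 * B :=
            mul_le_mul (hcb b) (key b t (ht.trans hv)) (norm_nonneg _) zero_le_one
        _ = B := one_mul B
    refine (sum_le_sum e2).trans (le_of_eq ?_)
    rw [sum_const, card_range, nsmul_eq_mul]
  have part3 : ‖∑ n ∈ Ico u v, (((n : ℝ) ^ (e.β - 1) : ℝ) : ℂ) *
      (((rg X n : ℝ) : ℂ) * e.ψ (n : ZMod e.q) * ee (θ * n))‖ ≤ e.q * B := by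
    refine abel_mono (fun n => ((rg X n : ℝ) : ℂ) * e.ψ (n : ZMod e.q) * ee (θ * n))
      (fun n => (n : ℝ) ^ (e.β - 1)) u v (e.q * B) (by positivity) part2 ?_ ?_ ?_
    · intro n hn _
      exact (pow_wt e.β he.lt.le n (hu.trans hn)).1
    · intro n hn _
      exact (pow_wt e.β he.lt.le n (hu.trans hn)).2.1
    · intro n hn _
      exact (pow_wt e.β he.lt.le n (hu.trans hn)).2.2
  have hsum : ∑ n ∈ Ico u v, ((mdl X e.toE (n : ℤ) : ℝ) : ℂ) * ee (θ * n) =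
      (cS X : ℂ) * ((∑ n ∈ Ico u v, ((rg X n : ℝ) : ℂ) * ee (θ * n)) - (e.x : ℂ) *
        ∑ n ∈ Ico u v, (((n : ℝ) ^ (e.β - 1) : ℝ) : ℂ) *
          (((rg X n : ℝ) : ℂ) * e.ψ (n : ZMod e.q) * ee (θ * n))) := by
    rw [mul_sum, ← sum_sub_distrib, mul_sum]
    refine sum_congr rfl fun n hn => ?_
    rw [mdl_eq X e n (hu.trans (mem_Ico.1 hn).1)]
    push_cast
    have h9 := psi_real e.ψ he.sq (n : ZMod e.q)
    rw [h9]
    simp only [Complex.ofReal_re]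
    ring
  rw [hsum, norm_mul]
  have hx1 : ‖(e.x : ℂ)‖ ≤ 1 := by
    rcases he.x01 with h | h <;> rw [h] <;> simp
  have hcSn : ‖(cS X : ℂ)‖ = cS X := by
    rw [Complex.norm_real, Real.norm_of_nonneg (by linarith)]
  rw [hcSn]
  have hin : ‖(∑ n ∈ Ico u v, ((rg X n : ℝ) : ℂ) * ee (θ * n)) - (e.x : ℂ) *
        ∑ n ∈ Ico u v, (((n : ℝ) ^ (e.β - 1) : ℝ) : ℂ) *
          (((rg X n : ℝ) : ℂ) * e.ψ (n : ZMod e.q) * ee (θ * n))‖ ≤ 2 * e.q * B := by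
    refine (norm_sub_le _ _).trans ?_
    rw [norm_mul]
    have h9 : ‖(e.x : ℂ)‖ * ‖∑ n ∈ Ico u v, (((n : ℝ) ^ (e.β - 1) : ℝ) : ℂ) *
          (((rg X n : ℝ) : ℂ) * e.ψ (n : ZMod e.q) * ee (θ * n))‖ ≤ 1 * (e.q * B) :=
      mul_le_mul hx1 part3 (norm_nonneg _) zero_le_one
    have h10 : B ≤ e.q * B := le_mul_of_one_le_left hB0 hq1'
    linarith
  have htot : cS X * (2 * e.q * B) ≤ L * (2 * e.q * B) :=
    mul_le_mul_of_nonneg_right hcS2 (by positivity)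
  refine (mul_le_mul_of_nonneg_left hin (by linarith)).trans (htot.trans ?_)
  -- final estimate
  have hex : Real.exp (L ^ (19 / 100 : ℝ)) ≤ Real.exp s := Real.exp_le_exp.mpr hs1
  have hq2 : (e.q : ℝ) * e.q ≤ Real.exp s := by
    calc (e.q : ℝ) * e.q ≤ Real.exp (s / 2) * Real.exp (s / 2) :=
          mul_le_mul hqs hqs hq0.le (Real.exp_pos _).le
      _ = Real.exp s := by rw [← Real.exp_add]; congr 1; ring
  have t1 : L * (2 * e.q * (C * (X / (Real.exp (4 * s) / e.q)) * L ^ 2)) ≤ X * Real.exp (-(2 * s)) / 3 := by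
    have e1 : L * (2 * e.q * (C * (X / (Real.exp (4 * s) / e.q)) * L ^ 2)) =
        (6 * C * L ^ 3) * ((e.q : ℝ) * e.q) * X * Real.exp (-(4 * s)) / 3 := by
      rw [Real.exp_neg]
      field_simp
      ring
    rw [e1]
    have e2 : (6 * C * L ^ 3) * ((e.q : ℝ) * e.q) ≤ Real.exp s * Real.exp s :=
      mul_le_mul (ha1.trans hex) hq2 (by positivity) (Real.exp_pos _).le
    have e4 : Real.exp s * Real.exp s * X * Real.exp (-(4 * s)) = X * Real.exp (-(2 * s)) := by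
      rw [mul_comm (Real.exp s * Real.exp s) (X : ℝ), mul_assoc, mul_assoc, ← Real.exp_add, ← Real.exp_add]
      congr 2
      ring
    have e5 : (6 * C * L ^ 3) * ((e.q : ℝ) * e.q) * X * Real.exp (-(4 * s)) ≤
        Real.exp s * Real.exp s * X * Real.exp (-(4 * s)) :=
      mul_le_mul_of_nonneg_right (mul_le_mul_of_nonneg_right e2 hX0.le) (Real.exp_pos _).le
    rw [e4] at e5
    linarith
  have hhalf : (X : ℝ) ^ (1 / 2 : ℝ) = Real.exp (L / 2) := by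
    rw [Real.rpow_def_of_pos hX0]
    congr 1
    ring
  have t2 : L * (2 * e.q * (C * (X : ℝ) ^ (1 / 2 : ℝ) * L ^ 2)) ≤ X * Real.exp (-(2 * s)) / 3 := by
    have e1 : L * (2 * e.q * (C * (X : ℝ) ^ (1 / 2 : ℝ) * L ^ 2)) =
        (6 * C * L ^ 3) * e.q * (X : ℝ) ^ (1 / 2 : ℝ) / 3 := by ring
    rw [e1, hhalf]
    have e2 : (6 * C * L ^ 3) * e.q ≤ Real.exp s * Real.exp (s / 2) :=
      mul_le_mul (ha1.trans hex) hqs hq0.le (Real.exp_pos _).le
    have e4 : Real.exp s * Real.exp (s / 2) * Real.exp (L / 2) ≤ X * Real.exp (-(2 * s)) := by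
      rw [hXe, ← Real.exp_add, ← Real.exp_add, ← Real.exp_add]
      exact Real.exp_le_exp.mpr (by linarith)
    have e5 : (6 * C * L ^ 3) * e.q * Real.exp (L / 2) ≤ Real.exp s * Real.exp (s / 2) * Real.exp (L / 2) :=
      mul_le_mul_of_nonneg_right e2 (Real.exp_pos _).le
    linarith
  have t3 : L * (2 * e.q * (X * Real.exp (-L ^ (9 / 20 : ℝ)))) ≤ X * Real.exp (-(2 * s)) / 3 := by
    have e1 : L * (2 * e.q * (X * Real.exp (-L ^ (9 / 20 : ℝ)))) =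
        (6 * L) * e.q * (X * Real.exp (-L ^ (9 / 20 : ℝ))) / 3 := by ring
    rw [e1]
    have e2 : (6 * L) * e.q ≤ Real.exp s * Real.exp (s / 2) :=
      mul_le_mul (ha2.trans hex) hqs hq0.le (Real.exp_pos _).le
    have e4 : Real.exp s * Real.exp (s / 2) * (X * Real.exp (-L ^ (9 / 20 : ℝ))) ≤
        X * Real.exp (-(2 * s)) := by
      have e6 : Real.exp s * Real.exp (s / 2) * (X * Real.exp (-L ^ (9 / 20 : ℝ))) =
          X * Real.exp (s + s / 2 - L ^ (9 / 20 : ℝ)) := by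
        rw [sub_eq_add_neg, Real.exp_add, Real.exp_add]
        ring
      rw [e6]
      refine mul_le_mul_of_nonneg_left (Real.exp_le_exp.mpr ?_) hX0.le
      linarith
    have e5 : (6 * L) * e.q * (X * Real.exp (-L ^ (9 / 20 : ℝ))) ≤
        Real.exp s * Real.exp (s / 2) * (X * Real.exp (-L ^ (9 / 20 : ℝ))) :=
      mul_le_mul_of_nonneg_right e2 (by positivity)
    linarith
  have hfin : L * (2 * e.q * B) = L * (2 * e.q * (C * (X / (Real.exp (4 * s) / e.q)) * L ^ 2)) +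
      L * (2 * e.q * (C * (X : ℝ) ^ (1 / 2 : ℝ) * L ^ 2)) + L * (2 * e.q * (X * Real.exp (-L ^ (9 / 20 : ℝ)))) := by
    rw [hB]
    ring
  rw [hfin]
  linarith

end Pool.Agent.H24W
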