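import Pool.Agent.Lib.H24W.TRD
import Pool.Agent.Lib.H24W.ERM
import Pool.Agent.Lib.H68T.V1

/-!
# H24W, MRG: minor arcs for the sieve
-/

open Finset

namespace Pool.Agent.H24W

open Pool.Agent.H16U
open Pool.Agent.HUK (GG Bdd)
open Pool.Agent.H44W (ee)
open Pool.Agent.Lib.H68T (lp PC p0 Reg Good Exc sw)
open Pool.Agent.Lib.Sieve (poly cT cE cA)

private def mrgC (u d : ℕ) : ℕ := (u + d - 1) / d

private theorem mrgC_le {u d m : ℕ} (hd : 0 < d) : mrgC u d ≤ m ↔ u ≤ d * m := by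
  unfold mrgC
  rw [Nat.div_le_iff_le_mul_add_pred hd]
  omega

private theorem mrgC_zero (u : ℕ) : mrgC u 0 = 0 := by
  unfold mrgC
  exact Nat.div_zero _

private theorem mrgC_lt {u d m : ℕ} (hd : 0 < d) : m < mrgC u d ↔ d * m < u := by
  rw [← not_le, mrgC_le hd, not_le]

private theorem mrgC_mono {u v : ℕ} (h : u ≤ v) (d : ℕ) : mrgC u d ≤ mrgC v d := by
  rcases Nat.eq_zero_or_pos d with hd | hd
  · rw [hd, mrgC_zero, mrgC_zero]
  · rw [mrgC_le hd]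
    exact h.trans ((mrgC_le hd).1 le_rfl)

private theorem mrgC_len {u v X : ℕ} (hv : v ≤ X) (d : ℕ) :
    (((mrgC v d : ℕ) : ℤ) : ℝ) - (((mrgC u d : ℕ) : ℤ) : ℝ) ≤ (X : ℝ) / d + 1 := by
  rcases Nat.eq_zero_or_pos d with hd | hd
  · rw [hd, mrgC_zero, mrgC_zero]
    simp
  · have hd' : (0 : ℝ) < d := by exact_mod_cast hd
    have h1 : (0 : ℝ) ≤ (((mrgC u d : ℕ) : ℤ) : ℝ) := by positivity
    have h2 : (((mrgC v d : ℕ) : ℤ) : ℝ) ≤ (X : ℝ) / d + 1 := by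
      rcases Nat.eq_zero_or_pos (mrgC v d) with h3 | h3
      · rw [h3]
        push_cast
        positivity
      · have h4 : mrgC v d - 1 < mrgC v d := by omega
        rw [mrgC_lt hd] at h4
        have h5 : ((d * (mrgC v d - 1) : ℕ) : ℝ) ≤ X := by exact_mod_cast (h4.le.trans hv)
        rw [Nat.cast_mul, Nat.cast_sub h3, Nat.cast_one] at h5
        rw [Int.cast_natCast, ← sub_le_iff_le_add, le_div_iff₀ hd']
        linarith
    linarith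

private theorem mrg_inner (θ : ℝ) (u v d : ℕ) (hd : 0 < d) :
    ∑ n ∈ (Ico u v).filter (fun n => d ∣ n), ee (θ * n) =
      ∑ m ∈ Ico ((mrgC u d : ℕ) : ℤ) ((mrgC v d : ℕ) : ℤ), Pool.Agent.Lib.H68T.e (d * m * θ) := by
  symm
  refine Finset.sum_nbij' (fun m : ℤ => d * m.toNat) (fun n : ℕ => ((n / d : ℕ) : ℤ)) ?_ ?_ ?_ ?_ ?_
  · intro m hm
    rw [mem_Ico] at hm
    rw [mem_filter, mem_Ico]
    have h0 : (0 : ℤ) ≤ m := le_trans (by positivity) hm.1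
    obtain ⟨k, rfl⟩ := Int.eq_ofNat_of_zero_le h0
    rw [Nat.cast_le, Nat.cast_lt, mrgC_le hd, mrgC_lt hd] at hm
    rw [Int.toNat_natCast]
    exact ⟨hm, dvd_mul_right _ _⟩
  · intro n hn
    rw [mem_filter, mem_Ico] at hn
    obtain ⟨k, rfl⟩ := hn.2
    rw [mem_Ico, Nat.mul_div_cancel_left _ hd, Nat.cast_le, Nat.cast_lt, mrgC_le hd, mrgC_lt hd]
    exact hn.1
  · intro m hm
    rw [mem_Ico] at hm
    have h0 : (0 : ℤ) ≤ m := le_trans (by positivity) hm.1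
    rw [Nat.mul_div_cancel_left _ hd]
    exact Int.toNat_of_nonneg h0
  · intro n hn
    rw [mem_filter, mem_Ico] at hn
    rw [Int.toNat_natCast]
    exact Nat.mul_div_cancel' hn.2
  · intro m hm
    rw [mem_Ico] at hm
    have h0 : (0 : ℤ) ≤ m := le_trans (by positivity) hm.1
    obtain ⟨k, rfl⟩ := Int.eq_ofNat_of_zero_le h0
    rw [Int.toNat_natCast]
    unfold Pool.Agent.Lib.H68T.e Pool.Agent.H44W.ee
    push_cast
    congr 1
    ring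

private theorem mrg_div (G : ℕ → ℝ) (A : ℕ) (hG : ∀ d, G d ≠ 0 → 1 ≤ d ∧ d ≤ A) (n : ℕ) (hn : 1 ≤ n) :
    ∑ d ∈ n.divisors, G d = ∑ d ∈ Icc 1 A, if d ∣ n then G d else 0 := by
  rw [← Finset.sum_filter]
  symm
  apply Finset.sum_subset
  · intro d hd
    rw [mem_filter] at hd
    rw [Nat.mem_divisors]
    exact ⟨hd.2, by omega⟩
  · intro d hd hd2
    by_contra h0
    apply hd2
    rw [mem_filter, mem_Icc]
    exact ⟨hG d h0, (Nat.mem_divisors.1 hd).1⟩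

private theorem mrg_ee (x : ℝ) : ‖ee x‖ = 1 := by
  unfold Pool.Agent.H44W.ee
  rw [Complex.norm_exp]
  simp

/-- The truncated part. -/
private theorem mrg_TR (X : ℕ) (θ : ℝ) (G : ℕ → ℝ) (A : ℕ) (hG1 : ∀ d, |G d| ≤ 1)
    (hG : ∀ d, G d ≠ 0 → 1 ≤ d ∧ d ≤ A) (hT : ∀ n : ℕ, 1 ≤ n → TR X (n : ℤ) = ∑ d ∈ n.divisors, G d)
    (u v : ℕ) (hu : 1 ≤ u) :
    ‖∑ n ∈ Ico u v, ((TR X n : ℝ) : ℂ) * ee (θ * n)‖ ≤
      ∑ d ∈ Icc 1 A, ‖∑ m ∈ Ico ((mrgC u d : ℕ) : ℤ) ((mrgC v d : ℕ) : ℤ), Pool.Agent.Lib.H68T.e (d * m * θ)‖ := by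
  have h1 : ∑ n ∈ Ico u v, ((TR X n : ℝ) : ℂ) * ee (θ * n) =
      ∑ d ∈ Icc 1 A, ((G d : ℝ) : ℂ) *
        ∑ m ∈ Ico ((mrgC u d : ℕ) : ℤ) ((mrgC v d : ℕ) : ℤ), Pool.Agent.Lib.H68T.e (d * m * θ) := by
    have h2 : ∀ n ∈ Ico u v, ((TR X n : ℝ) : ℂ) * ee (θ * n) =
        ∑ d ∈ Icc 1 A, if d ∣ n then ((G d : ℝ) : ℂ) * ee (θ * n) else 0 := by
      intro n hn
      rw [mem_Ico] at hn
      rw [hT n (hu.trans hn.1), mrg_div G A hG n (hu.trans hn.1), Complex.ofReal_sum, Finset.sum_mul]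
      refine Finset.sum_congr rfl fun d _ => ?_
      split_ifs
      · rfl
      · rw [Complex.ofReal_zero, zero_mul]
    rw [Finset.sum_congr rfl h2, Finset.sum_comm]
    refine Finset.sum_congr rfl fun d hd => ?_
    rw [mem_Icc] at hd
    rw [← mrg_inner θ u v d hd.1, ← Finset.sum_filter, Finset.mul_sum]
  rw [h1]
  refine (norm_sum_le _ _).trans (Finset.sum_le_sum fun d _ => ?_)
  rw [norm_mul, Complex.norm_real, Real.norm_eq_abs]
  calc |G d| * ‖∑ m ∈ Ico ((mrgC u d : ℕ) : ℤ) ((mrgC v d : ℕ) : ℤ), Pool.Agent.Lib.H68T.e (d * m * θ)‖ ≤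
      1 * ‖∑ m ∈ Ico ((mrgC u d : ℕ) : ℤ) ((mrgC v d : ℕ) : ℤ), Pool.Agent.Lib.H68T.e (d * m * θ)‖ :=
        mul_le_mul_of_nonneg_right (hG1 d) (norm_nonneg _)
    _ = _ := one_mul _

private theorem mrg_ER_nonneg (X : ℕ) (n : ℤ) : 0 ≤ ER X n := (abs_nonneg _).trans (rg_trunc X n)

private theorem mrg_err (X : ℕ) (θ : ℝ) (u v : ℕ) (hu : 1 ≤ u) (hv : v ≤ X) :
    ‖∑ n ∈ Ico u v, ((rg X n - TR X n : ℝ) : ℂ) * ee (θ * n)‖ ≤ ∑ n ∈ Icc 1 X, ER X (n : ℤ) := by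
  calc ‖∑ n ∈ Ico u v, ((rg X n - TR X n : ℝ) : ℂ) * ee (θ * n)‖
      ≤ ∑ n ∈ Ico u v, ‖((rg X n - TR X n : ℝ) : ℂ) * ee (θ * n)‖ := norm_sum_le _ _
    _ ≤ ∑ n ∈ Ico u v, ER X (n : ℤ) := by
        refine Finset.sum_le_sum fun n _ => ?_
        rw [norm_mul, mrg_ee, mul_one, Complex.norm_real, Real.norm_eq_abs]
        exact rg_trunc X n
    _ ≤ ∑ n ∈ Icc 1 X, ER X (n : ℤ) := by
        refine Finset.sum_le_sum_of_subset_of_nonneg (fun n hn => ?_) fun n _ _ => mrg_ER_nonneg X n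
        rw [mem_Ico] at hn
        rw [mem_Icc]
        omega

/-- `rg = TR + O(ER)` (`rg_trunc`, `er_mean`). `∑_{n ∈ Ico u v} TR X n ee(θ n) = ∑_{d ≤ A} G d ∑_{m} ee(d m θ)` (`TR_sum`, `A = wS^rS ≤ exp (L^(17/20)) ≤ X^(1/2)`), where for each
`d ≥ 1` `m` runs over an interval of length at most `X/d + 1`. `H68T.type_one` (H68T/V1; `N = X`, its `e` is the same as `ee`), with `N/q + A + q ≤ X/R + X^(1/2) + X/R`. -/
theorem minor_rg : ∃ (C : ℝ) (X0 : ℕ), 0 < C ∧ ∀ X : ℕ, X0 ≤ X → ∀ R : ℝ, 1 ≤ R → ∀ θ : ℝ, Mnr R (X / R) θ →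
    ∀ u v : ℕ, 1 ≤ u → v ≤ X → ‖∑ n ∈ Ico u v, ((rg X n : ℝ) : ℂ) * ee (θ * n)‖ ≤
      C * (X / R + (X : ℝ) ^ (1 / 2 : ℝ)) * (Real.log X) ^ 2 + X * Real.exp (-(Real.log X) ^ (9 / 20 : ℝ)) := by
  obtain ⟨C, hC, htype⟩ := Pool.Agent.Lib.H68T.type_one
  obtain ⟨X1, hX1⟩ := er_mean
  obtain ⟨X2, hX2⟩ := big_pow (show (17 / 20 : ℝ) < 1 by norm_num) 2
  obtain ⟨X3, hX3⟩ := big_L 1
  refine ⟨2 * C, max (max X1 X2) (max X3 2), by positivity, fun X hX R hR θ hM u v hu hv => ?_⟩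
  have hXX1 : X1 ≤ X := (le_max_left _ _).trans ((le_max_left _ _).trans hX)
  have hXX2 : X2 ≤ X := (le_max_right _ _).trans ((le_max_left _ _).trans hX)
  have hXX3 : X3 ≤ X := (le_max_left _ _).trans ((le_max_right _ _).trans hX)
  have hXX4 : 2 ≤ X := (le_max_right _ _).trans ((le_max_right _ _).trans hX)
  have hL := hX3 X hXX3
  have hL0 : 0 < Real.log (X : ℝ) := by linarith
  have hR0 : 0 < R := by linarith
  have hXr : (0 : ℝ) < X := by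
    have : 0 < X := by omega
    exact_mod_cast this
  have hRHS1 : 0 ≤ 2 * C * (X / R + (X : ℝ) ^ (1 / 2 : ℝ)) * (Real.log X) ^ 2 := by positivity
  rcases le_or_gt u v with huv | huv
  swap
  · rw [Finset.Ico_eq_empty (by omega), Finset.sum_empty, norm_zero]
    positivity
  obtain ⟨G, hG1, hG2, hT⟩ := TR_sum X
  obtain ⟨q, a, hq1, hco, hRq, hqN, hθ⟩ := hM
  have hq0 : (0 : ℝ) < q := by linarith
  have hXR : (X : ℝ) / R ≤ X := div_le_self hXr.le hR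
  have hqX : q ≤ X := by exact_mod_cast hqN.trans hXR
  have hA : ((wS X ^ rS X : ℕ) : ℝ) ≤ (X : ℝ) ^ (1 / 2 : ℝ) := by
    have e1 : (X : ℝ) ^ (1 / 2 : ℝ) = Real.exp (Real.log X / 2) := by
      rw [Real.rpow_def_of_pos hXr]
      congr 1
      ring
    rw [e1]
    push_cast
    calc (wS X : ℝ) ^ rS X ≤ (Real.exp ((Real.log X) ^ (2 / 5 : ℝ))) ^ rS X :=
          pow_le_pow_left₀ (Nat.cast_nonneg _) (wS_le X) _
      _ = Real.exp (rS X * (Real.log X) ^ (2 / 5 : ℝ)) := (Real.exp_nat_mul _ _).symm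
      _ ≤ Real.exp (Real.log X / 2) := by
          apply Real.exp_le_exp.2
          have h1 : (rS X : ℝ) * (Real.log X) ^ (2 / 5 : ℝ) ≤
              (Real.log X) ^ (9 / 20 : ℝ) * (Real.log X) ^ (2 / 5 : ℝ) :=
            mul_le_mul_of_nonneg_right (rS_le X) (Real.rpow_nonneg hL0.le _)
          have h2 : (Real.log X) ^ (9 / 20 : ℝ) * (Real.log X) ^ (2 / 5 : ℝ) = (Real.log X) ^ (17 / 20 : ℝ) := by
            rw [← Real.rpow_add hL0]
            norm_num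
          have h3 := hX2 X hXX2
          rw [Real.rpow_one] at h3
          linarith
  have hsqrtX : (X : ℝ) ^ (1 / 2 : ℝ) ≤ X := by
    calc (X : ℝ) ^ (1 / 2 : ℝ) ≤ (X : ℝ) ^ (1 : ℝ) :=
          Real.rpow_le_rpow_of_exponent_le (by
            have : 1 ≤ X := by omega
            exact_mod_cast this) (by norm_num)
      _ = X := Real.rpow_one _
  have hAX : wS X ^ rS X ≤ X := by exact_mod_cast hA.trans hsqrtX
  have h1 := mrg_TR X θ G (wS X ^ rS X) hG1 hG2 hT u v hu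
  have h2 := htype θ q a hq1 hco hθ X (wS X ^ rS X) hXX4 hqX hAX
    (fun d => ((mrgC u d : ℕ) : ℤ)) (fun d => ((mrgC v d : ℕ) : ℤ))
    (fun d => by exact_mod_cast mrgC_mono huv d) (fun d => mrgC_len hv d)
  have h3 := mrg_err X θ u v hu hv
  have h4 := hX1 X hXX1
  have hsplit : ∑ n ∈ Ico u v, ((rg X n : ℝ) : ℂ) * ee (θ * n) =
      ∑ n ∈ Ico u v, ((TR X n : ℝ) : ℂ) * ee (θ * n) +
        ∑ n ∈ Ico u v, ((rg X n - TR X n : ℝ) : ℂ) * ee (θ * n) := by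
    rw [← Finset.sum_add_distrib]
    refine Finset.sum_congr rfl fun n _ => ?_
    push_cast
    ring
  rw [hsplit]
  refine (norm_add_le _ _).trans (add_le_add ?_ (h3.trans h4))
  refine h1.trans (h2.trans ?_)
  have h5 : (X : ℝ) / q ≤ X / R := div_le_div_of_nonneg_left hXr.le hR0 hRq.le
  have h6 : (X : ℝ) / q + ((wS X ^ rS X : ℕ) : ℝ) + q ≤ 2 * (X / R + (X : ℝ) ^ (1 / 2 : ℝ)) := by
    have h7 : 0 ≤ (X : ℝ) ^ (1 / 2 : ℝ) := Real.rpow_nonneg hXr.le _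
    linarith
  calc C * ((X : ℝ) / q + ((wS X ^ rS X : ℕ) : ℝ) + q) * (Real.log X) ^ 2 ≤
      C * (2 * (X / R + (X : ℝ) ^ (1 / 2 : ℝ))) * (Real.log X) ^ 2 := by
        apply mul_le_mul_of_nonneg_right _ (by positivity)
        exact mul_le_mul_of_nonneg_left h6 hC.le
    _ = 2 * C * (X / R + (X : ℝ) ^ (1 / 2 : ℝ)) * (Real.log X) ^ 2 := by ring

end Pool.Agent.H24W
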