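import Pool.Agent.Lib.H24W.PSIG
import Pool.Agent.Lib.H24W.DICH
import Pool.Agent.Lib.H68X.XPN0
import Pool.Agent.Lib.H68X.XPN1
import Pool.Agent.Lib.H68X.XZ4
import Pool.Agent.Lib.H68X.XSIE

/-!
# H24W, PSIA: all primitive characters of a level
-/

open Finset

namespace Pool.Agent.H24W

open Pool.Agent.H16U
open Pool.Agent.HUK (GG Bdd)
open Pool.Agent.H44W (ee)
open Pool.Agent.Lib.H68T (lp PC p0 Reg Good Exc sw)
open Pool.Agent.Lib.Sieve (poly cT cE cA)

/-- The trivial character. -/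
theorem PSIA_p0 {Q X : ℕ} {K : ℝ}
    (h : |∑ m ∈ Icc 1 ⌊(X : ℝ)⌋₊, (ArithmeticFunction.vonMangoldt m - 1)| ≤ X * sw K Q X) :
    ‖∑ m ∈ Icc 1 X, ((ArithmeticFunction.vonMangoldt m : ℂ) * p0.2 (m : ZMod p0.1) - ((1 : ℝ) : ℂ))‖ ≤
      X * sw K Q X := by
  rw [Nat.floor_natCast] at h
  have h1 : ∑ m ∈ Icc 1 X, ((ArithmeticFunction.vonMangoldt m : ℂ) * p0.2 (m : ZMod p0.1) - ((1 : ℝ) : ℂ)) =
      ((∑ m ∈ Icc 1 X, (ArithmeticFunction.vonMangoldt m - 1) : ℝ) : ℂ) := by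
    rw [Complex.ofReal_sum]
    refine Finset.sum_congr rfl fun m _ => ?_
    have h2 : p0.2 (m : ZMod p0.1) = 1 := by
      show (1 : DirichletCharacter ℂ 1) (m : ZMod 1) = 1
      exact MulChar.one_apply (isUnit_of_subsingleton _)
    rw [h2, mul_one]
    push_cast
    rfl
  rw [h1, Complex.norm_real, Real.norm_eq_abs]
  exact h

/-- A primitive character different from the trivial one of conductor 1 is not trivial. -/
theorem PSIA_ne {r : ℕ} {ψ : DirichletCharacter ℂ r} (hprim : ψ.IsPrimitive)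
    (hne : (⟨r, ψ⟩ : Σ r : ℕ, DirichletCharacter ℂ r) ≠ p0) (h1 : 1 ≤ r) : ψ ≠ 1 := by
  intro hψ
  apply hne
  have hr : r = 1 := by
    have hne' : NeZero r := ⟨by omega⟩
    have h3 : ψ.conductor = r := hprim
    rw [hψ, DirichletCharacter.conductor_one] at h3
    exact h3.symm
  subst hr
  rw [hψ]
  rfl

/-- `c = min c₀ c₁` with `c₀` of `dich` and `c₁` of `H68T.log_exc` (H68X/XZ4), `c0 = min (1/2) c₂` with `c₂` of `H68T.zero_elementary` (H68X/XSIE).
By `dich`: if `Good c Q` take `e = EX.none` (`Ok`: the trivial character mod 1 is primitive, `1 - 1/2 ≥ c0/1`); then `e.mt p m = 1` for `p = p0`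
(`H68T.pnt_sw` with `u = X`, `p0.2 (m) = 1`, real sum) and `0` otherwise (`psi_good c`; `p.2 ≠ 1` because a primitive trivial character has
conductor 1, see the proof of `H68T.exc_data` in H68X/XEX). Otherwise `e = ⟨1, r, ψ, β⟩` (`β ≥ 1 - c/log Q ≥ 3/4` for `Q` large): for `p = p0` `pnt_sw`
(`p0 ≠ e.pr` as `ψ ≠ 1`), for `p = e.pr` `H68T.exc_sum_sw` with `log_exc` (`mt = - m^(β-1)`), for all others `psi_good c`. -/
theorem psi_all : ∃ c0 K : ℝ, 0 < c0 ∧ 1 ≤ K ∧ ∀ Q : ℕ, K ≤ Q → ∃ e : EX, e.Ok c0 ∧ e.q ≤ Q ∧ ∀ X : ℕ, Reg K Q X →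
    ∀ p ∈ PC Q, ‖∑ m ∈ Icc 1 X, ((ArithmeticFunction.vonMangoldt m : ℂ) * p.2 (m : ZMod p.1) - ((e.mt p m : ℝ) : ℂ))‖ ≤
      X * sw K Q X := by
  obtain ⟨c₀, K₀, hc₀, hdich⟩ := dich
  obtain ⟨c₁, c', C, K₁, hc₁, hc', hC, hlog⟩ := Pool.Agent.Lib.H68T.log_exc
  obtain ⟨c₂, hc₂, hzero⟩ := Pool.Agent.Lib.H68T.zero_elementary
  obtain ⟨K₃, hK₃, hpnt⟩ := Pool.Agent.Lib.H68T.pnt_sw
  obtain ⟨K₄, hK₄, hexc⟩ := Pool.Agent.Lib.H68T.exc_sum_sw c' C hc'
  obtain ⟨c, hcdef⟩ : ∃ c : ℝ, c = min c₀ c₁ := ⟨_, rfl⟩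
  have hc : 0 < c := by rw [hcdef]; exact lt_min hc₀ hc₁
  have hcc₀ : c ≤ c₀ := by rw [hcdef]; exact min_le_left _ _
  have hcc₁ : c ≤ c₁ := by rw [hcdef]; exact min_le_right _ _
  obtain ⟨K₅, hK₅, hgood⟩ := psi_good c hc
  obtain ⟨K, hKdef⟩ : ∃ K : ℝ, K = |K₀| + |K₁| + K₃ + K₄ + K₅ + Real.exp (4 * c) + 2 := ⟨_, rfl⟩
  have a0 := abs_nonneg K₀
  have a1 := abs_nonneg K₁
  have a2 := (Real.exp_pos (4 * c)).le
  have b0 := le_abs_self K₀
  have b1 := le_abs_self K₁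
  have hK1 : 1 ≤ K := by rw [hKdef]; linarith
  have hK0 : 0 ≤ K := by linarith
  have k3 : K₃ ≤ K := by rw [hKdef]; linarith
  have k4 : K₄ ≤ K := by rw [hKdef]; linarith
  have k5 : K₅ ≤ K := by rw [hKdef]; linarith
  refine ⟨min (1 / 2) c₂, K, lt_min (by norm_num) hc₂, hK1, ?_⟩
  intro Q hQ
  have hQ0 : K₀ ≤ Q := by rw [hKdef] at hQ; linarith
  have hQ1 : K₁ ≤ Q := by rw [hKdef] at hQ; linarith
  have hQe : Real.exp (4 * c) ≤ Q := by rw [hKdef] at hQ; linarith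
  have hQ2 : (1 : ℝ) ≤ Q := by linarith
  have hQn : 1 ≤ Q := by exact_mod_cast hQ2
  have hQpos : (0 : ℝ) < Q := by linarith
  -- the error terms
  have hsw : ∀ K' : ℝ, 1 ≤ K' → K' ≤ K → ∀ X : ℕ, (X : ℝ) * sw K' Q X ≤ X * sw K Q X := by
    intro K' h1 h2 X
    exact mul_le_mul_of_nonneg_left (Pool.Agent.Lib.H68T.sw_mono (by linarith) h2 hQn) (Nat.cast_nonneg X)
  have hX8 : ∀ X : ℕ, (X : ℝ) / 8 ≤ X := by
    intro X
    have : (0 : ℝ) ≤ X := Nat.cast_nonneg X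
    linarith
  have hX60 : ∀ X : ℕ, (X : ℝ) ≤ 60 * X := by
    intro X
    have : (0 : ℝ) ≤ X := Nat.cast_nonneg X
    linarith
  -- the trivial character
  have hp0 : ∀ X : ℕ, Reg K Q X →
      ‖∑ m ∈ Icc 1 X, ((ArithmeticFunction.vonMangoldt m : ℂ) * p0.2 (m : ZMod p0.1) - ((1 : ℝ) : ℂ))‖ ≤
        X * sw K Q X := by
    intro X hX
    exact (PSIA_p0 (hpnt Q X (hX.mono hK0 k3) X (hX8 X) (hX60 X))).trans (hsw K₃ hK₃ k3 X)
  -- the other characters without exceptional zeros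
  have hoth : ∀ X : ℕ, Reg K Q X → ∀ p ∈ PC Q, p ≠ p0 →
      (∀ (r : ℕ) [NeZero r] (ψ : DirichletCharacter ℂ r), (⟨r, ψ⟩ : Σ r : ℕ, DirichletCharacter ℂ r) = p →
        ψ ^ 2 = 1 → ∀ σ : ℝ, 1 - c / Real.log Q ≤ σ → σ ≤ 1 → ψ.LFunction (σ : ℂ) ≠ 0) →
      ‖∑ m ∈ Icc 1 X, ((ArithmeticFunction.vonMangoldt m : ℂ) * p.2 (m : ZMod p.1) - ((0 : ℝ) : ℂ))‖ ≤
        X * sw K Q X := by
    rintro X hX ⟨r, ψ⟩ hp hpne hz
    obtain ⟨h1, h2, h3⟩ := Pool.Agent.Lib.H68T.mem_PC.mp hp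
    have h1' : 1 ≤ r := h1
    have hr : NeZero r := ⟨by omega⟩
    have hψ : ψ ≠ 1 := PSIA_ne h3 hpne h1'
    have h4 := hgood Q X (hX.mono hK0 k5) r ψ h2 h3 hψ (hz r ψ rfl)
    have h5 : ∑ m ∈ Icc 1 X, ((ArithmeticFunction.vonMangoldt m : ℂ) * ψ (m : ZMod r) - ((0 : ℝ) : ℂ)) =
        ∑ m ∈ Icc 1 X, (ArithmeticFunction.vonMangoldt m : ℂ) * ψ (m : ZMod r) := by
      refine Finset.sum_congr rfl fun m _ => ?_
      rw [Complex.ofReal_zero, sub_zero]
    show ‖∑ m ∈ Icc 1 X, ((ArithmeticFunction.vonMangoldt m : ℂ) * ψ (m : ZMod r) - ((0 : ℝ) : ℂ))‖ ≤ _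
    rw [h5]
    exact h4.trans (hsw K₅ hK₅ k5 X)
  rcases hdich c hc hcc₀ Q hQ0 with hG | ⟨r, hr, ψ, β, hE, hun⟩
  · refine ⟨EX.none, ?_, hQn, ?_⟩
    · exact
        { q_pos := le_rfl
          x01 := Or.inl rfl
          prim := DirichletCharacter.isPrimitive_one_level_one
          ne := fun h => absurd h (by show ¬ ((0 : ℝ) = 1); norm_num)
          sq := one_pow 2
          half := le_rfl
          lt := by show (1 / 2 : ℝ) < 1; norm_num
          low := by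
            show min (1 / 2) c₂ / ((1 : ℕ) : ℝ) ^ 2 ≤ 1 - 1 / 2
            rw [Nat.cast_one, one_pow, div_one]
            exact (min_le_left _ _).trans (by norm_num)
          one := fun _ => rfl }
    · intro X hX p hp
      by_cases hpp : p = p0
      · have hm : ∀ m, EX.none.mt p m = 1 := by
          intro m
          unfold EX.mt
          rw [if_pos hpp, if_neg (fun h => absurd h.1 (by show ¬ ((0 : ℝ) = 1); norm_num)), sub_zero]
        simp only [hm]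
        rw [hpp]
        exact hp0 X hX
      · have hm : ∀ m, EX.none.mt p m = 0 := by
          intro m
          unfold EX.mt
          rw [if_neg hpp, if_neg (fun h => absurd h.1 (by show ¬ ((0 : ℝ) = 1); norm_num)), sub_zero]
        simp only [hm]
        refine hoth X hX p hp hpp ?_
        intro r' _ ψ' hp' hsq σ hσ hσ1
        subst hp'
        obtain ⟨h1, h2, h3⟩ := Pool.Agent.Lib.H68T.mem_PC.mp hp
        exact hG r' ψ' h2 h3 (PSIA_ne h3 hpp h1) hsq σ hσ hσ1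
  · obtain ⟨hrQ, hprim, hne, hsq, hβ, hβ1, hz⟩ := hE
    have hlogQ : 4 * c ≤ Real.log Q := (Real.le_log_iff_exp_le hQpos).2 hQe
    have hlog0 : 0 < Real.log Q := by linarith
    have hβ34 : 3 / 4 ≤ β := by
      have h2 : c / Real.log Q ≤ 1 / 4 := by
        rw [div_le_iff₀ hlog0]
        linarith
      linarith
    have hβc₁ : 1 - c₁ / Real.log Q ≤ β := by
      have : c / Real.log Q ≤ c₁ / Real.log Q := div_le_div_of_nonneg_right hcc₁ hlog0.le
      linarith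
    have hr1 : 1 ≤ r := NeZero.one_le
    have hpr0 : (⟨r, ψ⟩ : Σ r : ℕ, DirichletCharacter ℂ r) ≠ p0 := by
      intro h
      obtain ⟨h1, h2⟩ := Sigma.mk.inj_iff.1 h
      subst h1
      exact hne (eq_of_heq h2)
    refine ⟨⟨1, r, ψ, β⟩, ?_, hrQ, ?_⟩
    · exact
        { q_pos := hr1
          x01 := Or.inr rfl
          prim := hprim
          ne := fun _ => hne
          sq := hsq
          half := by show (1 / 2 : ℝ) ≤ β; linarith
          lt := hβ1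
          low := by
            show min (1 / 2) c₂ / (r : ℝ) ^ 2 ≤ 1 - β
            refine le_trans ?_ (hzero r ψ hne hsq β hβ1 hz)
            exact div_le_div_of_nonneg_right (min_le_right _ _) (by positivity)
          one := fun h => absurd h (by show ¬ ((1 : ℝ) = 0); norm_num) }
    · intro X hX p hp
      by_cases hpp : p = p0
      · have hpne : ¬ p = (⟨1, r, ψ, β⟩ : EX).pr := by
          intro h
          exact hpr0 (h.symm.trans hpp)
        have hm : ∀ m, (⟨1, r, ψ, β⟩ : EX).mt p m = 1 := by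
          intro m
          unfold EX.mt
          rw [if_pos hpp, if_neg (fun h => hpne h.2), sub_zero]
        simp only [hm]
        rw [hpp]
        exact hp0 X hX
      · by_cases hpe : p = (⟨1, r, ψ, β⟩ : EX).pr
        · have hm : ∀ m, (⟨1, r, ψ, β⟩ : EX).mt p m = - (m : ℝ) ^ (β - 1) := by
            intro m
            unfold EX.mt
            rw [if_neg hpp, if_pos ⟨rfl, hpe⟩, zero_sub]
          simp only [hm]
          have h1 := hexc Q X (hX.mono hK0 k4) ⟨r, ψ⟩ hr1 β (by linarith) hβ1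
            (hlog Q hQ1 r ψ hrQ hprim hne hsq β hβ34 hβc₁ hβ1 hz) X (hX8 X) (hX60 X)
          rw [Nat.floor_natCast] at h1
          have h2 : ∑ m ∈ Icc 1 X, ((ArithmeticFunction.vonMangoldt m : ℂ) * p.2 (m : ZMod p.1) -
              ((-(m : ℝ) ^ (β - 1) : ℝ) : ℂ)) =
              ∑ m ∈ Icc 1 X, ((ArithmeticFunction.vonMangoldt m : ℂ) * ψ (m : ZMod r) +
                (((m : ℝ) ^ (β - 1) : ℝ) : ℂ)) := by
            rw [hpe]
            refine Finset.sum_congr rfl fun m _ => ?_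
            rw [Complex.ofReal_neg, sub_neg_eq_add]
            rfl
          rw [h2]
          exact h1.trans (hsw K₄ hK₄ k4 X)
        · have hm : ∀ m, (⟨1, r, ψ, β⟩ : EX).mt p m = 0 := by
            intro m
            unfold EX.mt
            rw [if_neg hpp, if_neg (fun h => hpe h.2), sub_zero]
          simp only [hm]
          refine hoth X hX p hp hpp ?_
          intro r' _ ψ' hp' hsq' σ hσ hσ1
          subst hp'
          obtain ⟨h1, h2, h3⟩ := Pool.Agent.Lib.H68T.mem_PC.mp hp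
          exact hun r' ψ' h2 h3 (PSIA_ne h3 hpp h1) hsq' hpe σ hσ hσ1

end Pool.Agent.H24W
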