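import Pool.Agent.Lib.H24W.BAS
import Pool.Agent.Lib.H59C.SW2

/-!
# H24W, PSIG: sums of `Λ χ` for one character without exceptional zero
-/

open Finset

namespace Pool.Agent.H24W

open Pool.Agent.H16U
open Pool.Agent.HUK (GG Bdd)
open Pool.Agent.H44W (ee)
open Pool.Agent.Lib.H68T (lp PC p0 Reg Good Exc sw)
open Pool.Agent.Lib.Sieve (poly cT cE cA)

/-- `sw` increases with `K`. -/
private theorem psig_sw {K K' : ℝ} {Q X : ℕ} (hK : 1 ≤ K) (hKK : K ≤ K') (hQ : 0 < Real.log Q)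
    (hX : 0 ≤ Real.log X) (hQ1 : 1 ≤ (Q : ℝ)) : sw K Q X ≤ sw K' Q X := by
  have hK0 : 0 < K := by linarith
  have hK0' : 0 < K' := by linarith
  unfold sw
  refine add_le_add ?_ ?_
  · refine Real.exp_le_exp.mpr (neg_le_neg ?_)
    refine div_le_div_of_nonneg_left hX (mul_pos hK0 hQ) ?_
    exact mul_le_mul_of_nonneg_right hKK hQ.le
  · refine Real.rpow_le_rpow_of_exponent_le hQ1 (neg_le_neg ?_)
    exact one_div_le_one_div_of_le hK0 hKK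

/-- `LogInv` from `H59C.log_single c` (file H59C/SW1), then `H59C.psi_of_log` (H59C/SW2) with `u = X` (`⌊(X:ℝ)⌋₊ = X`). `K` = maximum of
the two constants (both needed: `K₁ ≤ Q` follows from `Reg K Q X` since `log Q ≥ K loglog X ≥ K^2 ≥ K`, cf. `Reg.logQ_ge`). -/
theorem psi_good (c : ℝ) (hc : 0 < c) : ∃ K : ℝ, 1 ≤ K ∧ ∀ Q X : ℕ, Reg K Q X →
    ∀ (r : ℕ) [NeZero r] (ψ : DirichletCharacter ℂ r), r ≤ Q → ψ.IsPrimitive → ψ ≠ 1 →
    (ψ ^ 2 = 1 → ∀ σ : ℝ, 1 - c / Real.log Q ≤ σ → σ ≤ 1 → ψ.LFunction (σ : ℂ) ≠ 0) →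
    ‖∑ m ∈ Icc 1 X, (ArithmeticFunction.vonMangoldt m : ℂ) * ψ (m : ZMod r)‖ ≤ X * sw K Q X := by
  obtain ⟨c', C, K₁, hc', _, h1⟩ := Pool.Agent.Lib.H59C.log_single c hc
  obtain ⟨K₂, hK₂, h2⟩ := Pool.Agent.Lib.H59C.psi_of_log c' C hc'
  refine ⟨K₁ ⊔ K₂, hK₂.trans le_sup_right, ?_⟩
  intro Q X hreg r _ ψ hr hprim hψ hgood
  have hK1 : (1 : ℝ) ≤ K₁ ⊔ K₂ := hK₂.trans le_sup_right
  have hK0 : (0 : ℝ) < K₁ ⊔ K₂ := by linarith
  have hQ : K₁ ≤ Q := le_sup_left.trans (hreg.Q_ge hK1)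
  have hL := h1 Q hQ r ψ hr hprim hψ hgood
  have hreg2 : Reg K₂ Q X := hreg.mono hK0.le le_sup_right
  have hX0 : (0 : ℝ) ≤ X := Nat.cast_nonneg X
  have h3 := h2 Q X hreg2 ⟨r, ψ⟩ (Nat.one_le_iff_ne_zero.mpr (NeZero.ne r)) hL X
    (by linarith) (by linarith)
  rw [Nat.floor_natCast] at h3
  refine h3.trans (mul_le_mul_of_nonneg_left ?_ hX0)
  have hlQ : 0 < Real.log Q := by
    have := hreg.logQ_ge hK1
    linarith
  have hlX : 0 ≤ Real.log X := by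
    have := hreg.logX_ge_one hK0
    linarith
  have hQ1 : (1 : ℝ) ≤ Q := hK1.trans (hreg.Q_ge hK1)
  exact psig_sw hK₂ le_sup_right hlQ hlX hQ1

end Pool.Agent.H24W
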