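import Pool.Agent.Lib.H24W.BON1
import Pool.Agent.Lib.H24W.BON2
import Pool.Agent.Lib.H24W.CLS

/-!
# H24W, SCL: the sieve in progressions
-/

open Finset

namespace Pool.Agent.H24W

open Pool.Agent.H16U
open Pool.Agent.HUK (GG Bdd)
open Pool.Agent.H44W (ee)
open Pool.Agent.Lib.H68T (lp PC p0 Reg Good Exc sw)
open Pool.Agent.Lib.Sieve (poly cT cE cA)

private theorem SCL_cT (r : ℕ) (D : Finset ℕ) : |cT r D| ≤ cA (r + 1) D := by
  unfold cT cA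
  by_cases h : D.card ≤ r
  · rw [if_pos h, if_pos (by omega), abs_pow, abs_neg, abs_one, one_pow]
  · rw [if_neg h, abs_zero]
    split_ifs <;> norm_num

private theorem SCL_cE (r : ℕ) (D : Finset ℕ) : |cE (r + 1) D| ≤ cA (r + 1) D := by
  unfold cE cA
  by_cases h : D.card = r + 1
  · rw [if_pos h, if_pos (by omega), abs_one]
  · rw [if_neg h, abs_zero]
    split_ifs <;> norm_num

private theorem SCL_rg (X q : ℕ) (b : ℤ) (hb : IsCoprime b (q : ℤ)) (u n : ℕ) (hn : n ∈ cl u q b) :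
    rg X n = ∏ p ∈ (PS X).filter (fun p => ¬ p ∣ q), (1 - dv n p) := by
  rw [rg_prod, prod_filter]
  refine prod_congr rfl fun p hp => ?_
  by_cases h : p ∣ q
  · rw [if_neg (fun h' => h' h)]
    have hpr : p.Prime := (mem_PS.mp hp).1
    have h1 : ¬ ((p : ℤ) ∣ (n : ℤ)) := by
      intro h2
      have h3 : (n : ℤ) ≡ b [ZMOD q] := (mem_cl.mp hn).2
      have h4 : (p : ℤ) ∣ (q : ℤ) := by exact_mod_cast h
      have h5 : (p : ℤ) ∣ b := by
        have h6 : (q : ℤ) ∣ b - n := Int.ModEq.dvd h3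
        have h7 : (p : ℤ) ∣ b - n := h4.trans h6
        have h8 := dvd_add h7 h2
        rwa [sub_add_cancel] at h8
      have h9 : IsUnit (p : ℤ) := hb.isUnit_of_dvd' h5 h4
      rw [Int.isUnit_iff] at h9
      have h10 := hpr.two_le
      omega
    unfold dv
    rw [if_neg h1, sub_zero]
  · rw [if_pos h]

private theorem SCL_main (X q : ℕ) (hq : 1 ≤ q) (hqw : ∀ p : ℕ, p.Prime → p ∣ q → p ≤ wS X) (u : ℕ) :
    (u : ℝ) / q * ∏ p ∈ (PS X).filter (fun p => ¬ p ∣ q), (1 - 1 / (p : ℝ)) =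
      u / (Nat.totient q * cS X) := by
  have hq0 : (q : ℝ) ≠ 0 := by
    have : 0 < q := hq
    positivity
  have h1 : (PS X).filter (fun p => p ∣ q) = q.primeFactors := by
    ext p
    rw [mem_filter, Nat.mem_primeFactors, mem_PS]
    constructor
    · rintro ⟨⟨h1, _⟩, h2⟩
      exact ⟨h1, h2, by omega⟩
    · rintro ⟨h1, h2, _⟩
      exact ⟨⟨h1, hqw p h1 h2⟩, h2⟩
  have h2 : (Nat.totient q : ℝ) = q * ∏ p ∈ q.primeFactors, (1 - 1 / (p : ℝ)) := by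
    have h3 := Nat.totient_eq_mul_prod_factors q
    have h4 : ((Nat.totient q : ℚ) : ℝ) = ((q * ∏ p ∈ q.primeFactors, (1 - (p : ℚ)⁻¹) : ℚ) : ℝ) := by
      rw [h3]
    push_cast at h4
    rw [h4]
    simp only [one_div]
  have hne : ∀ p ∈ PS X, (1 - 1 / (p : ℝ)) ≠ 0 := by
    intro p hp
    have hp2 : (2 : ℝ) ≤ p := by exact_mod_cast (mem_PS.mp hp).1.two_le
    have : 1 / (p : ℝ) ≤ 1 / 2 := one_div_le_one_div_of_le (by norm_num) hp2
    intro h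
    linarith
  have h5 : (cS X)⁻¹ = ∏ p ∈ PS X, (1 - 1 / (p : ℝ)) := by
    unfold cS
    rw [prod_inv_distrib, inv_inv]
  have h6 : ∏ p ∈ PS X, (1 - 1 / (p : ℝ)) = (∏ p ∈ q.primeFactors, (1 - 1 / (p : ℝ))) *
      ∏ p ∈ (PS X).filter (fun p => ¬ p ∣ q), (1 - 1 / (p : ℝ)) := by
    rw [← h1]
    exact (prod_filter_mul_prod_filter_not (PS X) (fun p => p ∣ q) _).symm
  have h7 : ∏ p ∈ q.primeFactors, (1 - 1 / (p : ℝ)) ≠ 0 := by
    rw [← h1]
    exact prod_ne_zero_iff.mpr fun p hp => hne p (mem_of_mem_filter p hp)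
  rw [div_eq_mul_inv (u : ℝ) ((Nat.totient q : ℝ) * cS X), mul_inv, h5, h6, h2]
  field_simp

/-- `P' = (PS X).filter (¬ · ∣ q)`. For `n ∈ cl u q b`: `rg X n = ∏_{p ∈ P'} (1 - dv n p)` (`rg_prod`; `p ∣ q`, `(b, q) = 1`: `dv n p = 0`). By `trunc_le` and
`cl_poly` for `cT r` and `cE (r+1)` (`|cT r D|, |cE (r+1) D| ≤ cA (r+1) D`) and `trunc_le` for `f p = 1/p`: the sum is
`(u/q) ∏_{p ∈ P'} (1 - 1/p)` up to `2 poly (cA (r+1)) 1 P' + 2 (u/q) poly (cE (r+1)) (1/p) P'`; and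
`(u/q) ∏_{P'} (1 - 1/p) = (u/q) ∏_{PS X} (1 - 1/p) ∏_{p ∣ q} (1 - 1/p)⁻¹ = u/(φ(q) cS X)` (all prime factors of `q` are in `PS X`;
`Nat.totient_eq_mul_prod_factors`). Sizes: `cE_small`, `cA_small`, `exp (5 L^(17/20)) ≤ X exp (-L^(9/20))/8`. -/
theorem sieve_class : ∃ X0 : ℕ, ∀ X : ℕ, X0 ≤ X → ∀ q : ℕ, 1 ≤ q → (∀ p : ℕ, p.Prime → p ∣ q → p ≤ wS X) →
    ∀ b : ℤ, IsCoprime b (q : ℤ) → ∀ u : ℕ, u ≤ X →
    |∑ n ∈ cl u q b, rg X n - u / (Nat.totient q * cS X)| ≤ X * Real.exp (-(Real.log X) ^ (9 / 20 : ℝ)) := by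
  obtain ⟨X1, hX1⟩ := cE_small
  obtain ⟨X2, hX2⟩ := cA_small
  obtain ⟨X3, hX3⟩ := big_pow (show (17 / 20 : ℝ) < 1 by norm_num) 12
  obtain ⟨X4, hX4⟩ := big_L 4
  obtain ⟨X5, hX5⟩ := big_pow (show (0 : ℝ) < 9 / 20 by norm_num) 4
  refine ⟨X1 + X2 + X3 + X4 + X5 + 1, fun X hX q hq hqw b hb u hu => ?_⟩
  set P := (PS X).filter (fun p => ¬ p ∣ q) with hP
  have hPP : P ⊆ PS X := filter_subset _ _
  have hPpr : ∀ p ∈ P, p.Prime := fun p hp => (mem_PS.mp (hPP hp)).1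
  have hPq : ∀ p ∈ P, ¬ p ∣ q := fun p hp => (mem_filter.mp hp).2
  have e1 := hX1 X (by omega) P hPP
  have e2 := hX2 X (by omega) P hPP
  have e3 := hX3 X (by omega)
  have e4 := hX4 X (by omega)
  have e5 := hX5 X (by omega)
  rw [Real.rpow_one] at e3
  rw [Real.rpow_zero, mul_one] at e5
  set r := rS X with hr
  have f0 : ∀ p ∈ P, 0 ≤ 1 / (p : ℝ) := fun p _ => by positivity
  have f1 : ∀ p ∈ P, 1 / (p : ℝ) ≤ 1 := fun p hp => by
    have h1 : (1 : ℝ) ≤ p := by exact_mod_cast (hPpr p hp).one_le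
    rw [div_le_one (by linarith)]
    exact h1
  have t0 := trunc_le P (fun p : ℕ => 1 / (p : ℝ)) f0 f1 r
  have c1 := cl_poly u q hq b P hPpr hPq (cT r) (r + 1) (SCL_cT r)
  have c2 := cl_poly u q hq b P hPpr hPq (cE (r + 1)) (r + 1) (SCL_cE r)
  set A := poly (cA (r + 1)) (fun _ : ℕ => 1) P with hA
  set E := poly (cE (r + 1)) (fun p : ℕ => 1 / (p : ℝ)) P with hE
  have t1 : |∑ n ∈ cl u q b, poly (cT r) (dv n) P - ∑ n ∈ cl u q b, rg X n| ≤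
      ∑ n ∈ cl u q b, poly (cE (r + 1)) (dv n) P := by
    rw [← sum_sub_distrib]
    refine (abs_sum_le_sum_abs _ _).trans (sum_le_sum fun n hn => ?_)
    rw [SCL_rg X q b hb u n hn]
    exact trunc_le P (dv n) (fun p _ => dv_nonneg _ p) (fun p _ => dv_le_one _ p) r
  have hmain := SCL_main X q hq hqw u
  rw [← hP] at hmain
  have hq1 : (1 : ℝ) ≤ q := by exact_mod_cast hq
  have hu0 : (0 : ℝ) ≤ u := Nat.cast_nonneg u
  have huX : (u : ℝ) ≤ X := by exact_mod_cast hu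
  have hy0 : 0 ≤ (u : ℝ) / q := by positivity
  have hyX : (u : ℝ) / q ≤ X := (div_le_self hu0 hq1).trans huX
  have hE0 : 0 ≤ E := (abs_nonneg _).trans t0
  have key : |∑ n ∈ cl u q b, rg X n - u / (Nat.totient q * cS X)| ≤ 2 * A + 2 * (X * E) := by
    rw [← hmain]
    have k1 : |(u : ℝ) / q * poly (cT r) (fun p : ℕ => 1 / (p : ℝ)) P -
        (u : ℝ) / q * ∏ p ∈ P, (1 - 1 / (p : ℝ))| ≤ X * E := by
      rw [← mul_sub, abs_mul, abs_of_nonneg hy0]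
      exact mul_le_mul hyX t0 (abs_nonneg _) (by positivity)
    have k2 : (u : ℝ) / q * E ≤ X * E := mul_le_mul_of_nonneg_right hyX hE0
    rw [abs_le] at c1 c2 t1 k1 ⊢
    constructor <;> linarith [c1.1, c1.2, c2.1, c2.2, t1.1, t1.2, k1.1, k1.2]
  refine key.trans ?_
  set L := Real.log X with hL
  have hXe : (X : ℝ) = Real.exp L := X_exp (by omega)
  have hL1 : (1 : ℝ) ≤ L := by linarith
  have hpw : L ^ (9 / 20 : ℝ) ≤ L ^ (17 / 20 : ℝ) := Real.rpow_le_rpow_of_exponent_le hL1 (by norm_num)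
  have h4e : (4 : ℝ) ≤ Real.exp 2 := by
    have h := Real.add_one_le_exp (1 : ℝ)
    have h' : Real.exp 2 = Real.exp 1 * Real.exp 1 := by rw [← Real.exp_add]; norm_num
    rw [h']
    nlinarith
  have s1 : 4 * A ≤ X * Real.exp (-L ^ (9 / 20 : ℝ)) := by
    calc 4 * A ≤ Real.exp 2 * Real.exp (5 * L ^ (17 / 20 : ℝ)) :=
          mul_le_mul h4e e2 (Pool.Agent.Lib.Sieve.poly_nonneg (fun D => by unfold cA; split_ifs <;> norm_num) (fun _ _ => by norm_num)) (Real.exp_pos _).le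
      _ = Real.exp (2 + 5 * L ^ (17 / 20 : ℝ)) := by rw [← Real.exp_add]
      _ ≤ Real.exp (L + -L ^ (9 / 20 : ℝ)) := Real.exp_le_exp.mpr (by linarith)
      _ = X * Real.exp (-L ^ (9 / 20 : ℝ)) := by rw [Real.exp_add, ← hXe]
  have s2 : 4 * (X * E) ≤ X * Real.exp (-L ^ (9 / 20 : ℝ)) := by
    have h1 : 4 * E ≤ Real.exp (-L ^ (9 / 20 : ℝ)) := by
      calc 4 * E ≤ Real.exp 2 * Real.exp (-(3 / 2 * L ^ (9 / 20 : ℝ))) := mul_le_mul h4e e1 hE0 (Real.exp_pos _).le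
        _ = Real.exp (2 + -(3 / 2 * L ^ (9 / 20 : ℝ))) := by rw [← Real.exp_add]
        _ ≤ Real.exp (-L ^ (9 / 20 : ℝ)) := Real.exp_le_exp.mpr (by linarith)
    calc 4 * (X * E) = X * (4 * E) := by ring
      _ ≤ _ := mul_le_mul_of_nonneg_left h1 (Nat.cast_nonneg X)
  linarith

end Pool.Agent.H24W
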