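import Pool.Agent.Lib.H24W.SCL
import Pool.Agent.Lib.H24W.COS

/-!
# H24W, STW: the twisted sieve in progressions
-/

open Finset

namespace Pool.Agent.H24W

open Pool.Agent.H16U
open Pool.Agent.HUK (GG Bdd)
open Pool.Agent.H44W (ee)
open Pool.Agent.Lib.H68T (lp PC p0 Reg Good Exc sw)
open Pool.Agent.Lib.Sieve (poly cT cE cA)

private theorem STW_fib (u q r : ℕ) (hq : 1 ≤ q) (hr : 1 ≤ r) (b : ℤ) (c : ℕ)
    (hc : c ∈ (range (q * r)).filter (fun c : ℕ => (c : ℤ) ≡ b [ZMOD q])) :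
    (cl u q b).filter (fun n => n % (q * r) = c) = cl u (q * r) (c : ℤ) := by
  rw [mem_filter, mem_range] at hc
  obtain ⟨hc1, hc2⟩ := hc
  ext n
  rw [mem_filter, mem_cl, mem_cl]
  constructor
  · rintro ⟨⟨h1, _⟩, h3⟩
    refine ⟨h1, ?_⟩
    rw [Int.natCast_modEq_iff]
    unfold Nat.ModEq
    rw [h3, Nat.mod_eq_of_lt hc1]
  · rintro ⟨h1, h2⟩
    have h4 : (n : ℤ) ≡ c [ZMOD q] := by
      refine Int.ModEq.of_mul_right (r : ℤ) ?_
      push_cast at h2
      exact h2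
    refine ⟨⟨h1, h4.trans hc2⟩, ?_⟩
    rw [Int.natCast_modEq_iff] at h2
    unfold Nat.ModEq at h2
    rw [h2, Nat.mod_eq_of_lt hc1]

private theorem STW_card (q r : ℕ) (hq : 1 ≤ q) (b : ℤ) :
    ((range (q * r)).filter (fun c : ℕ => (c : ℤ) ≡ b [ZMOD q])).card ≤ r := by
  have h := card_le_card_of_injOn (s := (range (q * r)).filter (fun c : ℕ => (c : ℤ) ≡ b [ZMOD q])) (t := range r)
    (fun c : ℕ => c / q) ?_ ?_
  · rwa [card_range] at h
  · intro c hc
    rw [mem_coe, mem_filter, mem_range] at hc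
    rw [mem_coe, mem_range]
    exact Nat.div_lt_of_lt_mul hc.1
  · intro c hc d hd hcd
    rw [mem_coe, mem_filter, mem_range] at hc hd
    have h1 : (c : ℤ) ≡ d [ZMOD q] := hc.2.trans hd.2.symm
    rw [Int.natCast_modEq_iff] at h1
    unfold Nat.ModEq at h1
    have h2 : c / q = d / q := hcd
    rw [← Nat.div_add_mod c q, ← Nat.div_add_mod d q, h1, h2]

private theorem STW_psi {r : ℕ} (ψ : DirichletCharacter ℂ r) {n c : ℤ} (h : n ≡ c [ZMOD r]) :
    ψ (n : ZMod r) = ψ (c : ZMod r) := by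
  rw [(ZMod.intCast_eq_intCast_iff n c r).mpr h]

/-- If `e.q ∣ q`: `ψ(n) = ψ(b)` on `cl u q b`, `sieve_class`, `|ψ(b)| ≤ 1`. If not: with `M = q e.q`, `cl u q b` is the disjoint union of the `cl u M c`,
`c ∈ range M`, `c ≡ b (q)`; there are `e.q` such `c`; `ψ(n) = ψ(c)` on `cl u M c`, which is `0` unless `(c, e.q) = 1`; then `(c, M) = 1` (`c ≡ b (q)`)
and `sieve_class` for `M` (prime factors of `e.q` are at most `exp (L^(1/5)) ≤ wS X`, `le_wS`) gives `u/(φ(M) cS)` up to the error; the main terms cancel by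
`coset_zero` (real parts; terms with `(c, e.q) > 1` are zero anyway). -/
theorem sieve_twist : ∃ X0 : ℕ, ∀ X : ℕ, X0 ≤ X → ∀ (c : ℝ) (e : EX), e.Ok c → (e.q : ℝ) ≤ Real.exp ((Real.log X) ^ (1 / 5 : ℝ)) →
    ∀ q : ℕ, 1 ≤ q → (∀ p : ℕ, p.Prime → p ∣ q → p ≤ wS X) → ∀ b : ℤ, IsCoprime b (q : ℤ) → ∀ u : ℕ, u ≤ X →
    |∑ n ∈ cl u q b, rg X n * (e.ψ (n : ZMod e.q)).re -
      (if e.q ∣ q then (e.ψ (b : ZMod e.q)).re * (u / (Nat.totient q * cS X)) else 0)| ≤
      e.q * (X * Real.exp (-(Real.log X) ^ (9 / 20 : ℝ))) := by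
  obtain ⟨X1, hX1⟩ := sieve_class
  obtain ⟨X2, hX2⟩ := big_L 1
  refine ⟨X1 + X2, fun X hX c e he heq q hq hqw b hb u hu => ?_⟩
  have e1 := hX1 X (by omega)
  have hL1 := hX2 X (by omega)
  have hq1 : (1 : ℝ) ≤ e.q := by exact_mod_cast he.q_pos
  obtain ⟨E, hE⟩ : ∃ E : ℝ, E = X * Real.exp (-(Real.log X) ^ (9 / 20 : ℝ)) := ⟨_, rfl⟩
  have hE0 : 0 ≤ E := by rw [hE]; positivity
  rw [← hE] at e1 ⊢
  by_cases hd : e.q ∣ q
  · rw [if_pos hd]
    have h1 : ∑ n ∈ cl u q b, rg X n * (e.ψ (n : ZMod e.q)).re =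
        (e.ψ (b : ZMod e.q)).re * ∑ n ∈ cl u q b, rg X n := by
      rw [mul_sum]
      refine sum_congr rfl fun n hn => ?_
      have h2 : (n : ℤ) ≡ b [ZMOD q] := (mem_cl.mp hn).2
      have h3 : (n : ℤ) ≡ b [ZMOD e.q] := h2.of_dvd (by exact_mod_cast hd)
      have h4 := STW_psi e.ψ h3
      rw [Int.cast_natCast] at h4
      rw [h4, mul_comm]
    rw [h1, ← mul_sub, abs_mul]
    calc |(e.ψ (b : ZMod e.q)).re| * |∑ n ∈ cl u q b, rg X n - u / (Nat.totient q * cS X)| ≤ 1 * E :=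
          mul_le_mul (re_abs_le _ _) (e1 q hq hqw b hb u hu) (abs_nonneg _) zero_le_one
      _ ≤ e.q * E := mul_le_mul_of_nonneg_right hq1 hE0
  · rw [if_neg hd, sub_zero]
    set C := (range (q * e.q)).filter (fun c : ℕ => (c : ℤ) ≡ b [ZMOD q]) with hC
    have hM : 1 ≤ q * e.q := Nat.mul_pos hq he.q_pos
    have hMw : ∀ p : ℕ, p.Prime → p ∣ q * e.q → p ≤ wS X := by
      intro p hp hpd
      rcases (Nat.Prime.dvd_mul hp).mp hpd with h | h
      · exact hqw p hp h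
      · apply le_wS
        have h1 : (p : ℝ) ≤ e.q := by exact_mod_cast Nat.le_of_dvd he.q_pos h
        refine h1.trans (heq.trans (Real.exp_le_exp.mpr ?_))
        exact Real.rpow_le_rpow_of_exponent_le hL1 (by norm_num)
    have hmaps : ∀ n ∈ cl u q b, n % (q * e.q) ∈ C := by
      intro n hn
      rw [hC, mem_filter, mem_range]
      refine ⟨Nat.mod_lt _ hM, ?_⟩
      have h2 : (n : ℤ) ≡ b [ZMOD q] := (mem_cl.mp hn).2
      have h3 : ((n % (q * e.q) : ℕ) : ℤ) ≡ n [ZMOD q] := by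
        rw [Int.natCast_modEq_iff]
        exact (Nat.mod_modEq n (q * e.q)).of_mul_right e.q
      exact h3.trans h2
    have h1 : ∑ n ∈ cl u q b, rg X n * (e.ψ (n : ZMod e.q)).re =
        ∑ c ∈ C, (e.ψ (c : ZMod e.q)).re * ∑ n ∈ cl u (q * e.q) (c : ℤ), rg X n := by
      rw [← sum_fiberwise_of_maps_to hmaps]
      refine sum_congr rfl fun c hc => ?_
      rw [STW_fib u q e.q hq he.q_pos b c hc, mul_sum]
      refine sum_congr rfl fun n hn => ?_
      have h2 : (n : ℤ) ≡ c [ZMOD ((q * e.q : ℕ) : ℤ)] := (mem_cl.mp hn).2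
      have h3 : (n : ℤ) ≡ (c : ℤ) [ZMOD e.q] := by
        refine Int.ModEq.of_mul_left (q : ℤ) ?_
        push_cast at h2
        exact h2
      have h4 := STW_psi e.ψ h3
      rw [Int.cast_natCast, Int.cast_natCast] at h4
      rw [h4, mul_comm]
    obtain ⟨m, hm⟩ : ∃ m : ℝ, m = u / (Nat.totient (q * e.q) * cS X) := ⟨_, rfl⟩
    have h0 : ∑ c ∈ C, (e.ψ (c : ZMod e.q)).re * m = 0 := by
      rw [← sum_mul, ← Complex.re_sum, coset_zero e.q he.q_pos e.ψ he.prim q hq hd b, Complex.zero_re, zero_mul]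
    have h5 : ∑ c ∈ C, (e.ψ (c : ZMod e.q)).re * ∑ n ∈ cl u (q * e.q) (c : ℤ), rg X n =
        ∑ c ∈ C, (e.ψ (c : ZMod e.q)).re * (∑ n ∈ cl u (q * e.q) (c : ℤ), rg X n - m) := by
      rw [← sub_zero (∑ c ∈ C, (e.ψ (c : ZMod e.q)).re * ∑ n ∈ cl u (q * e.q) (c : ℤ), rg X n), ← h0,
        ← sum_sub_distrib]
      exact sum_congr rfl fun c _ => by ring
    rw [h1, h5]
    have h6 : ∀ c ∈ C, |(e.ψ (c : ZMod e.q)).re * (∑ n ∈ cl u (q * e.q) (c : ℤ), rg X n - m)| ≤ E := by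
      intro c hc
      by_cases hu' : IsUnit (c : ZMod e.q)
      · have h7 : IsCoprime (c : ℤ) (q : ℤ) := by
          rw [hC, mem_filter] at hc
          obtain ⟨k, hk⟩ := hc.2.dvd
          have h8 : (c : ℤ) = b + (-k) * q := by linarith
          rw [h8]
          exact (IsCoprime.add_mul_right_left_iff).mpr hb
        have h8 : IsCoprime (c : ℤ) (e.q : ℤ) := by
          rw [Nat.isCoprime_iff_coprime]
          exact (ZMod.isUnit_iff_coprime c e.q).mp hu'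
        have h9 : IsCoprime (c : ℤ) ((q * e.q : ℕ) : ℤ) := by
          push_cast
          exact h7.mul_right h8
        have h10 := e1 (q * e.q) hM hMw (c : ℤ) h9 u hu
        rw [← hm] at h10
        rw [abs_mul]
        calc |(e.ψ (c : ZMod e.q)).re| * |∑ n ∈ cl u (q * e.q) (c : ℤ), rg X n - m| ≤ 1 * E :=
              mul_le_mul (re_abs_le _ _) h10 (abs_nonneg _) zero_le_one
          _ = E := one_mul E
      · rw [MulChar.map_nonunit e.ψ hu', Complex.zero_re, zero_mul, abs_zero]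
        exact hE0
    refine (abs_sum_le_sum_abs _ _).trans ((sum_le_card_nsmul C _ E h6).trans ?_)
    rw [nsmul_eq_mul]
    have h11 : (C.card : ℝ) ≤ e.q := by exact_mod_cast STW_card q e.q hq b
    exact mul_le_mul_of_nonneg_right h11 hE0

end Pool.Agent.H24W
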