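import Pool.Agent.Lib.H24W.AMN
import Pool.Agent.Lib.H24W.APP
import Pool.Agent.Lib.H24W.MDL
import Pool.Agent.Lib.H24W.MAJ
import Pool.Agent.Lib.H24W.MLP
import Pool.Agent.Lib.H24W.MMD

/-!
# H24W, SUP: the supremum of the exponential sums
-/

open Finset

namespace Pool.Agent.H24W

open Pool.Agent.H16U
open Pool.Agent.HUK (GG Bdd)
open Pool.Agent.H44W (ee)
open Pool.Agent.Lib.H68T (lp PC p0 Reg Good Exc sw)
open Pool.Agent.Lib.Sieve (poly cT cE cA)

theorem sup_num (C : ℝ) : ∃ L0 : ℝ, ∀ L : ℝ, L0 ≤ L → 1 ≤ L ∧ 4 * (|C| + 1) * L ^ (10 : ℝ) ≤ Real.exp (L ^ (19 / 100 : ℝ) / 2) ∧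
    400 ≤ Real.exp (L ^ (19 / 100 : ℝ)) ∧ 100 * L ^ (19 / 50 : ℝ) ≤ L ∧ 100 * L ^ (19 / 50 : ℝ) ≤ L ^ (9 / 20 : ℝ) ∧
    4 * L ^ (19 / 50 : ℝ) ≤ L ^ (2 / 5 : ℝ) := by
  have e1 := ev_pow (show (19 / 50 : ℝ) < 2 / 5 by norm_num) 4
  have e2 := ev_pow (show (19 / 50 : ℝ) < 1 by norm_num) 100
  have e3 := ev_pow (show (19 / 50 : ℝ) < 9 / 20 by norm_num) 100
  have e4 := ev_log (show (0 : ℝ) < 19 / 100 by norm_num) (2 * (10 + 4 * (|C| + 1)))
  have e5 := Filter.eventually_ge_atTop (Real.exp 1)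
  have e6 := ev_pow (show (0 : ℝ) < 19 / 100 by norm_num) 400
  obtain ⟨L0, h0⟩ := Filter.eventually_atTop.1 (e1.and (e2.and (e3.and (e4.and (e5.and e6)))))
  refine ⟨L0, fun L hL => ?_⟩
  obtain ⟨h1, h2, h3, h4, h5, h6'⟩ := h0 L hL
  rw [Real.rpow_one] at h2
  rw [Real.rpow_zero, mul_one] at h6'
  have hL0 : 0 < L := (Real.exp_pos 1).trans_le h5
  have hL1 : 1 ≤ L := by
    have := Real.add_one_le_exp (1 : ℝ)
    linarith
  refine ⟨hL1, ?_, by linarith [Real.add_one_le_exp (L ^ (19 / 100 : ℝ))], h2, h3, h1⟩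
  have h6 : 1 ≤ Real.log L := (Real.le_log_iff_exp_le hL0).mpr h5
  have hC := abs_nonneg C
  have h7 : 4 * (|C| + 1) ≤ Real.exp (4 * (|C| + 1)) := by linarith [Real.add_one_le_exp (4 * (|C| + 1))]
  rw [Real.rpow_def_of_pos hL0]
  calc 4 * (|C| + 1) * Real.exp (Real.log L * 10) ≤ Real.exp (4 * (|C| + 1)) * Real.exp (Real.log L * 10) :=
        mul_le_mul_of_nonneg_right h7 (Real.exp_pos _).le
    _ = Real.exp (4 * (|C| + 1) + Real.log L * 10) := by rw [Real.exp_add]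
    _ ≤ Real.exp (L ^ (19 / 100 : ℝ) / 2) := by
      refine Real.exp_le_exp.mpr ?_
      have h8 : 4 * (|C| + 1) + Real.log L * 10 ≤ (10 + 4 * (|C| + 1)) * (1 + Real.log L) := by nlinarith
      linarith

/-- Data from `a_main`. Off the major arcs `Maj (exp (4 s)) X θ`: `approx` with `r = 1`, `b = 0` and `minor_lp` with `R = exp (4 s)`: `C (X exp (-(2 s)) + X^(4/5)) L^10 ≤ X exp (-s)/2`, and `minor_mdl`.
On them: `q ≤ ⌊exp (4 s)⌋₊ ≤ wS X`, `major` with `F n = EE X e.toE n` (difference of `ap_lp` with `E = X exp (-(20 s))`, and `ap_mdl`), `E' = X exp (-(20 s)) + X^(3/4) + X exp (-(L^(9/20)/2)) ≤ 3 X exp (-(20 s))`,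
`η = exp (4 s)/X`: at most `2 exp (4 s) 3 X exp (-(20 s)) (1 + 7 exp (4 s)) ≤ X exp (-s)`. -/
theorem sup_main : ∃ c0 : ℝ, 0 < c0 ∧ ∃ X0 : ℕ, ∀ X : ℕ, X0 ≤ X → ∃ (e : EX) (s : ℝ), e.Ok c0 ∧ Alt X e s ∧
    ∀ (θ : ℝ) (u v : ℕ), 1 ≤ u → v ≤ X → ‖∑ n ∈ Ico u v, EE X e.toE (n : ℤ) * ee (θ * n)‖ ≤ X * Real.exp (-s) := by
  obtain ⟨c0, hc0, X1, hA⟩ := a_main
  obtain ⟨X2, hlp⟩ := ap_lp
  obtain ⟨X3, hmd⟩ := ap_mdl
  obtain ⟨X4, hmm⟩ := minor_mdl
  obtain ⟨C, hC, hml⟩ := minor_lp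
  obtain ⟨L0, hnum⟩ := sup_num C
  obtain ⟨X5, hL0⟩ := big_L L0
  refine ⟨c0, hc0, X1 + X2 + X3 + X4 + X5 + 2, fun X hX => ?_⟩
  obtain ⟨e, s, he, hAlt, hpsi⟩ := hA X (by omega)
  refine ⟨e, s, he, hAlt, fun θ u v hu hv => ?_⟩
  obtain ⟨hL1, n1, n2, n3, n4, n5⟩ := hnum (Real.log X) (hL0 X (by omega))
  obtain ⟨hs1, hs2⟩ := hAlt.bounds hL1
  have heq := hAlt.q_le he
  have hX1 : 1 ≤ X := by omega
  have hX0 : (0 : ℝ) < X := by exact_mod_cast hX1
  obtain ⟨L, hL⟩ : ∃ L, L = Real.log (X : ℝ) := ⟨_, rfl⟩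
  have hXe : (X : ℝ) = Real.exp L := by rw [hL]; exact X_exp hX1
  have hs0 : 0 < s := lt_of_lt_of_le (Real.rpow_pos_of_pos (by linarith) _) hs1
  have hs400 : 400 ≤ Real.exp s := n2.trans (Real.exp_le_exp.mpr hs1)
  have hsL : 100 * s ≤ L := by rw [hL]; linarith
  have hQX : Real.exp (4 * s) ≤ X := by
    rw [hXe]
    exact Real.exp_le_exp.mpr (by linarith)
  have hQ1 : 1 ≤ Real.exp (4 * s) := Real.one_le_exp (by linarith)
  by_cases hM : Maj (Real.exp (4 * s)) X θ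
  · -- major arcs
    obtain ⟨q, a, hq, hqQ, hqa⟩ := hM
    have hqf : q ≤ ⌊Real.exp (4 * s)⌋₊ := Nat.le_floor hqQ
    have hfX : ⌊Real.exp (4 * s)⌋₊ ≤ X := by
      have h1 : ((⌊Real.exp (4 * s)⌋₊ : ℕ) : ℝ) ≤ X := (Nat.floor_le (Real.exp_pos _).le).trans hQX
      exact_mod_cast h1
    have hqw : q ≤ wS X := by
      refine le_wS (hqQ.trans (Real.exp_le_exp.mpr ?_))
      linarith
    obtain ⟨E, hE⟩ : ∃ E : ℝ, E = X * Real.exp (-(20 * s)) := ⟨_, rfl⟩
    have hE0 : 0 ≤ E := by rw [hE]; positivity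
    have hF : ∀ (b : ℤ) (t : ℕ), t ≤ X → ‖∑ n ∈ cl t q b, EE X e.toE (n : ℤ)‖ ≤ 3 * E := by
      intro b t ht
      have h1 := hlp X (by omega) c0 e he ⌊Real.exp (4 * s)⌋₊ E hfX hE0 (by rw [hE]; exact hpsi) q hq hqf b t ht
      have h2 := hmd X (by omega) c0 e he heq q hq hqw b t ht
      have h3 : ∑ n ∈ cl t q b, EE X e.toE (n : ℤ) =
          (((∑ n ∈ cl t q b, lp (n : ℤ) - e.M t q b) - (∑ n ∈ cl t q b, mdl X e.toE (n : ℤ) - e.M t q b) : ℝ) : ℂ) := by
        unfold EE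
        rw [← Complex.ofReal_sum, Finset.sum_sub_distrib]
        congr 1
        ring
      rw [h3, Complex.norm_real, Real.norm_eq_abs]
      refine (abs_sub _ _).trans ?_
      have h4 : (X : ℝ) ^ (3 / 4 : ℝ) ≤ E := by
        rw [hE, hXe, ← Real.exp_mul, ← Real.exp_add]
        exact Real.exp_le_exp.mpr (by linarith)
      have h5 : (X : ℝ) * Real.exp (-((Real.log X) ^ (9 / 20 : ℝ) / 2)) ≤ E := by
        rw [hE]
        refine mul_le_mul_of_nonneg_left (Real.exp_le_exp.mpr ?_) hX0.le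
        linarith
      linarith
    have h6 := major (fun n => EE X e.toE (n : ℤ)) X q hq (3 * E) hF θ a (Real.exp (4 * s) / X) hqa u v hu (by omega)
    refine h6.trans ?_
    have h7 : 7 * (X : ℝ) * (Real.exp (4 * s) / X) = 7 * Real.exp (4 * s) := by
      field_simp
    rw [h7]
    calc 2 * (q : ℝ) * (3 * E) * (1 + 7 * Real.exp (4 * s)) ≤ 2 * Real.exp (4 * s) * (3 * E) * (8 * Real.exp (4 * s)) := by
          refine mul_le_mul ?_ (by linarith) (by positivity) (by positivity)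
          exact mul_le_mul_of_nonneg_right (by linarith) (by positivity)
      _ = 48 * (X * Real.exp (4 * s + 4 * s + -(20 * s))) := by
          rw [hE, Real.exp_add, Real.exp_add]
          ring
      _ = 48 * (X * Real.exp (-(12 * s))) := by
          congr 3
          ring
      _ ≤ Real.exp s * (X * Real.exp (-(12 * s))) := mul_le_mul_of_nonneg_right (by linarith) (by positivity)
      _ = X * Real.exp (s + -(12 * s)) := by
          rw [Real.exp_add]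
          ring
      _ ≤ X * Real.exp (-s) := mul_le_mul_of_nonneg_left (Real.exp_le_exp.mpr (by linarith)) hX0.le
  · -- minor arcs
    have hMn := approx (Real.exp (4 * s)) X hQ1 hQX θ hM 1 le_rfl 0
    rw [Nat.cast_one, div_one, Int.cast_zero, zero_div, add_zero] at hMn
    have h1 := hml X (by omega) (Real.exp (4 * s)) hQ1 θ hMn u v hv
    have h2 := hmm X (by omega) c0 e s he hAlt θ hM u v hu hv
    have h3 : ∑ n ∈ Ico u v, EE X e.toE (n : ℤ) * ee (θ * n) =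
        ∑ n ∈ Ico u v, ((lp (n : ℤ) : ℝ) : ℂ) * ee (θ * n) - ∑ n ∈ Ico u v, ((mdl X e.toE (n : ℤ) : ℝ) : ℂ) * ee (θ * n) := by
      rw [← Finset.sum_sub_distrib]
      refine Finset.sum_congr rfl fun n _ => ?_
      unfold EE
      push_cast
      ring
    rw [h3]
    refine (norm_sub_le _ _).trans ?_
    have hsq : Real.sqrt (Real.exp (4 * s)) = Real.exp (2 * s) := by
      rw [show (4 : ℝ) * s = 2 * s + 2 * s by ring, Real.exp_add, Real.sqrt_mul_self (Real.exp_pos _).le]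
    rw [hsq, ← hL] at h1
    have hpow : (X : ℝ) ^ (4 / 5 : ℝ) ≤ X * Real.exp (-(2 * s)) := by
      rw [hXe, ← Real.exp_mul, ← Real.exp_add]
      exact Real.exp_le_exp.mpr (by linarith)
    have hdiv : (X : ℝ) / Real.exp (2 * s) = X * Real.exp (-(2 * s)) := by
      rw [Real.exp_neg]
      rfl
    have hn : 4 * (|C| + 1) * L ^ 10 ≤ Real.exp (s / 2) := by
      have h7 : L ^ (10 : ℝ) = L ^ 10 := by
        rw [← Real.rpow_natCast L 10]
        norm_num
      rw [← hL, h7] at n1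
      exact n1.trans (Real.exp_le_exp.mpr (by rw [hL]; linarith))
    have hL10 : 0 ≤ L ^ 10 := by positivity
    have hCb : C * (2 * L ^ 10) ≤ Real.exp (s / 2) / 2 := by
      have h8 : C ≤ |C| + 1 := by linarith [le_abs_self C]
      have h9 := mul_le_mul_of_nonneg_right h8 hL10
      linarith
    have h4 : C * (X / Real.exp (2 * s) + (X : ℝ) ^ (4 / 5 : ℝ)) * L ^ 10 ≤ X * Real.exp (-s) / 2 := by
      rw [hdiv]
      calc C * (X * Real.exp (-(2 * s)) + (X : ℝ) ^ (4 / 5 : ℝ)) * L ^ 10 ≤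
            C * (X * Real.exp (-(2 * s)) + X * Real.exp (-(2 * s))) * L ^ 10 := by
            refine mul_le_mul_of_nonneg_right (mul_le_mul_of_nonneg_left (by linarith) hC.le) hL10
        _ = C * (2 * L ^ 10) * (X * Real.exp (-(2 * s))) := by ring
        _ ≤ Real.exp (s / 2) / 2 * (X * Real.exp (-(2 * s))) := mul_le_mul_of_nonneg_right hCb (by positivity)
        _ = X * Real.exp (s / 2 + -(2 * s)) / 2 := by
            rw [Real.exp_add]
            ring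
        _ ≤ X * Real.exp (-s) / 2 := by
            refine div_le_div_of_nonneg_right (mul_le_mul_of_nonneg_left (Real.exp_le_exp.mpr ?_) hX0.le) (by norm_num)
            linarith
    have h5 : X * Real.exp (-(2 * s)) ≤ X * Real.exp (-s) / 2 := by
      have h6 : Real.exp (-(2 * s)) = Real.exp (-s) * Real.exp (-s) := by
        rw [← Real.exp_add]
        congr 1
        ring
      have h7 : Real.exp (-s) ≤ 1 / 2 := by
        rw [Real.exp_neg, inv_le_comm₀ (Real.exp_pos _) (by norm_num)]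
        norm_num
        linarith
      rw [h6]
      have h8 : 0 < Real.exp (-s) := Real.exp_pos _
      nlinarith [mul_le_mul_of_nonneg_left h7 (mul_pos hX0 h8).le]
    linarith

end Pool.Agent.H24W
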