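import Pool.Agent.Lib.H24W.BON1

/-!
# H24W, TRD: the truncated sieve as a divisor sum
-/

open Finset

namespace Pool.Agent.H24W

open Pool.Agent.H16U
open Pool.Agent.HUK (GG Bdd)
open Pool.Agent.H44W (ee)
open Pool.Agent.Lib.H68T (lp PC p0 Reg Good Exc sw)
open Pool.Agent.Lib.Sieve (poly cT cE cA)

private theorem trd_cT_abs (b : ℕ) (D : Finset ℕ) : |cT b D| ≤ 1 := by
  unfold cT
  split_ifs
  · rw [abs_pow, abs_neg, abs_one, one_pow]
  · rw [abs_zero]; exact zero_le_one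

private theorem trd_prime {X : ℕ} {D : Finset ℕ} (hD : D ∈ (PS X).powerset) : ∀ p ∈ D, p.Prime :=
  fun p hp => (mem_PS.mp (mem_powerset.mp hD hp)).1

private theorem trd_eq {X d : ℕ} {D : Finset ℕ} (hD : D ∈ (PS X).powerset) (h : ∏ p ∈ D, p = d) :
    D = d.primeFactors := by
  rw [← h]
  exact (Nat.primeFactors_prod (trd_prime hD)).symm

private theorem trd_one_le_wS (X : ℕ) : 1 ≤ wS X := by
  apply le_wS
  have h : 0 ≤ (Real.log X) ^ (2 / 5 : ℝ) := Real.rpow_nonneg (Real.log_natCast_nonneg X) _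
  have := Real.one_le_exp h
  exact_mod_cast this

/-- `G d = ∑_{D ∈ (PS X).powerset, ∏ D = d} cT (rS X) D`: at most one term, since a set of primes is determined by its product
(`Nat.primeFactors_prod` or so). `G d ≠ 0` gives `d = ∏ D` with `card D ≤ rS X`, all `p ≤ wS X`. For `n ≥ 1`: `TR X n = ∑_{D} cT (rS X) D [∏ D ∣ n]`
(`dv_prod`), group by `d = ∏ D`. -/
theorem TR_sum (X : ℕ) : ∃ G : ℕ → ℝ, (∀ d, |G d| ≤ 1) ∧ (∀ d, G d ≠ 0 → 1 ≤ d ∧ d ≤ (wS X) ^ (rS X)) ∧
    ∀ n : ℕ, 1 ≤ n → TR X (n : ℤ) = ∑ d ∈ n.divisors, G d := by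
  classical
  refine ⟨fun d => ∑ D ∈ (PS X).powerset, if ∏ p ∈ D, p = d then cT (rS X) D else 0, ?_, ?_, ?_⟩
  · intro d
    dsimp only
    rw [← Finset.sum_filter]
    have hsub : (PS X).powerset.filter (fun D => ∏ p ∈ D, p = d) ⊆ {d.primeFactors} := by
      intro D hD
      rw [mem_filter] at hD
      rw [mem_singleton]
      exact trd_eq hD.1 hD.2
    rcases Finset.subset_singleton_iff.mp hsub with h | h
    · rw [h, Finset.sum_empty, abs_zero]; exact zero_le_one
    · rw [h, Finset.sum_singleton]; exact trd_cT_abs _ _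
  · intro d hd
    dsimp only at hd
    obtain ⟨D, hD, hne⟩ := Finset.exists_ne_zero_of_sum_ne_zero hd
    have h1 : ∏ p ∈ D, p = d := by
      by_contra hc
      exact hne (if_neg hc)
    rw [if_pos h1] at hne
    have h2 : D.card ≤ rS X := by
      by_contra hc
      exact hne (by unfold cT; rw [if_neg hc])
    constructor
    · rw [← h1]
      exact Nat.succ_le_of_lt (Finset.prod_pos fun p hp => (trd_prime hD p hp).pos)
    · rw [← h1]
      calc ∏ p ∈ D, p ≤ (wS X) ^ D.card :=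
            Finset.prod_le_pow_card _ _ _ fun p hp => (mem_PS.mp (mem_powerset.mp hD hp)).2
        _ ≤ (wS X) ^ (rS X) := Nat.pow_le_pow_right (trd_one_le_wS X) h2
  · intro n hn
    dsimp only
    rw [Finset.sum_comm]
    unfold TR poly
    refine Finset.sum_congr rfl fun D hD => ?_
    rw [dv_prod (n : ℤ) D (trd_prime hD), Finset.sum_ite_eq]
    have hiff : (((∏ p ∈ D, p : ℕ) : ℤ) ∣ (n : ℤ)) ↔ (∏ p ∈ D, p) ∈ n.divisors := by
      rw [Int.natCast_dvd_natCast, Nat.mem_divisors]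
      exact ⟨fun h => ⟨h, by omega⟩, fun h => h.1⟩
    by_cases h : (∏ p ∈ D, p) ∈ n.divisors
    · rw [if_pos h, if_pos (hiff.mpr h), mul_one]
    · rw [if_neg h, if_neg (fun h' => h (hiff.mp h')), mul_zero]

end Pool.Agent.H24W
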